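import Pool.Agent.Lib.MP_1d980c_gt.Blow.GDefs

/-! From a germ atlas to a complex manifold. -/

set_option autoImplicit false
open Topology Pool.Agent.S4T2
open scoped Manifold ContDiff

namespace Pool.Agent.BlowC

/-- from a germ atlas to a complex manifold. -/
theorem complex_of_holGerms {k : ℕ} {E' H Q F : Type} [NormedAddCommGroup E'] [NormedSpace ℝ E']
    [FiniteDimensional ℝ E'] [TopologicalSpace H] {J : ModelWithCorners ℝ E' H} [J.Boundaryless]
    [TopologicalSpace Q] [ChartedSpace H Q] [IsManifold J ∞ Q]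
    [NormedAddCommGroup F] [NormedSpace ℂ F] (T : F ≃L[ℂ] EuclideanSpace ℂ (Fin k))
    (hdim : Module.finrank ℝ E' = 2 * k)
    {Gm : Q → Set (Q → F)} (h : HolGerms J Gm) :
    ∃ (N : Type) (_ : TopologicalSpace N) (_ : ChartedSpace (EuclideanSpace ℂ (Fin k)) N),
      IsManifold 𝓘(ℂ, EuclideanSpace ℂ (Fin k)) ∞ N ∧
      Nonempty (Diffeomorph J 𝓘(ℝ, EuclideanSpace ℂ (Fin k)) Q N ∞) := by
  let TR : F ≃L[ℝ] EuclideanSpace ℂ (Fin k) :=
    { toLinearEquiv := T.toLinearEquiv.restrictScalars ℝ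
      continuous_toFun := T.continuous
      continuous_invFun := T.symm.continuous }
  refine complex_of_germs (k := k) (J := J) (M := Q)
    (fun y => {G | ∃ f ∈ Gm y, G = fun y' => TR (f y')}) ?_ ?_ ?_
  · intro x
    obtain ⟨f, hf, hn⟩ := h.ex x
    refine ⟨fun y' => TR (f y'), ⟨f, hf, rfl⟩, ?_⟩
    filter_upwards [hn] with y hy
    exact ⟨f, hy, rfl⟩
  · rintro x G ⟨f, hf, rfl⟩
    have hs := h.smooth x f hf
    have hinj := h.inj x f hf
    have hTs : ContMDiffAt 𝓘(ℝ, F) 𝓘(ℝ, EuclideanSpace ℂ (Fin k)) ∞ TR (f x) :=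
      (TR.contDiff.contDiffAt (n := ∞)).contMDiffAt
    refine ⟨hTs.comp x hs, ?_⟩
    have hfd : HasMFDerivAt J 𝓘(ℝ, F) f x (mfderiv J 𝓘(ℝ, F) f x) :=
      (hs.mdifferentiableAt (by simp)).hasMFDerivAt
    have hg : HasMFDerivAt 𝓘(ℝ, F) 𝓘(ℝ, EuclideanSpace ℂ (Fin k)) TR (f x)
        (TR : F →L[ℝ] EuclideanSpace ℂ (Fin k)) := TR.hasMFDerivAt
    have hm := hg.comp x hfd
    have hm' : mfderiv J 𝓘(ℝ, EuclideanSpace ℂ (Fin k)) (fun y' => TR (f y')) x =
        (TR : F →L[ℝ] EuclideanSpace ℂ (Fin k)).comp (mfderiv J 𝓘(ℝ, F) f x) :=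
      hm.mfderiv
    rw [hm']
    set L : E' →L[ℝ] EuclideanSpace ℂ (Fin k) :=
      (TR : F →L[ℝ] EuclideanSpace ℂ (Fin k)).comp (mfderiv J 𝓘(ℝ, F) f x) with hL
    have hLi : Function.Injective L := by
      have h1 : Function.Injective (fun w : E' => TR ((mfderiv J 𝓘(ℝ, F) f x : E' →L[ℝ] F) w)) :=
        TR.injective.comp hinj
      exact h1
    have hfr : Module.finrank ℝ E' = Module.finrank ℝ (EuclideanSpace ℂ (Fin k)) := by
      rw [hdim, finrank_real_of_complex, finrank_euclideanSpace_fin]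
    exact ⟨hLi, (LinearMap.injective_iff_surjective_of_finrank_eq_finrank
      (f := L.toLinearMap) hfr).1 hLi⟩
  · rintro x F' ⟨f, hf, rfl⟩ G ⟨g, hg, rfl⟩
    obtain ⟨H, hH, hev⟩ := h.rel x f hf g hg
    refine ⟨fun z => T (H (T.symm z)), ?_, ?_⟩
    · have e : T.symm (TR (f x)) = f x := T.symm_apply_apply _
      refine (T.contDiff.contDiffAt (n := ∞)).comp _ (ContDiffAt.comp _ ?_
        (T.symm.contDiff.contDiffAt (n := ∞)))
      rw [e]
      exact hH
    · filter_upwards [hev] with y hy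
      have e : T.symm (TR (f y)) = f y := T.symm_apply_apply _
      show TR (g y) = T (H (T.symm (TR (f y))))
      rw [e, hy]
      rfl

end Pool.Agent.BlowC
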