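import Pool.Agent.Lib.MP_1d980c_gt.S4.Main
import Pool.Agent.Lib.MP_1d980c_gt.Blow.Germs

/-! The germs of `S⁴ × S^{2p+1} × S^{2q+1}` in the ambient space. -/

set_option autoImplicit false
open Complex ComplexConjugate Topology Pool.Agent.S4T2
open scoped Manifold ContDiff

namespace Pool.Agent.BlowC

/-- an ambient family of germs satisfying the hypotheses of `bridge`. -/
structure AmbGerms (p q : ℕ) (Gm : Amb p q → Set (Amb p q → Tgt p q)) : Prop where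
  ex : ∀ x ∈ SP p q, ∃ f ∈ Gm x, ∀ᶠ y in 𝓝 x, y ∈ SP p q → f ∈ Gm y
  sm : ∀ x ∈ SP p q, ∀ f ∈ Gm x, ContDiffAt ℝ ∞ f x ∧ ∀ v : Amb p q, Tan4 x.1 v.1 →
      TanO p x.2.1 v.2.1 → TanO q x.2.2 v.2.2 → fderiv ℝ f x v = 0 → v = 0
  rel : ∀ x ∈ SP p q, ∀ f ∈ Gm x, ∀ g ∈ Gm x, HolRel x f g

variable {V1 V2 R1 R2 : Type}

/-- the triple of a node chart: `x = u φ₀`, `y = v ψ₀`. -/
noncomputable def ndT (s : Side) (φ₀ ψ₀ : A4 → ℂ) (ε μ : ℝ) (d1 : (V1 → ℂ) × (V1 → R1))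
    (d2 : (V2 → ℂ) × (V2 → R2)) : Trip (A4 × V1 × V2) (ℂ × R1 × R2) where
  φ x := φ₀ x.1 * exp (-lam ε μ (s.x x.1 * s.y x.1) (s.L false x.1) (d1.1 x.2.1) (d2.1 x.2.2))
  ψ x := ψ₀ x.1 * exp (lam ε μ (s.x x.1 * s.y x.1) (s.L false x.1) (d1.1 x.2.1) (d2.1 x.2.2))
  ρ x := (zet ε μ (s.x x.1 * s.y x.1) (s.L false x.1) (d1.1 x.2.1) (d2.1 x.2.2),
    d1.2 x.2.1, d2.2 x.2.2)

/-- the node chart of the first side: `x = Y φ₀`, `y = X ψ₀`. -/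
noncomputable def phi0 (P : A4) : ℂ := exp (-(Lb false P / 2))

noncomputable def psi0 (P : A4) : ℂ := 4 / y1 P * exp (Lb false P / 2)

theorem x0_eq (P : A4) : x0 P = P.2.1 * phi0 P := rfl

theorem y0_eq (P : A4) : y0 P = P.1 * psi0 P := by
  simp only [y0, psi0]; ring

theorem phi0_ne (P : A4) : phi0 P ≠ 0 := exp_ne_zero _

end Pool.Agent.BlowC
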