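import Pool.Agent.Lib.MP_1d980c_gt.Blow.Defs

/-! The topological space of the blow-up, as a subspace of `N × ℝ × ℂ`. -/

set_option autoImplicit false
open Topology Complex ComplexConjugate
open scoped Manifold ContDiff

namespace Pool.Agent.BlowC

/-- `‖a‖² + ‖b‖²`. -/
noncomputable def q2 (w : ℂ × ℂ) : ℝ := ‖w.1‖ ^ 2 + ‖w.2‖ ^ 2

/-- local data for the blow-up: a chart `e` centred at `p`, whose target contains the closed ball
`q2 ≤ r`. -/
structure BData (N : Type) [TopologicalSpace N] where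
  e : OpenPartialHomeomorph N (ℂ × ℂ)
  p : N
  r : ℝ
  hp : p ∈ e.source
  ep : e p = 0
  hr : 0 < r
  ball : ∀ w, q2 w ≤ r → w ∈ e.target

namespace BData

variable {N : Type} [TopologicalSpace N] (b : BData N)

/-- the open ball. -/
def D : Set N := {x | x ∈ b.e.source ∧ q2 (b.e x) < b.r}

open Classical in
/-- the cutoff function, positive exactly on `D`. -/
noncomputable def chi (x : N) : ℝ := if x ∈ b.D then 1 - q2 (b.e x) / b.r else 0

/-- `‖u‖² χ / (‖u‖² + ‖v‖²)`. -/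
noncomputable def al (x : N) : ℝ := b.chi x * ‖(b.e x).1‖ ^ 2 / q2 (b.e x)

/-- `conj u v χ / (‖u‖² + ‖v‖²)`. -/
noncomputable def ka (x : N) : ℂ := (b.chi x : ℂ) * (conj (b.e x).1 * (b.e x).2) / (q2 (b.e x) : ℂ)

/-- the blow-up. -/
def BSet : Set (N × ℝ × ℂ) :=
  {y | (y.1 ≠ b.p ∧ y.2.1 = b.al y.1 ∧ y.2.2 = b.ka y.1) ∨
    (y.1 = b.p ∧ ‖y.2.2‖ ^ 2 = y.2.1 * (1 - y.2.1))}

/-- the blow-down map. -/
def bd (y : b.BSet) : N := y.1.1

/-- the slope `v / u`. -/
noncomputable def sl (y : b.BSet) : ℂ := y.1.2.2 / (y.1.2.1 : ℂ)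

/-- the domain of the chart of finite slopes. -/
def S1 : Set b.BSet := {y | b.bd y ∈ b.D ∧ y.1.2.1 ≠ 0}

/-- the domain of the chart of nonzero slopes. -/
def S2 : Set b.BSet := {y | b.bd y ∈ b.D ∧ b.chi (b.bd y) - y.1.2.1 ≠ 0}

theorem bd_continuous : Continuous b.bd := continuous_fst.comp continuous_subtype_val

end BData

end Pool.Agent.BlowC
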