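import Pool.Agent.Lib.MP_1d980c_gt.Blow.BSpace
import Pool.Agent.Lib.MP_1d980c_gt.Blow.Loc

/-! The germs of charts of the blow-up (real version). -/

set_option autoImplicit false
open Topology Complex ComplexConjugate
open scoped Manifold ContDiff

namespace Pool.Agent.BlowC

/-- `g'` is a smooth function of `g` near `y`. -/
def RelS {X A B : Type} [TopologicalSpace X] [NormedAddCommGroup A] [NormedSpace ℝ A]
    [NormedAddCommGroup B] [NormedSpace ℝ B] (y : X) (g : X → A) (g' : X → B) : Prop :=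
  ∃ H : A → B, ContDiffAt ℝ ∞ H (g y) ∧ ∀ᶠ y' in 𝓝 y, g' y' = H (g y')

theorem RelS.trans {X A B C : Type} [TopologicalSpace X] [NormedAddCommGroup A] [NormedSpace ℝ A]
    [NormedAddCommGroup B] [NormedSpace ℝ B] [NormedAddCommGroup C] [NormedSpace ℝ C] {y : X}
    {g : X → A} {g' : X → B} {g'' : X → C} (h1 : RelS y g g') (h2 : RelS y g' g'') :
    RelS y g g'' := by
  obtain ⟨H1, h1, h1'⟩ := h1
  obtain ⟨H2, h2, h2'⟩ := h2
  have h3 : ContDiffAt ℝ ∞ H2 (H1 (g y)) := by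
    rw [← h1'.self_of_nhds]
    exact h2
  refine ⟨H2 ∘ H1, h3.comp (g y) h1, ?_⟩
  filter_upwards [h1', h2'] with y' k1 k2
  rw [k2, k1]
  rfl

theorem RelS.refl {X A : Type} [TopologicalSpace X] [NormedAddCommGroup A] [NormedSpace ℝ A]
    (y : X) (g : X → A) : RelS y g g :=
  ⟨id, contDiffAt_id, Filter.Eventually.of_forall fun _ => rfl⟩

theorem exists_T4 : Nonempty ((ℂ × ℂ) ≃L[ℝ] E4) := by
  apply FiniteDimensional.nonempty_continuousLinearEquiv_of_finrank_eq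
  rw [Module.finrank_prod, Complex.finrank_real_complex, finrank_euclideanSpace_fin]

/-- the identification `ℂ² = ℝ⁴`. -/
noncomputable def T4 : (ℂ × ℂ) ≃L[ℝ] E4 := exists_T4.some

variable {N : Type} [TopologicalSpace N] [ChartedSpace E4 N] [IsManifold (𝓡 4) ∞ N] [T2Space N]

/-- the data `b` comes from the coordinates of the mark `c`. -/
structure BSetup (c : Mark N) (b : BData N) : Prop where
  hp : b.p = c.pt
  he : ∀ x ∈ b.e.source, b.e x = (c.u x, c.v x)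
  hc : ∀ x ∈ b.e.source, CoordAt c.u c.v x
  hs : ∀ w ∈ b.e.target, ContMDiffAt 𝓘(ℝ, ℂ × ℂ) (𝓡 4) ∞ b.e.symm w

/-- the family of germs. -/
def GmR (c : Mark N) (b : BData N) (y : b.BSet) : Set (b.BSet → E4) :=
  {g | (b.bd y ≠ b.p ∧ ∃ f : N → E4, ContMDiffAt (𝓡 4) 𝓘(ℝ, E4) ∞ f (b.bd y) ∧
      Function.Bijective (mfderiv (𝓡 4) 𝓘(ℝ, E4) f (b.bd y)) ∧ g = fun y => f (b.bd y)) ∨
    (y ∈ b.S1 ∧ g = fun y => T4 (c.u (b.bd y), b.sl y)) ∨
    (y ∈ b.S2 ∧ g = fun y => T4 ((b.sl y)⁻¹, c.v (b.bd y)))}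

end Pool.Agent.BlowC
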