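import Pool.Agent.Lib.MP_1d980c_gt.Blow.BGDefs

/-! Relations with pulled back charts. -/

set_option autoImplicit false
open Topology Complex ComplexConjugate
open scoped Manifold ContDiff

namespace Pool.Agent.BlowC

variable {N : Type} [TopologicalSpace N] [ChartedSpace E4 N] [IsManifold (𝓡 4) ∞ N] [T2Space N]

private theorem rel_gen {X F G : Type} [TopologicalSpace X] [NormedAddCommGroup F]
    [NormedSpace ℝ F] [NormedAddCommGroup G] [NormedSpace ℝ G] {f : N → F} {g : N → G}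
    {β : X → N} {y : X} (hβ : ContinuousAt β y) (hf : ContMDiffAt (𝓡 4) 𝓘(ℝ, F) ∞ f (β y))
    (hb : Function.Bijective (mfderiv (𝓡 4) 𝓘(ℝ, F) f (β y)))
    (hg : ContMDiffAt (𝓡 4) 𝓘(ℝ, G) ∞ g (β y)) :
    RelS y (fun y => f (β y)) (fun y => g (β y)) := by
  obtain ⟨e, hx, he, hs⟩ := exists_local_inv_at hf hb
  have h0 : e.symm (f (β y)) = β y := by
    rw [← he _ hx]
    exact e.left_inv hx
  refine ⟨fun w => g (e.symm w), ?_, ?_⟩
  · rw [← contMDiffAt_iff_contDiffAt]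
    refine ContMDiffAt.comp (I' := 𝓡 4) (f (β y)) (g := g) (f := e.symm) ?_ hs
    rw [h0]
    exact hg
  · filter_upwards [hβ.eventually (e.open_source.mem_nhds hx)] with y' hy'
    show g (β y') = g (e.symm (f (β y')))
    rw [← he _ hy', e.left_inv hy']

section

variable {c : Mark N} {b : BData N} {y : b.BSet}

/-- off the exceptional curve: two pulled back charts. -/
theorem relS_NN {f f' : N → E4} (hf : ContMDiffAt (𝓡 4) 𝓘(ℝ, E4) ∞ f (b.bd y))
    (hb : Function.Bijective (mfderiv (𝓡 4) 𝓘(ℝ, E4) f (b.bd y)))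
    (hf' : ContMDiffAt (𝓡 4) 𝓘(ℝ, E4) ∞ f' (b.bd y)) :
    RelS y (fun y => f (b.bd y)) (fun y => f' (b.bd y)) :=
  rel_gen b.bd_continuous.continuousAt hf hb hf'

/-- from a pulled back chart to `(u, v)`. -/
theorem relS_Nuv (S : BSetup c b) (hD : b.bd y ∈ b.D) {f : N → E4}
    (hf : ContMDiffAt (𝓡 4) 𝓘(ℝ, E4) ∞ f (b.bd y))
    (hb : Function.Bijective (mfderiv (𝓡 4) 𝓘(ℝ, E4) f (b.bd y))) :
    RelS y (fun y => f (b.bd y)) (fun y => (c.u (b.bd y), c.v (b.bd y))) :=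
  rel_gen (g := fun x => (c.u x, c.v x)) b.bd_continuous.continuousAt hf hb
    (S.hc _ hD.1).smooth_uv

/-- from `(u, v)` to a pulled back chart. -/
theorem relS_uvN (S : BSetup c b) (hD : b.bd y ∈ b.D) {f : N → E4}
    (hf : ContMDiffAt (𝓡 4) 𝓘(ℝ, E4) ∞ f (b.bd y)) :
    RelS y (fun y => (c.u (b.bd y), c.v (b.bd y))) (fun y => f (b.bd y)) :=
  rel_gen (f := fun x => (c.u x, c.v x)) b.bd_continuous.continuousAt
    (S.hc _ hD.1).smooth_uv (S.hc _ hD.1).2 hf

end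

end Pool.Agent.BlowC
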