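import Pool.Agent.Lib.MP_1d980c_gt.Blow.BGDefs

/-! Relations between the charts of the blow-up. -/

set_option autoImplicit false
open Topology Complex ComplexConjugate
open scoped Manifold ContDiff

namespace Pool.Agent.BlowC

variable {N : Type} [TopologicalSpace N] [ChartedSpace E4 N] [IsManifold (𝓡 4) ∞ N] [T2Space N]

section

variable {c : Mark N} {b : BData N} {y : b.BSet}

omit [ChartedSpace E4 N] [IsManifold (𝓡 4) ∞ N] in
private theorem S1_nhds (h : y ∈ b.S1) : b.S1 ∈ 𝓝 y := by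
  obtain ⟨f, hf, -⟩ := b.exists_chart1
  have h1 : IsOpen b.S1 := hf ▸ f.open_source
  exact h1.mem_nhds h

omit [ChartedSpace E4 N] [IsManifold (𝓡 4) ∞ N] in
private theorem S2_nhds (h : y ∈ b.S2) : b.S2 ∈ 𝓝 y := by
  obtain ⟨f, hf, -⟩ := b.exists_chart2
  have h1 : IsOpen b.S2 := hf ▸ f.open_source
  exact h1.mem_nhds h

private theorem eq1 (S : BSetup c b) {y : b.BSet} (h : y ∈ b.S1) :
    c.v (b.bd y) = b.sl y * c.u (b.bd y) := by
  have h1 := b.sl_mul h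
  rw [S.he _ h.1.1] at h1
  exact h1

private theorem eq2 (S : BSetup c b) {y : b.BSet} (h : y ∈ b.S2) :
    c.u (b.bd y) = (b.sl y)⁻¹ * c.v (b.bd y) := by
  have h1 := b.sl_inv_mul h
  rw [S.he _ h.1.1] at h1
  exact h1

private theorem une (S : BSetup c b) {y : b.BSet} (h : y ∈ b.S1) (hy : b.bd y ≠ b.p) :
    c.u (b.bd y) ≠ 0 := by
  have h1 := b.u_ne h hy
  rw [S.he _ h.1.1] at h1
  exact h1

private theorem vne (S : BSetup c b) {y : b.BSet} (h : y ∈ b.S2) (hy : b.bd y ≠ b.p) :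
    c.v (b.bd y) ≠ 0 := by
  have h1 := b.v_ne h hy
  rw [S.he _ h.1.1] at h1
  exact h1

omit [ChartedSpace E4 N] [IsManifold (𝓡 4) ∞ N] in
private theorem ne_nhds (hy : b.bd y ≠ b.p) : ∀ᶠ y' in 𝓝 y, b.bd y' ≠ b.p :=
  b.bd_continuous.continuousAt.eventually_ne hy

private theorem sm_fst (w : E4) : ContDiffAt ℝ ∞ (fun w => (T4.symm w).1) w :=
  contDiff_fst.contDiffAt.comp w T4.symm.contDiff.contDiffAt

private theorem sm_snd (w : E4) : ContDiffAt ℝ ∞ (fun w => (T4.symm w).2) w :=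
  contDiff_snd.contDiffAt.comp w T4.symm.contDiff.contDiffAt

theorem relS_uv1 (S : BSetup c b) (h : y ∈ b.S1) (hy : b.bd y ≠ b.p) :
    RelS y (fun y => (c.u (b.bd y), c.v (b.bd y))) (fun y => T4 (c.u (b.bd y), b.sl y)) := by
  refine ⟨fun w => T4 (w.1, w.2 * w.1⁻¹), ?_, ?_⟩
  · refine T4.contDiff.contDiffAt.comp _ (contDiffAt_fst.prodMk ?_)
    exact contDiffAt_snd.mul (contDiffAt_fst.inv (une S h hy))
  · filter_upwards [S1_nhds h, ne_nhds hy] with y' h1 h2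
    have h3 := une S h1 h2
    show T4 (c.u (b.bd y'), b.sl y') = T4 (c.u (b.bd y'), c.v (b.bd y') * (c.u (b.bd y'))⁻¹)
    rw [eq1 S h1, mul_assoc, mul_inv_cancel₀ h3, mul_one]

theorem relS_1uv (S : BSetup c b) (h : y ∈ b.S1) :
    RelS y (fun y => T4 (c.u (b.bd y), b.sl y)) (fun y => (c.u (b.bd y), c.v (b.bd y))) := by
  refine ⟨fun w => ((T4.symm w).1, (T4.symm w).2 * (T4.symm w).1), ?_, ?_⟩
  · exact (sm_fst _).prodMk ((sm_snd _).mul (sm_fst _))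
  · filter_upwards [S1_nhds h] with y' h1
    show (c.u (b.bd y'), c.v (b.bd y')) = ((T4.symm (T4 (c.u (b.bd y'), b.sl y'))).1,
      (T4.symm (T4 (c.u (b.bd y'), b.sl y'))).2 * (T4.symm (T4 (c.u (b.bd y'), b.sl y'))).1)
    rw [ContinuousLinearEquiv.symm_apply_apply, eq1 S h1]

theorem relS_uv2 (S : BSetup c b) (h : y ∈ b.S2) (hy : b.bd y ≠ b.p) :
    RelS y (fun y => (c.u (b.bd y), c.v (b.bd y))) (fun y => T4 ((b.sl y)⁻¹, c.v (b.bd y))) := by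
  refine ⟨fun w => T4 (w.1 * w.2⁻¹, w.2), ?_, ?_⟩
  · refine T4.contDiff.contDiffAt.comp _ (ContDiffAt.prodMk ?_ contDiffAt_snd)
    exact contDiffAt_fst.mul (contDiffAt_snd.inv (vne S h hy))
  · filter_upwards [S2_nhds h, ne_nhds hy] with y' h1 h2
    have h3 := vne S h1 h2
    show T4 ((b.sl y')⁻¹, c.v (b.bd y')) = T4 (c.u (b.bd y') * (c.v (b.bd y'))⁻¹, c.v (b.bd y'))
    rw [eq2 S h1, mul_assoc, mul_inv_cancel₀ h3, mul_one]

theorem relS_2uv (S : BSetup c b) (h : y ∈ b.S2) :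
    RelS y (fun y => T4 ((b.sl y)⁻¹, c.v (b.bd y))) (fun y => (c.u (b.bd y), c.v (b.bd y))) := by
  refine ⟨fun w => ((T4.symm w).1 * (T4.symm w).2, (T4.symm w).2), ?_, ?_⟩
  · exact ((sm_fst _).mul (sm_snd _)).prodMk (sm_snd _)
  · filter_upwards [S2_nhds h] with y' h1
    show (c.u (b.bd y'), c.v (b.bd y')) = ((T4.symm (T4 ((b.sl y')⁻¹, c.v (b.bd y')))).1 *
      (T4.symm (T4 ((b.sl y')⁻¹, c.v (b.bd y')))).2, (T4.symm (T4 ((b.sl y')⁻¹, c.v (b.bd y')))).2)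
    rw [ContinuousLinearEquiv.symm_apply_apply, ← eq2 S h1]

theorem relS_12 (S : BSetup c b) (h1 : y ∈ b.S1) (h2 : y ∈ b.S2) :
    RelS y (fun y => T4 (c.u (b.bd y), b.sl y)) (fun y => T4 ((b.sl y)⁻¹, c.v (b.bd y))) := by
  refine ⟨fun w => T4 ((T4.symm w).2⁻¹, (T4.symm w).2 * (T4.symm w).1), ?_, ?_⟩
  · refine T4.contDiff.contDiffAt.comp _ (ContDiffAt.prodMk ?_ ((sm_snd _).mul (sm_fst _)))
    refine (sm_snd _).inv ?_
    rw [ContinuousLinearEquiv.symm_apply_apply]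
    exact b.sl_ne h1 h2
  · filter_upwards [S1_nhds h1] with y' h3
    show T4 ((b.sl y')⁻¹, c.v (b.bd y')) = T4 ((T4.symm (T4 (c.u (b.bd y'), b.sl y'))).2⁻¹,
      (T4.symm (T4 (c.u (b.bd y'), b.sl y'))).2 * (T4.symm (T4 (c.u (b.bd y'), b.sl y'))).1)
    rw [ContinuousLinearEquiv.symm_apply_apply, eq1 S h3]

theorem relS_21 (S : BSetup c b) (h1 : y ∈ b.S1) (h2 : y ∈ b.S2) :
    RelS y (fun y => T4 ((b.sl y)⁻¹, c.v (b.bd y))) (fun y => T4 (c.u (b.bd y), b.sl y)) := by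
  refine ⟨fun w => T4 ((T4.symm w).1 * (T4.symm w).2, (T4.symm w).1⁻¹), ?_, ?_⟩
  · refine T4.contDiff.contDiffAt.comp _ (((sm_fst _).mul (sm_snd _)).prodMk ?_)
    refine (sm_fst _).inv ?_
    rw [ContinuousLinearEquiv.symm_apply_apply]
    exact inv_ne_zero (b.sl_ne h1 h2)
  · filter_upwards [S2_nhds h2] with y' h3
    show T4 (c.u (b.bd y'), b.sl y') = T4 ((T4.symm (T4 ((b.sl y')⁻¹, c.v (b.bd y')))).1 *
      (T4.symm (T4 ((b.sl y')⁻¹, c.v (b.bd y')))).2,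
      (T4.symm (T4 ((b.sl y')⁻¹, c.v (b.bd y')))).1⁻¹)
    rw [ContinuousLinearEquiv.symm_apply_apply, ← eq2 S h3, inv_inv]

end

end Pool.Agent.BlowC
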