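import Pool.Agent.Lib.MP_1d980c_gt.Blow.BGDefs

/-! Existence of germs; germs are local homeomorphisms. -/

set_option autoImplicit false
open Topology Complex ComplexConjugate
open scoped Manifold ContDiff

namespace Pool.Agent.BlowC

variable {N : Type} [TopologicalSpace N] [ChartedSpace E4 N] [IsManifold (𝓡 4) ∞ N] [T2Space N]

section

variable {c : Mark N} {b : BData N} {y : b.BSet}

theorem gmR_ex (S : BSetup c b) (y : b.BSet) :
    ∃ f ∈ GmR c b y, ∀ᶠ y' in 𝓝 y, f ∈ GmR c b y' := by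
  by_cases hy : b.bd y = b.p
  · have hD : b.bd y ∈ b.D := by
      rw [hy]; exact b.p_mem_D
    rcases b.S12_cover hD with h | h
    · refine ⟨fun y => T4 (c.u (b.bd y), b.sl y), Or.inr (Or.inl ⟨h, rfl⟩), ?_⟩
      obtain ⟨f, hf, -⟩ := b.exists_chart1
      have hopen : IsOpen b.S1 := hf ▸ f.open_source
      filter_upwards [hopen.mem_nhds h] with y' hy'
      exact Or.inr (Or.inl ⟨hy', rfl⟩)
    · refine ⟨fun y => T4 ((b.sl y)⁻¹, c.v (b.bd y)), Or.inr (Or.inr ⟨h, rfl⟩), ?_⟩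
      obtain ⟨f, hf, -⟩ := b.exists_chart2
      have hopen : IsOpen b.S2 := hf ▸ f.open_source
      filter_upwards [hopen.mem_nhds h] with y' hy'
      exact Or.inr (Or.inr ⟨hy', rfl⟩)
  · have key : ∀ x ∈ (chartAt E4 (b.bd y)).source,
        ContMDiffAt (𝓡 4) 𝓘(ℝ, E4) ∞ (extChartAt (𝓡 4) (b.bd y)) x ∧
        Function.Bijective (mfderiv (𝓡 4) 𝓘(ℝ, E4) (extChartAt (𝓡 4) (b.bd y)) x) := by
      intro x hx
      refine ⟨contMDiffAt_extChartAt' hx, ?_⟩
      have h1 := isInvertible_mfderiv_extChartAt (I := 𝓡 4) (x := b.bd y) (y := x)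
        (by rw [extChartAt_source]; exact hx)
      obtain ⟨e, he⟩ := h1
      rw [← he]
      exact e.bijective
    have hmem : ∀ y' : b.BSet, b.bd y' ≠ b.p → b.bd y' ∈ (chartAt E4 (b.bd y)).source →
        (fun y' : b.BSet => extChartAt (𝓡 4) (b.bd y) (b.bd y')) ∈ GmR c b y' := by
      intro y' h1 h2
      exact Or.inl ⟨h1, extChartAt (𝓡 4) (b.bd y), (key _ h2).1, (key _ h2).2, rfl⟩
    refine ⟨fun y' : b.BSet => extChartAt (𝓡 4) (b.bd y) (b.bd y'),
      hmem y hy (mem_chart_source _ _), ?_⟩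
    have h1 : ∀ᶠ y' in 𝓝 y, b.bd y' ≠ b.p :=
      b.bd_continuous.continuousAt.eventually_ne hy
    have h2 : ∀ᶠ y' in 𝓝 y, b.bd y' ∈ (chartAt E4 (b.bd y)).source :=
      b.bd_continuous.continuousAt.eventually
        ((chartAt E4 (b.bd y)).open_source.mem_nhds (mem_chart_source _ _))
    filter_upwards [h1, h2] with y' k1 k2
    exact hmem y' k1 k2

theorem gmR_homeo (S : BSetup c b) (y : b.BSet) (g : b.BSet → E4) (hg : g ∈ GmR c b y) :
    ∃ e : OpenPartialHomeomorph b.BSet E4, y ∈ e.source ∧ ∀ y' ∈ e.source, e y' = g y' := by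
  rcases hg with ⟨hy, f, h1, h2, rfl⟩ | ⟨hy, rfl⟩ | ⟨hy, rfl⟩
  · obtain ⟨f0, hs0, -, hv0⟩ := b.exists_off
    obtain ⟨e1, he1, hv1, -⟩ := exists_local_inv_at h1 h2
    refine ⟨f0.trans e1, ?_, ?_⟩
    · rw [OpenPartialHomeomorph.trans_source]
      refine ⟨by rw [hs0]; exact hy, ?_⟩
      show f0 y ∈ e1.source
      rw [hv0]
      exact he1
    · intro y' hy'
      rw [OpenPartialHomeomorph.trans_source] at hy'
      have h3 : f0 y' ∈ e1.source := hy'.2
      rw [OpenPartialHomeomorph.coe_trans, Function.comp_apply, hv1 _ h3, hv0]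
  · obtain ⟨f1, hs1, hv1⟩ := b.exists_chart1
    refine ⟨f1.transHomeomorph T4.toHomeomorph, ?_, ?_⟩
    · show y ∈ f1.source
      rw [hs1]; exact hy
    · intro y' hy'
      have hy2 : y' ∈ b.S1 := by
        rw [← hs1]; exact hy'
      show T4 (f1 y') = T4 (c.u (b.bd y'), b.sl y')
      rw [hv1, S.he _ hy2.1.1]
  · obtain ⟨f1, hs1, hv1⟩ := b.exists_chart2
    refine ⟨f1.transHomeomorph T4.toHomeomorph, ?_, ?_⟩
    · show y ∈ f1.source
      rw [hs1]; exact hy
    · intro y' hy'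
      have hy2 : y' ∈ b.S2 := by
        rw [← hs1]; exact hy'
      show T4 (f1 y') = T4 ((b.sl y')⁻¹, c.v (b.bd y'))
      rw [hv1 _ hy2, S.he _ hy2.1.1]

end

end Pool.Agent.BlowC
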