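import Pool.Agent.Lib.MP_1d980c_gt.Blow.BGermA
import Pool.Agent.Lib.MP_1d980c_gt.Blow.BGermB
import Pool.Agent.Lib.MP_1d980c_gt.Blow.BGermC
import Pool.Agent.Lib.MP_1d980c_gt.Blow.BGermD

/-! The germs of charts of the blow-up (real version). -/

set_option autoImplicit false
open Topology Complex ComplexConjugate
open scoped Manifold ContDiff

namespace Pool.Agent.BlowC

variable {N : Type} [TopologicalSpace N] [ChartedSpace E4 N] [IsManifold (𝓡 4) ∞ N] [T2Space N]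

section

variable {c : Mark N} {b : BData N} {y : b.BSet}

theorem gmR_rel (S : BSetup c b) (y : b.BSet) (f : b.BSet → E4) (hf : f ∈ GmR c b y)
    (g : b.BSet → E4) (hg : g ∈ GmR c b y) : RelS y f g := by
  rcases hf with ⟨hy, f, h1, h2, rfl⟩ | ⟨hy, rfl⟩ | ⟨hy, rfl⟩ <;>
    rcases hg with ⟨hy', g, k1, k2, rfl⟩ | ⟨hy', rfl⟩ | ⟨hy', rfl⟩
  · exact relS_NN h1 h2 k1
  · exact (relS_Nuv S hy'.1 h1 h2).trans (relS_uv1 S hy' hy)
  · exact (relS_Nuv S hy'.1 h1 h2).trans (relS_uv2 S hy' hy)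
  · exact (relS_1uv S hy).trans (relS_uvN S hy.1 k1)
  · exact RelS.refl _ _
  · exact relS_12 S hy hy'
  · exact (relS_2uv S hy).trans (relS_uvN S hy.1 k1)
  · exact relS_21 S hy' hy
  · exact RelS.refl _ _

end

end Pool.Agent.BlowC
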