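import Pool.Agent.Lib.MP_1d980c_gt.Blow.BGDefs

/-! Existence of the local data. -/

set_option autoImplicit false
open Topology Complex ComplexConjugate
open scoped Manifold ContDiff

namespace Pool.Agent.BlowC

variable {N : Type} [TopologicalSpace N] [ChartedSpace E4 N] [IsManifold (𝓡 4) ∞ N] [T2Space N]

theorem exists_setup {c : Mark N} (hc : c.Coord) : ∃ b : BData N, BSetup c b := by
  obtain ⟨hu, hv, hC⟩ := hc
  obtain ⟨e, hx, he, hb, hs⟩ := exists_local_inv hC.1 hC.2
  have h0 : e c.pt = 0 := by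
    rw [he c.pt hx, hu, hv]
    rfl
  have ht : (0 : ℂ × ℂ) ∈ e.target := by
    rw [← h0]
    exact e.map_source hx
  obtain ⟨ε, hε, hball⟩ := Metric.isOpen_iff.1 e.open_target 0 ht
  refine ⟨⟨e, c.pt, (ε / 2) ^ 2, hx, h0, by positivity, ?_⟩, ?_⟩
  · intro w hw
    apply hball
    rw [mem_ball_zero_iff, Prod.norm_def, max_lt_iff]
    unfold q2 at hw
    have h1 : ‖w.1‖ ≤ ε / 2 := by
      apply abs_le_of_sq_le_sq' _ (by positivity) |>.2
      nlinarith [sq_nonneg ‖w.2‖]
    have h2 : ‖w.2‖ ≤ ε / 2 := by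
      apply abs_le_of_sq_le_sq' _ (by positivity) |>.2
      nlinarith [sq_nonneg ‖w.1‖]
    constructor <;> linarith
  · refine ⟨rfl, he, ?_, hs⟩
    intro x hx
    refine ⟨?_, (hb x hx).2⟩
    filter_upwards [e.open_source.mem_nhds hx] with y hy
    exact (hb y hy).1

end Pool.Agent.BlowC
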