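import Pool.Agent.Lib.MP_1d980c_gt.Blow.BSpaceD

/-! The chart of finite slopes. -/

set_option autoImplicit false
open Topology Complex ComplexConjugate
open scoped Manifold ContDiff

namespace Pool.Agent.BlowC

namespace BData

variable {N : Type} [TopologicalSpace N] (b : BData N)

/-- the chart of finite slopes. -/
theorem exists_chart1 [T2Space N] : ∃ f : OpenPartialHomeomorph b.BSet (ℂ × ℂ),
    f.source = b.S1 ∧ ∀ y, f y = ((b.e (b.bd y)).1, b.sl y) := by
  classical
  have hmem0 : ((b.p, 0, 0) : N × ℝ × ℂ) ∈ b.BSet := by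
    right
    exact ⟨rfl, by simp⟩
  let T : Set (ℂ × ℂ) := {w | q2 (w.1, w.1 * w.2) < b.r}
  let X : ℂ × ℂ → N := fun w => b.e.symm (w.1, w.1 * w.2)
  let A : ℂ × ℂ → ℝ := fun w => (1 - q2 (w.1, w.1 * w.2) / b.r) / (1 + ‖w.2‖ ^ 2)
  have hT : IsOpen T := isOpen_lt (q2_continuous'.comp (by fun_prop)) continuous_const
  have htgt : ∀ w ∈ T, (w.1, w.1 * w.2) ∈ b.e.target := fun w hw => b.ball _ (le_of_lt hw)
  have hsrc : ∀ w ∈ T, X w ∈ b.e.source := fun w hw => b.e.map_target (htgt w hw)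
  have heX : ∀ w ∈ T, b.e (X w) = (w.1, w.1 * w.2) := fun w hw => b.e.right_inv (htgt w hw)
  have hD : ∀ w ∈ T, X w ∈ b.D := by
    intro w hw
    refine ⟨hsrc w hw, ?_⟩
    rw [heX w hw]
    exact hw
  have hchi : ∀ w ∈ T, b.chi (X w) = 1 - q2 (w.1, w.1 * w.2) / b.r := by
    intro w hw
    rw [b.chi_mem (hD w hw), heX w hw]
  have hpos : ∀ w : ℂ × ℂ, 0 < 1 + ‖w.2‖ ^ 2 := fun w => by positivity
  have hXp : ∀ w ∈ T, w.1 = 0 → X w = b.p := by
    intro w hw h0
    have h1 : (w.1, w.1 * w.2) = b.e b.p := by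
      rw [b.ep, h0, zero_mul]
      rfl
    change b.e.symm (w.1, w.1 * w.2) = b.p
    rw [h1, b.e.left_inv b.hp]
  have hXne : ∀ w ∈ T, w.1 ≠ 0 → X w ≠ b.p := by
    intro w hw h0 h1
    have := heX w hw
    rw [h1, b.ep] at this
    exact h0 (congrArg Prod.fst this).symm
  have hmem : ∀ w ∈ T, ((X w, A w, (A w : ℂ) * w.2) : N × ℝ × ℂ) ∈ b.BSet := by
    intro w hw
    have hp := hpos w
    by_cases h0 : w.1 = 0
    · right
      refine ⟨hXp w hw h0, ?_⟩
      have hA : A w = 1 / (1 + ‖w.2‖ ^ 2) := by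
        change (1 - q2 (w.1, w.1 * w.2) / b.r) / (1 + ‖w.2‖ ^ 2) = _
        rw [h0, zero_mul]
        have : q2 ((0 : ℂ), (0 : ℂ)) = 0 := q2_zero'
        rw [this]
        simp
      change ‖(A w : ℂ) * w.2‖ ^ 2 = A w * (1 - A w)
      rw [norm_mul, Complex.norm_real, mul_pow, Real.norm_eq_abs, sq_abs, hA]
      field_simp
      ring
    · left
      refine ⟨hXne w hw h0, ?_, ?_⟩
      · change A w = b.al (X w)
        unfold al
        rw [hchi w hw, heX w hw]
        change (1 - q2 (w.1, w.1 * w.2) / b.r) / (1 + ‖w.2‖ ^ 2) =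
          (1 - q2 (w.1, w.1 * w.2) / b.r) * ‖w.1‖ ^ 2 / (‖w.1‖ ^ 2 + ‖w.1 * w.2‖ ^ 2)
        rw [norm_mul]
        have hn : ‖w.1‖ ≠ 0 := norm_ne_zero_iff.2 h0
        generalize 1 - q2 (w.1, w.1 * w.2) / b.r = χ
        have hden : ‖w.1‖ ^ 2 + (‖w.1‖ * ‖w.2‖) ^ 2 = ‖w.1‖ ^ 2 * (1 + ‖w.2‖ ^ 2) := by ring
        rw [hden]
        field_simp
      · change (A w : ℂ) * w.2 = b.ka (X w)
        unfold ka
        rw [hchi w hw, heX w hw]
        change (((1 - q2 (w.1, w.1 * w.2) / b.r) / (1 + ‖w.2‖ ^ 2) : ℝ) : ℂ) * w.2 =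
          ((1 - q2 (w.1, w.1 * w.2) / b.r : ℝ) : ℂ) * (conj w.1 * (w.1 * w.2)) /
            ((‖w.1‖ ^ 2 + ‖w.1 * w.2‖ ^ 2 : ℝ) : ℂ)
        rw [norm_mul]
        generalize 1 - q2 (w.1, w.1 * w.2) / b.r = χ
        have hden : ‖w.1‖ ^ 2 + (‖w.1‖ * ‖w.2‖) ^ 2 = ‖w.1‖ ^ 2 * (1 + ‖w.2‖ ^ 2) := by ring
        rw [hden]
        have hn : ((‖w.1‖ : ℂ)) ^ 2 = w.1 * conj w.1 := (Complex.mul_conj' _).symm
        have hcu : conj w.1 ≠ 0 := by simpa using h0
        have hpc : (1 + (‖w.2‖ : ℂ) ^ 2) ≠ 0 := by exact_mod_cast hp.ne'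
        push_cast
        rw [hn]
        field_simp
  let g : ℂ × ℂ → b.BSet := fun w => if hw : w ∈ T then ⟨_, hmem w hw⟩ else ⟨_, hmem0⟩
  have hg : ∀ w ∈ T, (g w).1 = (X w, A w, (A w : ℂ) * w.2) := by
    intro w hw
    simp only [g, dif_pos hw]
  have hA0 : ∀ w ∈ T, A w ≠ 0 := by
    intro w hw
    have h1 : 0 < b.chi (X w) := (b.chi_pos_iff _).2 (hD w hw)
    rw [hchi w hw] at h1
    have := hpos w
    change (1 - q2 (w.1, w.1 * w.2) / b.r) / (1 + ‖w.2‖ ^ 2) ≠ 0
    positivity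
  -- the map goes into `T`
  have hmap : ∀ y ∈ b.S1, ((b.e (b.bd y)).1, b.sl y) ∈ T := by
    intro y hy
    have h := b.sl_mul hy
    change q2 ((b.e (b.bd y)).1, (b.e (b.bd y)).1 * b.sl y) < b.r
    rw [mul_comm, ← h]
    exact hy.1.2
  have hopen : IsOpen b.S1 := by
    have : b.S1 = b.bd ⁻¹' b.D ∩ {y | y.1.2.1 ≠ 0} := rfl
    rw [this]
    apply (b.D_open.preimage b.bd_continuous).inter
    apply isOpen_ne_fun
    · exact continuous_fst.comp (continuous_snd.comp continuous_subtype_val)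
    · exact continuous_const
  refine ⟨{
    toFun := fun y => ((b.e (b.bd y)).1, b.sl y)
    invFun := g
    source := b.S1
    target := T
    map_source' := hmap
    map_target' := ?_
    left_inv' := ?_
    right_inv' := ?_
    open_source := hopen
    open_target := hT
    continuousOn_toFun := ?_
    continuousOn_invFun := ?_ }, rfl, fun y => rfl⟩
  · intro w hw
    refine ⟨?_, ?_⟩
    · change (g w).1.1 ∈ b.D
      rw [hg w hw]
      exact hD w hw
    · rw [hg w hw]
      exact hA0 w hw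
  · intro y hy
    have hyT := hmap y hy
    apply Subtype.ext
    rw [hg _ hyT]
    have h := b.sl_mul hy
    have hα : (y.1.2.1 : ℂ) ≠ 0 := by exact_mod_cast hy.2
    have hX : X ((b.e (b.bd y)).1, b.sl y) = y.1.1 := by
      change b.e.symm ((b.e (b.bd y)).1, (b.e (b.bd y)).1 * b.sl y) = y.1.1
      rw [mul_comm, ← h]
      exact b.e.left_inv hy.1.1
    have hA : A ((b.e (b.bd y)).1, b.sl y) = y.1.2.1 := by
      change (1 - q2 ((b.e (b.bd y)).1, (b.e (b.bd y)).1 * b.sl y) / b.r) / (1 + ‖b.sl y‖ ^ 2) = _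
      rw [mul_comm, ← h]
      have hc := b.chi_mem hy.1
      change b.chi (b.bd y) = 1 - q2 ((b.e (b.bd y)).1, (b.e (b.bd y)).2) / b.r at hc
      rw [← hc]
      have hk := b.kap y.2
      change ‖y.1.2.2‖ ^ 2 = y.1.2.1 * (b.chi (b.bd y) - y.1.2.1) at hk
      unfold sl
      rw [norm_div, Complex.norm_real, div_pow, hk, Real.norm_eq_abs, sq_abs]
      have hα' := hy.2
      have hc0 : b.chi (b.bd y) ≠ 0 := ((b.chi_pos_iff _).2 hy.1).ne'
      have : 1 + y.1.2.1 * (b.chi (b.bd y) - y.1.2.1) / y.1.2.1 ^ 2 =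
          b.chi (b.bd y) / y.1.2.1 := by
        field_simp
        ring
      rw [this]
      field_simp
    rw [hX, hA]
    have : (y.1.2.1 : ℂ) * b.sl y = y.1.2.2 := by
      unfold sl
      field_simp
    change (y.1.1, y.1.2.1, (y.1.2.1 : ℂ) * b.sl y) = y.1
    rw [this]
  · intro w hw
    have hA : ((A w : ℝ) : ℂ) ≠ 0 := by exact_mod_cast hA0 w hw
    change ((b.e (g w).1.1).1, (g w).1.2.2 / ((g w).1.2.1 : ℂ)) = w
    rw [hg w hw, heX w hw]
    change (w.1, (A w : ℂ) * w.2 / (A w : ℂ)) = w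
    rw [mul_div_cancel_left₀ _ hA]
  · apply ContinuousOn.prodMk
    · apply continuous_fst.comp_continuousOn
      apply b.e.continuousOn.comp b.bd_continuous.continuousOn
      intro y hy
      exact hy.1.1
    · change ContinuousOn (fun y : b.BSet => y.1.2.2 / (y.1.2.1 : ℂ)) b.S1
      apply ContinuousOn.div
      · exact (continuous_snd.comp (continuous_snd.comp continuous_subtype_val)).continuousOn
      · exact (Complex.continuous_ofReal.comp
          (continuous_fst.comp (continuous_snd.comp continuous_subtype_val))).continuousOn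
      · intro y hy
        exact_mod_cast hy.2
  · rw [Topology.IsInducing.subtypeVal.continuousOn_iff]
    have hX : ContinuousOn X T := by
      apply b.e.continuousOn_symm.comp
      · fun_prop
      · exact htgt
    have hA : Continuous A := by
      change Continuous (fun w : ℂ × ℂ => (1 - q2 (w.1, w.1 * w.2) / b.r) / (1 + ‖w.2‖ ^ 2))
      apply Continuous.div
      · apply continuous_const.sub
        apply Continuous.div_const
        exact q2_continuous'.comp (by fun_prop)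
      · fun_prop
      · intro w
        exact (hpos w).ne'
    have h : ContinuousOn (fun w : ℂ × ℂ => ((X w, A w, (A w : ℂ) * w.2) : N × ℝ × ℂ)) T := by
      apply hX.prodMk
      apply hA.continuousOn.prodMk
      exact ((Complex.continuous_ofReal.comp hA).mul continuous_snd).continuousOn
    exact h.congr (fun w hw => hg w hw)

end BData

end Pool.Agent.BlowC
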