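import Pool.Agent.Lib.MP_1d980c_gt.Blow.BSpaceD

/-! The chart of nonzero slopes. -/

set_option autoImplicit false
open Topology Complex ComplexConjugate
open scoped Manifold ContDiff

namespace Pool.Agent.BlowC

namespace BData

variable {N : Type} [TopologicalSpace N] (b : BData N)

/-- on `S2` the inverse slope is `conj κ / (χ - α)`. -/
private theorem inv_sl {y : b.BSet} (h : y ∈ b.S2) :
    (b.sl y)⁻¹ = conj y.1.2.2 / ((b.chi (b.bd y) - y.1.2.1 : ℝ) : ℂ) := by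
  have hk := b.kap y.2
  change ‖y.1.2.2‖ ^ 2 = y.1.2.1 * (b.chi (b.bd y) - y.1.2.1) at hk
  have h0 : b.chi (b.bd y) - y.1.2.1 ≠ 0 := h.2
  unfold sl
  by_cases hκ : y.1.2.2 = 0
  · rw [hκ]
    simp
  · have h0c : ((b.chi (b.bd y) - y.1.2.1 : ℝ) : ℂ) ≠ 0 := by exact_mod_cast h0
    have hn : ((‖y.1.2.2‖ : ℂ)) ^ 2 = y.1.2.2 * conj y.1.2.2 := (Complex.mul_conj' _).symm
    have hkc : ((‖y.1.2.2‖ : ℂ)) ^ 2 = (y.1.2.1 : ℂ) * ((b.chi (b.bd y) - y.1.2.1 : ℝ) : ℂ) := by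
      exact_mod_cast hk
    rw [hn] at hkc
    rw [inv_div, div_eq_div_iff hκ h0c, ← hkc]
    ring

/-- the chart of nonzero slopes. -/
theorem exists_chart2 [T2Space N] : ∃ f : OpenPartialHomeomorph b.BSet (ℂ × ℂ),
    f.source = b.S2 ∧ ∀ y ∈ b.S2, f y = ((b.sl y)⁻¹, (b.e (b.bd y)).2) := by
  classical
  have hmem0 : ((b.p, 0, 0) : N × ℝ × ℂ) ∈ b.BSet := by
    right
    exact ⟨rfl, by simp⟩
  let T : Set (ℂ × ℂ) := {w | q2 (w.1 * w.2, w.2) < b.r}
  let X : ℂ × ℂ → N := fun w => b.e.symm (w.1 * w.2, w.2)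
  let B : ℂ × ℂ → ℝ := fun w => (1 - q2 (w.1 * w.2, w.2) / b.r) / (1 + ‖w.1‖ ^ 2)
  have hT : IsOpen T := isOpen_lt (q2_continuous'.comp (by fun_prop)) continuous_const
  have htgt : ∀ w ∈ T, (w.1 * w.2, w.2) ∈ b.e.target := fun w hw => b.ball _ (le_of_lt hw)
  have hsrc : ∀ w ∈ T, X w ∈ b.e.source := fun w hw => b.e.map_target (htgt w hw)
  have heX : ∀ w ∈ T, b.e (X w) = (w.1 * w.2, w.2) := fun w hw => b.e.right_inv (htgt w hw)
  have hD : ∀ w ∈ T, X w ∈ b.D := by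
    intro w hw
    refine ⟨hsrc w hw, ?_⟩
    rw [heX w hw]
    exact hw
  have hchi : ∀ w ∈ T, b.chi (X w) = 1 - q2 (w.1 * w.2, w.2) / b.r := by
    intro w hw
    rw [b.chi_mem (hD w hw), heX w hw]
  have hpos : ∀ w : ℂ × ℂ, 0 < 1 + ‖w.1‖ ^ 2 := fun w => by positivity
  have hXp : ∀ w ∈ T, w.2 = 0 → X w = b.p := by
    intro w hw h0
    have h1 : (w.1 * w.2, w.2) = b.e b.p := by
      rw [b.ep, h0, mul_zero]
      rfl
    change b.e.symm (w.1 * w.2, w.2) = b.p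
    rw [h1, b.e.left_inv b.hp]
  have hXne : ∀ w ∈ T, w.2 ≠ 0 → X w ≠ b.p := by
    intro w hw h0 h1
    have := heX w hw
    rw [h1, b.ep] at this
    exact h0 (congrArg Prod.snd this).symm
  have hmem : ∀ w ∈ T, ((X w, B w * ‖w.1‖ ^ 2, (B w : ℂ) * conj w.1) : N × ℝ × ℂ) ∈ b.BSet := by
    intro w hw
    have hp := hpos w
    by_cases h0 : w.2 = 0
    · right
      refine ⟨hXp w hw h0, ?_⟩
      have hB : B w = 1 / (1 + ‖w.1‖ ^ 2) := by
        change (1 - q2 (w.1 * w.2, w.2) / b.r) / (1 + ‖w.1‖ ^ 2) = _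
        rw [h0, mul_zero]
        have : q2 ((0 : ℂ), (0 : ℂ)) = 0 := q2_zero'
        rw [this]
        simp
      change ‖(B w : ℂ) * conj w.1‖ ^ 2 = B w * ‖w.1‖ ^ 2 * (1 - B w * ‖w.1‖ ^ 2)
      rw [norm_mul, RCLike.norm_conj, Complex.norm_real, mul_pow, Real.norm_eq_abs, sq_abs, hB]
      field_simp
      ring
    · left
      refine ⟨hXne w hw h0, ?_, ?_⟩
      · change B w * ‖w.1‖ ^ 2 = b.al (X w)
        unfold al
        rw [hchi w hw, heX w hw]
        change (1 - q2 (w.1 * w.2, w.2) / b.r) / (1 + ‖w.1‖ ^ 2) * ‖w.1‖ ^ 2 =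
          (1 - q2 (w.1 * w.2, w.2) / b.r) * ‖w.1 * w.2‖ ^ 2 / (‖w.1 * w.2‖ ^ 2 + ‖w.2‖ ^ 2)
        rw [norm_mul]
        have hn : ‖w.2‖ ≠ 0 := norm_ne_zero_iff.2 h0
        generalize 1 - q2 (w.1 * w.2, w.2) / b.r = χ
        have hden : (‖w.1‖ * ‖w.2‖) ^ 2 + ‖w.2‖ ^ 2 = ‖w.2‖ ^ 2 * (1 + ‖w.1‖ ^ 2) := by ring
        rw [hden]
        field_simp
      · change (B w : ℂ) * conj w.1 = b.ka (X w)
        unfold ka
        rw [hchi w hw, heX w hw]
        change (((1 - q2 (w.1 * w.2, w.2) / b.r) / (1 + ‖w.1‖ ^ 2) : ℝ) : ℂ) * conj w.1 =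
          ((1 - q2 (w.1 * w.2, w.2) / b.r : ℝ) : ℂ) * (conj (w.1 * w.2) * w.2) /
            ((‖w.1 * w.2‖ ^ 2 + ‖w.2‖ ^ 2 : ℝ) : ℂ)
        rw [norm_mul, map_mul]
        generalize 1 - q2 (w.1 * w.2, w.2) / b.r = χ
        have hden : (‖w.1‖ * ‖w.2‖) ^ 2 + ‖w.2‖ ^ 2 = ‖w.2‖ ^ 2 * (1 + ‖w.1‖ ^ 2) := by ring
        rw [hden]
        have hn : ((‖w.2‖ : ℂ)) ^ 2 = w.2 * conj w.2 := (Complex.mul_conj' _).symm
        have hcu : conj w.2 ≠ 0 := by simpa using h0
        have hpc : (1 + (‖w.1‖ : ℂ) ^ 2) ≠ 0 := by exact_mod_cast hp.ne'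
        push_cast
        rw [hn]
        field_simp
  let g : ℂ × ℂ → b.BSet := fun w => if hw : w ∈ T then ⟨_, hmem w hw⟩ else ⟨_, hmem0⟩
  have hg : ∀ w ∈ T, (g w).1 = (X w, B w * ‖w.1‖ ^ 2, (B w : ℂ) * conj w.1) := by
    intro w hw
    simp only [g, dif_pos hw]
  have hBchi : ∀ w ∈ T, b.chi (X w) = B w * (1 + ‖w.1‖ ^ 2) := by
    intro w hw
    have hp := hpos w
    rw [hchi w hw]
    change _ = (1 - q2 (w.1 * w.2, w.2) / b.r) / (1 + ‖w.1‖ ^ 2) * (1 + ‖w.1‖ ^ 2)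
    rw [div_mul_cancel₀ _ hp.ne']
  have hB0 : ∀ w ∈ T, B w ≠ 0 := by
    intro w hw h
    have h1 : 0 < b.chi (X w) := (b.chi_pos_iff _).2 (hD w hw)
    rw [hBchi w hw, h, zero_mul] at h1
    exact lt_irrefl _ h1
  have hgS : ∀ w ∈ T, g w ∈ b.S2 := by
    intro w hw
    refine ⟨?_, ?_⟩
    · change (g w).1.1 ∈ b.D
      rw [hg w hw]
      exact hD w hw
    · change b.chi (g w).1.1 - (g w).1.2.1 ≠ 0
      rw [hg w hw]
      change b.chi (X w) - B w * ‖w.1‖ ^ 2 ≠ 0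
      rw [hBchi w hw]
      have := hB0 w hw
      have h2 : B w * (1 + ‖w.1‖ ^ 2) - B w * ‖w.1‖ ^ 2 = B w := by ring
      rw [h2]
      exact this
  let F : b.BSet → ℂ × ℂ := fun y =>
    (conj y.1.2.2 / ((b.chi (b.bd y) - y.1.2.1 : ℝ) : ℂ), (b.e (b.bd y)).2)
  have hF : ∀ y ∈ b.S2, F y = ((b.sl y)⁻¹, (b.e (b.bd y)).2) := by
    intro y hy
    change (_, _) = _
    rw [b.inv_sl hy]
  have hmap : ∀ y ∈ b.S2, F y ∈ T := by
    intro y hy
    have h := b.sl_inv_mul hy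
    rw [hF y hy]
    change q2 ((b.sl y)⁻¹ * (b.e (b.bd y)).2, (b.e (b.bd y)).2) < b.r
    rw [← h]
    exact hy.1.2
  have hopen : IsOpen b.S2 := by
    have : b.S2 = b.bd ⁻¹' b.D ∩ {y | b.chi (b.bd y) - y.1.2.1 ≠ 0} := rfl
    rw [this]
    apply (b.D_open.preimage b.bd_continuous).inter
    apply isOpen_ne_fun
    · exact (b.chi_continuous.comp b.bd_continuous).sub
        (continuous_fst.comp (continuous_snd.comp continuous_subtype_val))
    · exact continuous_const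
  refine ⟨{
    toFun := F
    invFun := g
    source := b.S2
    target := T
    map_source' := hmap
    map_target' := hgS
    left_inv' := ?_
    right_inv' := ?_
    open_source := hopen
    open_target := hT
    continuousOn_toFun := ?_
    continuousOn_invFun := ?_ }, rfl, hF⟩
  · intro y hy
    have hyT := hmap y hy
    apply Subtype.ext
    rw [hg _ hyT]
    have h := b.sl_inv_mul hy
    have hk := b.kap y.2
    change ‖y.1.2.2‖ ^ 2 = y.1.2.1 * (b.chi (b.bd y) - y.1.2.1) at hk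
    have h0 : b.chi (b.bd y) - y.1.2.1 ≠ 0 := hy.2
    have h0c : ((b.chi (b.bd y) - y.1.2.1 : ℝ) : ℂ) ≠ 0 := by exact_mod_cast h0
    have hc0 : b.chi (b.bd y) ≠ 0 := ((b.chi_pos_iff _).2 hy.1).ne'
    have hX : X (F y) = y.1.1 := by
      rw [hF y hy]
      change b.e.symm ((b.sl y)⁻¹ * (b.e (b.bd y)).2, (b.e (b.bd y)).2) = y.1.1
      rw [← h]
      exact b.e.left_inv hy.1.1
    have hn1 : ‖(F y).1‖ ^ 2 = y.1.2.1 / (b.chi (b.bd y) - y.1.2.1) := by
      change ‖conj y.1.2.2 / ((b.chi (b.bd y) - y.1.2.1 : ℝ) : ℂ)‖ ^ 2 = _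
      rw [norm_div, RCLike.norm_conj, Complex.norm_real, div_pow, hk, Real.norm_eq_abs, sq_abs]
      field_simp
    have hB : B (F y) = b.chi (b.bd y) - y.1.2.1 := by
      have h1 := hBchi (F y) hyT
      rw [hX, hn1] at h1
      change b.chi (b.bd y) = B (F y) * (1 + y.1.2.1 / (b.chi (b.bd y) - y.1.2.1)) at h1
      have h2 : 1 + y.1.2.1 / (b.chi (b.bd y) - y.1.2.1) =
          b.chi (b.bd y) / (b.chi (b.bd y) - y.1.2.1) := by
        field_simp
        ring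
      rw [h2] at h1
      field_simp at h1
      linarith
    rw [hX, hB, hn1]
    change (y.1.1, (b.chi (b.bd y) - y.1.2.1) * (y.1.2.1 / (b.chi (b.bd y) - y.1.2.1)),
      ((b.chi (b.bd y) - y.1.2.1 : ℝ) : ℂ) *
        conj (conj y.1.2.2 / ((b.chi (b.bd y) - y.1.2.1 : ℝ) : ℂ))) = y.1
    rw [mul_div_cancel₀ _ h0, map_div₀, Complex.conj_conj, Complex.conj_ofReal,
      mul_div_cancel₀ _ h0c]
  · intro w hw
    have hB := hB0 w hw
    have hBc : ((B w : ℝ) : ℂ) ≠ 0 := by exact_mod_cast hB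
    change (conj (g w).1.2.2 / ((b.chi (g w).1.1 - (g w).1.2.1 : ℝ) : ℂ), (b.e (g w).1.1).2) = w
    rw [hg w hw, heX w hw]
    change (conj ((B w : ℂ) * conj w.1) / ((b.chi (X w) - B w * ‖w.1‖ ^ 2 : ℝ) : ℂ), w.2) = w
    have h2 : b.chi (X w) - B w * ‖w.1‖ ^ 2 = B w := by
      rw [hBchi w hw]
      ring
    rw [h2, map_mul, Complex.conj_conj, Complex.conj_ofReal, mul_div_cancel_left₀ _ hBc]
  · apply ContinuousOn.prodMk
    · apply ContinuousOn.div
      · exact (Complex.continuous_conj.comp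
          (continuous_snd.comp (continuous_snd.comp continuous_subtype_val))).continuousOn
      · exact (Complex.continuous_ofReal.comp ((b.chi_continuous.comp b.bd_continuous).sub
          (continuous_fst.comp (continuous_snd.comp continuous_subtype_val)))).continuousOn
      · intro y hy
        have : b.chi (b.bd y) - y.1.2.1 ≠ 0 := hy.2
        exact_mod_cast this
    · apply continuous_snd.comp_continuousOn
      apply b.e.continuousOn.comp b.bd_continuous.continuousOn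
      intro y hy
      exact hy.1.1
  · rw [Topology.IsInducing.subtypeVal.continuousOn_iff]
    have hX : ContinuousOn X T := by
      apply b.e.continuousOn_symm.comp
      · fun_prop
      · exact htgt
    have hB : Continuous B := by
      change Continuous (fun w : ℂ × ℂ => (1 - q2 (w.1 * w.2, w.2) / b.r) / (1 + ‖w.1‖ ^ 2))
      apply Continuous.div
      · apply continuous_const.sub
        apply Continuous.div_const
        exact q2_continuous'.comp (by fun_prop)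
      · fun_prop
      · intro w
        exact (hpos w).ne'
    have h : ContinuousOn (fun w : ℂ × ℂ =>
        ((X w, B w * ‖w.1‖ ^ 2, (B w : ℂ) * conj w.1) : N × ℝ × ℂ)) T := by
      apply hX.prodMk
      apply ContinuousOn.prodMk
      · exact (hB.mul (by fun_prop)).continuousOn
      · exact ((Complex.continuous_ofReal.comp hB).mul
          (Complex.continuous_conj.comp continuous_fst)).continuousOn
    exact h.congr (fun w hw => hg w hw)

end BData

end Pool.Agent.BlowC
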