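import Pool.Agent.Lib.MP_1d980c_gt.Blow.BDefs

/-! The cutoff function and the functions `al`, `ka`. -/

set_option autoImplicit false
open Topology Complex ComplexConjugate
open scoped Manifold ContDiff

namespace Pool.Agent.BlowC

private theorem q2_cont : Continuous q2 := by
  unfold q2
  fun_prop

private theorem q2_zero : q2 0 = 0 := by
  simp [q2]

private theorem q2_compact (r : ℝ) : IsCompact {w : ℂ × ℂ | q2 w ≤ r} := by
  refine Metric.isCompact_of_isClosed_isBounded (isClosed_le q2_cont continuous_const) ?_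
  refine Bornology.IsBounded.subset (Metric.isBounded_closedBall (x := (0 : ℂ × ℂ))
    (r := Real.sqrt r)) ?_
  intro w hw
  have hw' : ‖w.1‖ ^ 2 + ‖w.2‖ ^ 2 ≤ r := hw
  rw [mem_closedBall_zero_iff, Prod.norm_def]
  refine max_le ?_ ?_
  · refine Real.le_sqrt_of_sq_le ?_
    nlinarith [sq_nonneg ‖w.2‖]
  · refine Real.le_sqrt_of_sq_le ?_
    nlinarith [sq_nonneg ‖w.1‖]

private theorem q2_pos_of {w : ℂ × ℂ} (h : w ≠ 0) : 0 < q2 w := by
  unfold q2
  rcases lt_or_eq_of_le (add_nonneg (sq_nonneg ‖w.1‖) (sq_nonneg ‖w.2‖)) with h1 | h1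
  · exact h1
  · exfalso
    have h2 : ‖w.1‖ ^ 2 = 0 := by nlinarith [sq_nonneg ‖w.1‖, sq_nonneg ‖w.2‖]
    have h3 : ‖w.2‖ ^ 2 = 0 := by nlinarith [sq_nonneg ‖w.1‖, sq_nonneg ‖w.2‖]
    apply h
    have h4 : w.1 = 0 := by simpa using h2
    have h5 : w.2 = 0 := by simpa using h3
    exact Prod.ext h4 h5

namespace BData

variable {N : Type} [TopologicalSpace N] (b : BData N)

theorem p_mem_D : b.p ∈ b.D := by
  refine ⟨b.hp, ?_⟩
  rw [b.ep, q2_zero]
  exact b.hr

theorem chi_p : b.chi b.p = 1 := by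
  unfold chi
  rw [if_pos b.p_mem_D, b.ep, q2_zero]
  simp

theorem chi_nonneg (x : N) : 0 ≤ b.chi x := by
  unfold chi
  split_ifs with h
  · have h1 : q2 (b.e x) / b.r < 1 := by
      rw [div_lt_one b.hr]
      exact h.2
    linarith
  · exact le_rfl

theorem chi_pos_iff (x : N) : 0 < b.chi x ↔ x ∈ b.D := by
  unfold chi
  split_ifs with h
  · have h1 : q2 (b.e x) / b.r < 1 := by
      rw [div_lt_one b.hr]
      exact h.2
    exact ⟨fun _ => h, fun _ => by linarith⟩
  · exact ⟨fun h1 => absurd h1 (lt_irrefl _), fun h1 => absurd h1 h⟩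

theorem D_open : IsOpen b.D := by
  have h : b.D = b.e.source ∩ b.e ⁻¹' {w | q2 w < b.r} := rfl
  rw [h]
  exact b.e.isOpen_inter_preimage (isOpen_lt q2_cont continuous_const)

private theorem e_ne {x : N} (h : x ∈ b.e.source) (hx : x ≠ b.p) : b.e x ≠ 0 := by
  intro h0
  exact hx (b.e.injOn h b.hp (by rw [h0, b.ep]))

theorem q2_pos {x : N} (h : x ∈ b.D) (hx : x ≠ b.p) : 0 < q2 (b.e x) :=
  q2_pos_of (b.e_ne h.1 hx)

private theorem ev_not_D [T2Space N] {x : N} (hx : x ∉ b.e.source) : ∀ᶠ y in 𝓝 x, y ∉ b.D := by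
  have hK : IsCompact (b.e.symm '' {w | q2 w ≤ b.r}) :=
    (q2_compact b.r).image_of_continuousOn
      (b.e.symm.continuousOn.mono (fun w hw => b.ball w hw))
  have hxK : x ∉ b.e.symm '' {w | q2 w ≤ b.r} := by
    rintro ⟨w, hw, rfl⟩
    exact hx (b.e.map_target (b.ball w hw))
  filter_upwards [hK.isClosed.isOpen_compl.mem_nhds hxK] with y hy hyD
  exact hy ⟨b.e y, le_of_lt hyD.2, b.e.left_inv hyD.1⟩

private theorem chi_eq {x : N} (h : x ∈ b.e.source) :
    b.chi x = max 0 (1 - q2 (b.e x) / b.r) := by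
  unfold chi
  split_ifs with hD
  · have h1 : q2 (b.e x) / b.r < 1 := by
      rw [div_lt_one b.hr]
      exact hD.2
    rw [max_eq_right (by linarith)]
  · have h2 : b.r ≤ q2 (b.e x) := by
      by_contra hc
      exact hD ⟨h, not_le.mp hc⟩
    have h1 : 1 ≤ q2 (b.e x) / b.r := by
      rw [one_le_div b.hr]
      exact h2
    rw [max_eq_left (by linarith)]

private theorem e_cont {x : N} (h : x ∈ b.e.source) : ContinuousAt b.e x :=
  b.e.continuousAt h

theorem chi_continuous [T2Space N] : Continuous b.chi := by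
  rw [continuous_iff_continuousAt]
  intro x
  by_cases hx : x ∈ b.e.source
  · have h1 : ContinuousAt (fun y => max 0 (1 - q2 (b.e y) / b.r)) x := by
      have h2 : ContinuousAt (fun y => q2 (b.e y)) x :=
        q2_cont.continuousAt.comp (b.e_cont hx)
      exact continuousAt_const.max (continuousAt_const.sub (h2.div_const _))
    refine h1.congr ?_
    filter_upwards [b.e.open_source.mem_nhds hx] with y hy
    exact (b.chi_eq hy).symm
  · have h1 : ContinuousAt (fun _ : N => (0 : ℝ)) x := continuousAt_const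
    refine h1.congr ?_
    filter_upwards [b.ev_not_D hx] with y hy
    unfold chi
    rw [if_neg hy]

theorem al_continuousOn [T2Space N] : ContinuousOn b.al {x | x ≠ b.p} := by
  intro x hxp
  refine ContinuousAt.continuousWithinAt ?_
  by_cases hx : x ∈ b.e.source
  · have h2 : ContinuousAt (fun y => q2 (b.e y)) x :=
      q2_cont.continuousAt.comp (b.e_cont hx)
    have h3 : ContinuousAt (fun y => ‖(b.e y).1‖ ^ 2) x :=
      ((continuous_fst.norm.pow 2).continuousAt).comp (b.e_cont hx)
    have h4 := q2_pos_of (b.e_ne hx hxp)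
    exact (b.chi_continuous.continuousAt.mul h3).div h2 h4.ne'
  · have h1 : ContinuousAt (fun _ : N => (0 : ℝ)) x := continuousAt_const
    refine h1.congr ?_
    filter_upwards [b.ev_not_D hx] with y hy
    unfold al chi
    rw [if_neg hy]
    simp

theorem ka_continuousOn [T2Space N] : ContinuousOn b.ka {x | x ≠ b.p} := by
  intro x hxp
  refine ContinuousAt.continuousWithinAt ?_
  by_cases hx : x ∈ b.e.source
  · have h2 : ContinuousAt (fun y => ((q2 (b.e y) : ℝ) : ℂ)) x :=
      (Complex.continuous_ofReal.comp q2_cont).continuousAt.comp (b.e_cont hx)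
    have h3 : ContinuousAt (fun y => conj (b.e y).1 * (b.e y).2) x := by
      have h5 : Continuous (fun w : ℂ × ℂ => conj w.1 * w.2) :=
        (Complex.continuous_conj.comp continuous_fst).mul continuous_snd
      exact h5.continuousAt.comp (b.e_cont hx)
    have h6 : ContinuousAt (fun y => ((b.chi y : ℝ) : ℂ)) x :=
      (Complex.continuous_ofReal.comp b.chi_continuous).continuousAt
    have h4 := q2_pos_of (b.e_ne hx hxp)
    refine (h6.mul h3).div h2 ?_
    exact_mod_cast h4.ne'
  · have h1 : ContinuousAt (fun _ : N => (0 : ℂ)) x := continuousAt_const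
    refine h1.congr ?_
    filter_upwards [b.ev_not_D hx] with y hy
    unfold ka chi
    rw [if_neg hy]
    simp

end BData

end Pool.Agent.BlowC
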