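import Pool.Agent.Lib.MP_1d980c_gt.Blow.BSpaceA

/-! Auxiliary facts on the points of the blow-up. -/

set_option autoImplicit false
open Topology Complex ComplexConjugate
open scoped Manifold ContDiff

namespace Pool.Agent.BlowC

theorem q2_nonneg' (w : ℂ × ℂ) : 0 ≤ q2 w := by unfold q2; positivity

theorem q2_zero' : q2 0 = 0 := by simp [q2]

theorem q2_continuous' : Continuous q2 := by
  unfold q2
  fun_prop

namespace BData

variable {N : Type} [TopologicalSpace N] (b : BData N)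

theorem chi_mem {x : N} (h : x ∈ b.D) : b.chi x = 1 - q2 (b.e x) / b.r := if_pos h

theorem chi_not_mem {x : N} (h : x ∉ b.D) : b.chi x = 0 := if_neg h

theorem chi_le_one (x : N) : b.chi x ≤ 1 := by
  by_cases h : x ∈ b.D
  · rw [b.chi_mem h]
    have := div_nonneg (q2_nonneg' (b.e x)) b.hr.le
    linarith
  · rw [b.chi_not_mem h]
    norm_num

/-- off the exceptional curve. -/
theorem al_eq {z : N × ℝ × ℂ} (hz : z ∈ b.BSet) (h : z.1 ≠ b.p) : z.2.1 = b.al z.1 := by
  rcases hz with hz | hz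
  · exact hz.2.1
  · exact absurd hz.1 h

theorem ka_eq {z : N × ℝ × ℂ} (hz : z ∈ b.BSet) (h : z.1 ≠ b.p) : z.2.2 = b.ka z.1 := by
  rcases hz with hz | hz
  · exact hz.2.2
  · exact absurd hz.1 h

theorem kap {z : N × ℝ × ℂ} (hz : z ∈ b.BSet) :
    ‖z.2.2‖ ^ 2 = z.2.1 * (b.chi z.1 - z.2.1) := by
  rcases hz with ⟨hne, h1, h2⟩ | ⟨h, h1⟩
  · rw [h1, h2]
    by_cases hD : z.1 ∈ b.D
    · have hq := b.q2_pos hD hne
      unfold al ka
      rw [norm_div, norm_mul, norm_mul, RCLike.norm_conj, Complex.norm_real, Complex.norm_real,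
        Real.norm_eq_abs, Real.norm_eq_abs, abs_of_pos hq, abs_of_nonneg (b.chi_nonneg _)]
      have hq2 : q2 (b.e z.1) = ‖(b.e z.1).1‖ ^ 2 + ‖(b.e z.1).2‖ ^ 2 := rfl
      have hq' : q2 (b.e z.1) ≠ 0 := hq.ne'
      field_simp
      rw [hq2]
      ring
    · unfold al ka
      rw [b.chi_not_mem hD]
      simp
  · rw [h, h1, b.chi_p]

end BData

end Pool.Agent.BlowC
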