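import Pool.Agent.Lib.MP_1d980c_gt.Blow.BSpaceA
import Pool.Agent.Lib.MP_1d980c_gt.Blow.BSpaceKap

/-! The blow-up is compact; the blow-down map off the exceptional curve. -/

set_option autoImplicit false
open Topology Complex ComplexConjugate
open scoped Manifold ContDiff

namespace Pool.Agent.BlowC

namespace BData

variable {N : Type} [TopologicalSpace N] (b : BData N)

theorem BSet_isClosed [T2Space N] : IsClosed b.BSet := by
  have hs : IsOpen {z : N × ℝ × ℂ | z.1 ≠ b.p} :=
    isOpen_ne.preimage continuous_fst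
  have hC1 : IsClosed {z : N × ℝ × ℂ | ‖z.2.2‖ ^ 2 = z.2.1 * (b.chi z.1 - z.2.1)} := by
    apply isClosed_eq
    · fun_prop
    · have := b.chi_continuous
      fun_prop
  have hf : ContinuousOn (fun z : N × ℝ × ℂ => ((z.2.1 - b.al z.1, z.2.2 - b.ka z.1) : ℝ × ℂ))
      {z : N × ℝ × ℂ | z.1 ≠ b.p} := by
    apply ContinuousOn.prodMk
    · apply ContinuousOn.sub
      · fun_prop
      · exact b.al_continuousOn.comp continuous_fst.continuousOn (fun z hz => hz)
    · apply ContinuousOn.sub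
      · fun_prop
      · exact b.ka_continuousOn.comp continuous_fst.continuousOn (fun z hz => hz)
  have ho := hf.isOpen_inter_preimage hs (isOpen_compl_singleton (x := (0 : ℝ × ℂ)))
  have heq : b.BSet = {z : N × ℝ × ℂ | ‖z.2.2‖ ^ 2 = z.2.1 * (b.chi z.1 - z.2.1)} ∩
      ({z : N × ℝ × ℂ | z.1 ≠ b.p} ∩
        (fun z : N × ℝ × ℂ => ((z.2.1 - b.al z.1, z.2.2 - b.ka z.1) : ℝ × ℂ)) ⁻¹' {0}ᶜ)ᶜ := by
    ext z
    constructor
    · intro hz
      refine ⟨b.kap hz, ?_⟩
      rintro ⟨h1, h2⟩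
      apply h2
      change (z.2.1 - b.al z.1, z.2.2 - b.ka z.1) = 0
      rw [← b.al_eq hz h1, ← b.ka_eq hz h1, sub_self, sub_self]
      rfl
    · rintro ⟨h1, h2⟩
      by_cases hp : z.1 = b.p
      · right
        refine ⟨hp, ?_⟩
        change ‖z.2.2‖ ^ 2 = z.2.1 * (b.chi z.1 - z.2.1) at h1
        rw [h1, hp, b.chi_p]
      · left
        have h3 : (z.2.1 - b.al z.1, z.2.2 - b.ka z.1) = (0 : ℝ × ℂ) := by
          by_contra h3
          exact h2 ⟨hp, h3⟩
        have h4 := congrArg Prod.fst h3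
        have h5 := congrArg Prod.snd h3
        exact ⟨hp, sub_eq_zero.1 h4, sub_eq_zero.1 h5⟩
  rw [heq]
  exact hC1.inter ho.isClosed_compl

theorem BSet_compact [T2Space N] [CompactSpace N] : CompactSpace b.BSet := by
  rw [← isCompact_iff_compactSpace]
  have hK : IsCompact ((Set.univ : Set N) ×ˢ (Set.Icc (0 : ℝ) 1 ×ˢ Metric.closedBall (0 : ℂ) 1)) :=
    isCompact_univ.prod (isCompact_Icc.prod (isCompact_closedBall _ _))
  apply hK.of_isClosed_subset b.BSet_isClosed
  intro z hz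
  have hk := b.kap hz
  have h0 := b.chi_nonneg z.1
  have h1 := b.chi_le_one z.1
  have hn : 0 ≤ ‖z.2.2‖ := norm_nonneg _
  have ha : 0 ≤ z.2.1 := by
    by_contra hlt
    push Not at hlt
    nlinarith [sq_nonneg ‖z.2.2‖]
  have hb : z.2.1 ≤ b.chi z.1 := by
    by_contra hlt
    push Not at hlt
    nlinarith [sq_nonneg ‖z.2.2‖]
  refine ⟨Set.mem_univ _, ⟨ha, hb.trans h1⟩, ?_⟩
  rw [mem_closedBall_zero_iff]
  nlinarith

/-- off the exceptional curve the blow-down map is a homeomorphism. -/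
theorem exists_off [T2Space N] : ∃ f : OpenPartialHomeomorph b.BSet N,
    f.source = {y | b.bd y ≠ b.p} ∧ f.target = {x | x ≠ b.p} ∧ ∀ y, f y = b.bd y := by
  classical
  have hmem0 : ((b.p, 0, 0) : N × ℝ × ℂ) ∈ b.BSet := by
    right
    exact ⟨rfl, by simp⟩
  have hmem : ∀ x : N, x ≠ b.p → ((x, b.al x, b.ka x) : N × ℝ × ℂ) ∈ b.BSet := by
    intro x hx
    left
    exact ⟨hx, rfl, rfl⟩
  let g : N → b.BSet := fun x => if hx : x ≠ b.p then ⟨_, hmem x hx⟩ else ⟨_, hmem0⟩
  have hg : ∀ x : N, x ≠ b.p → (g x).1 = (x, b.al x, b.ka x) := by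
    intro x hx
    simp only [g, dif_pos hx]
  refine ⟨{
    toFun := b.bd
    invFun := g
    source := {y | b.bd y ≠ b.p}
    target := {x | x ≠ b.p}
    map_source' := fun y hy => hy
    map_target' := ?_
    left_inv' := ?_
    right_inv' := ?_
    open_source := isOpen_ne.preimage b.bd_continuous
    open_target := isOpen_ne
    continuousOn_toFun := b.bd_continuous.continuousOn
    continuousOn_invFun := ?_ }, rfl, rfl, fun y => rfl⟩
  · intro x hx
    change (g x).1.1 ≠ b.p
    rw [hg x hx]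
    exact hx
  · intro y hy
    apply Subtype.ext
    rw [hg _ hy]
    have h1 := b.al_eq y.2 hy
    have h2 := b.ka_eq y.2 hy
    change (y.1.1, b.al y.1.1, b.ka y.1.1) = y.1
    rw [← h1, ← h2]
  · intro x hx
    change (g x).1.1 = x
    rw [hg x hx]
  · rw [Topology.IsInducing.subtypeVal.continuousOn_iff]
    have h : ContinuousOn (fun x : N => ((x, b.al x, b.ka x) : N × ℝ × ℂ)) {x | x ≠ b.p} :=
      continuousOn_id.prodMk (b.al_continuousOn.prodMk b.ka_continuousOn)
    exact h.congr (fun x hx => hg x hx)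

end BData

end Pool.Agent.BlowC
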