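import Pool.Agent.Lib.MP_1d980c_gt.Blow.BSpaceA
import Pool.Agent.Lib.MP_1d980c_gt.Blow.BSpaceKap

/-! Elementary facts on the slope, and the exceptional curve. -/

set_option autoImplicit false
open Topology Complex ComplexConjugate
open scoped Manifold ContDiff

namespace Pool.Agent.BlowC

namespace BData

variable {N : Type} [TopologicalSpace N] (b : BData N)

theorem S12_cover {y : b.BSet} (h : b.bd y ∈ b.D) : y ∈ b.S1 ∨ y ∈ b.S2 := by
  by_cases h0 : y.1.2.1 = 0
  · right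
    refine ⟨h, ?_⟩
    rw [h0, sub_zero]
    exact ((b.chi_pos_iff _).2 h).ne'
  · left
    exact ⟨h, h0⟩

/-- on `S1`: `v = m u`. -/
theorem sl_mul {y : b.BSet} (h : y ∈ b.S1) : (b.e (b.bd y)).2 = b.sl y * (b.e (b.bd y)).1 := by
  obtain ⟨hD, h0⟩ := h
  by_cases hp : b.bd y = b.p
  · rw [hp, b.ep]
    simp
  · have ha := b.al_eq y.2 hp
    have hk := b.ka_eq y.2 hp
    have hq := b.q2_pos hD hp
    unfold sl
    rw [ha] at h0
    rw [ha, hk]
    change _ = b.ka (b.bd y) / (b.al (b.bd y) : ℂ) * _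
    change b.al (b.bd y) ≠ 0 at h0
    unfold al at h0 ⊢
    unfold ka
    have hu : (b.e (b.bd y)).1 ≠ 0 := by
      intro hu
      rw [hu] at h0
      simp at h0
    have hchi : (b.chi (b.bd y) : ℂ) ≠ 0 := by
      intro hc
      have : b.chi (b.bd y) = 0 := by exact_mod_cast hc
      rw [this] at h0
      simp at h0
    have hqc : (q2 (b.e (b.bd y)) : ℂ) ≠ 0 := by exact_mod_cast hq.ne'
    have hn : ((‖(b.e (b.bd y)).1‖ : ℂ)) ^ 2 = (b.e (b.bd y)).1 * conj (b.e (b.bd y)).1 :=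
      (Complex.mul_conj' _).symm
    have hcu : conj (b.e (b.bd y)).1 ≠ 0 := by simpa using hu
    push_cast
    rw [hn]
    field_simp

/-- on `S2`: `u = m⁻¹ v`. -/
theorem sl_inv_mul {y : b.BSet} (h : y ∈ b.S2) :
    (b.e (b.bd y)).1 = (b.sl y)⁻¹ * (b.e (b.bd y)).2 := by
  obtain ⟨hD, h0⟩ := h
  by_cases hp : b.bd y = b.p
  · rw [hp, b.ep]
    simp
  · by_cases hu : (b.e (b.bd y)).1 = 0
    · have hk := b.ka_eq y.2 hp
      unfold sl
      rw [hk]
      change _ = (b.ka (b.bd y) / _)⁻¹ * _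
      unfold ka
      rw [hu]
      simp
    · have ha := b.al_eq y.2 hp
      have hq := b.q2_pos hD hp
      have hc := (b.chi_pos_iff _).2 hD
      have h1 : y ∈ b.S1 := by
        refine ⟨hD, ?_⟩
        rw [ha]
        change b.al (b.bd y) ≠ 0
        unfold al
        have : 0 < ‖(b.e (b.bd y)).1‖ := norm_pos_iff.2 hu
        positivity
      have hm := b.sl_mul h1
      have hv : (b.e (b.bd y)).2 ≠ 0 := by
        intro hv
        apply h0
        rw [ha]
        change b.chi (b.bd y) - b.al (b.bd y) = 0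
        unfold al
        have : q2 (b.e (b.bd y)) = ‖(b.e (b.bd y)).1‖ ^ 2 := by
          unfold q2
          rw [hv]
          simp
        rw [← this]
        field_simp
        ring
      have hs : b.sl y ≠ 0 := by
        intro hs
        rw [hs, zero_mul] at hm
        exact hv hm
      rw [hm]
      field_simp

theorem u_ne {y : b.BSet} (h : y ∈ b.S1) (hy : b.bd y ≠ b.p) : (b.e (b.bd y)).1 ≠ 0 := by
  obtain ⟨hD, h0⟩ := h
  intro hu
  apply h0
  rw [b.al_eq y.2 hy]
  change b.al (b.bd y) = 0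
  unfold al
  rw [hu]
  simp

theorem v_ne {y : b.BSet} (h : y ∈ b.S2) (hy : b.bd y ≠ b.p) : (b.e (b.bd y)).2 ≠ 0 := by
  obtain ⟨hD, h0⟩ := h
  intro hv
  apply h0
  rw [b.al_eq y.2 hy]
  change b.chi (b.bd y) - b.al (b.bd y) = 0
  have hq := b.q2_pos hD hy
  unfold al
  have : q2 (b.e (b.bd y)) = ‖(b.e (b.bd y)).1‖ ^ 2 := by
    unfold q2
    rw [hv]
    simp
  rw [← this]
  field_simp
  ring

theorem sl_ne {y : b.BSet} (h1 : y ∈ b.S1) (h2 : y ∈ b.S2) : b.sl y ≠ 0 := by
  unfold sl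
  have hk := b.kap y.2
  have h3 : y.1.2.2 ≠ 0 := by
    intro h
    rw [h, norm_zero] at hk
    have : y.1.2.1 * (b.chi (b.bd y) - y.1.2.1) ≠ 0 := mul_ne_zero h1.2 h2.2
    apply this
    rw [zero_pow (by norm_num)] at hk
    exact hk.symm
  exact div_ne_zero h3 (by exact_mod_cast h1.2)

/-- the exceptional curve. -/
theorem exists_s : ∃ s : OnePoint ℂ → b.BSet, Function.Injective s ∧
    Set.range s = b.bd ⁻¹' {b.p} ∧ (∀ a : ℂ, b.sl (s a) = a ∧ s a ∈ b.S1) ∧
    b.sl (s OnePoint.infty) = 0 ∧ s OnePoint.infty ∈ b.S2 := by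
  have hpos : ∀ a : ℂ, 0 < 1 + ‖a‖ ^ 2 := fun a => by positivity
  have hmem : ∀ a : ℂ, ((b.p, 1 / (1 + ‖a‖ ^ 2), a / ((1 + ‖a‖ ^ 2 : ℝ) : ℂ)) : N × ℝ × ℂ) ∈
      b.BSet := by
    intro a
    right
    refine ⟨rfl, ?_⟩
    have h := hpos a
    change ‖a / ((1 + ‖a‖ ^ 2 : ℝ) : ℂ)‖ ^ 2 = 1 / (1 + ‖a‖ ^ 2) * (1 - 1 / (1 + ‖a‖ ^ 2))
    rw [norm_div, Complex.norm_real, Real.norm_eq_abs, abs_of_pos h]
    field_simp
    ring
  have hmem0 : ((b.p, 0, 0) : N × ℝ × ℂ) ∈ b.BSet := by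
    right
    exact ⟨rfl, by simp⟩
  let s : OnePoint ℂ → b.BSet := fun z =>
    Option.elim z ⟨_, hmem0⟩ (fun a => ⟨_, hmem a⟩)
  have hs1 : ∀ a : ℂ, (s (a : OnePoint ℂ)).1 =
      (b.p, 1 / (1 + ‖a‖ ^ 2), a / ((1 + ‖a‖ ^ 2 : ℝ) : ℂ)) := fun a => rfl
  have hs0 : (s OnePoint.infty).1 = (b.p, 0, 0) := rfl
  have hsl : ∀ a : ℂ, b.sl (s (a : OnePoint ℂ)) = a := by
    intro a
    unfold sl
    rw [hs1]
    have h : ((1 + ‖a‖ ^ 2 : ℝ) : ℂ) ≠ 0 := by exact_mod_cast (hpos a).ne'
    push_cast at h ⊢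
    field_simp
  have hα : ∀ a : ℂ, (s (a : OnePoint ℂ)).1.2.1 ≠ 0 := by
    intro a
    rw [hs1]
    have := hpos a
    change 1 / (1 + ‖a‖ ^ 2) ≠ 0
    positivity
  refine ⟨s, ?_, ?_, ?_, ?_, ?_⟩
  · intro z w hzw
    induction z using OnePoint.rec with
    | infty =>
      induction w using OnePoint.rec with
      | infty => rfl
      | coe c =>
        exfalso
        apply hα c
        rw [← hzw, hs0]
    | coe a =>
      induction w using OnePoint.rec with
      | infty =>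
        exfalso
        apply hα a
        rw [hzw, hs0]
      | coe c =>
        have := congrArg b.sl hzw
        rw [hsl, hsl] at this
        rw [this]
  · ext y
    constructor
    · rintro ⟨z, rfl⟩
      induction z using OnePoint.rec with
      | infty => exact rfl
      | coe a => exact rfl
    · intro hy
      have hy' : y.1.1 = b.p := hy
      have hk := b.kap y.2
      rw [hy', b.chi_p] at hk
      by_cases h0 : y.1.2.1 = 0
      · refine ⟨OnePoint.infty, ?_⟩
        apply Subtype.ext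
        rw [hs0]
        rw [h0, zero_mul] at hk
        have hk0 : y.1.2.2 = 0 := by
          have := pow_eq_zero_iff (two_ne_zero) |>.1 hk
          exact norm_eq_zero.1 this
        ext1
        · exact hy'.symm
        · ext1
          · exact h0.symm
          · exact hk0.symm
      · refine ⟨((y.1.2.2 / (y.1.2.1 : ℂ) : ℂ) : OnePoint ℂ), ?_⟩
        apply Subtype.ext
        rw [hs1]
        have h1 : 1 + ‖y.1.2.2 / (y.1.2.1 : ℂ)‖ ^ 2 = 1 / y.1.2.1 := by
          rw [norm_div, Complex.norm_real, div_pow, hk, Real.norm_eq_abs, sq_abs]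
          field_simp
          ring
        rw [h1]
        have hc : (y.1.2.1 : ℂ) ≠ 0 := by exact_mod_cast h0
        ext1
        · exact hy'.symm
        · ext1
          · change 1 / (1 / y.1.2.1) = y.1.2.1
            field_simp
          · change y.1.2.2 / (y.1.2.1 : ℂ) / ((1 / y.1.2.1 : ℝ) : ℂ) = y.1.2.2
            push_cast
            field_simp
  · intro a
    refine ⟨hsl a, ?_, hα a⟩
    exact b.p_mem_D
  · unfold sl
    rw [hs0]
    simp
  · refine ⟨b.p_mem_D, ?_⟩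
    rw [hs0]
    change b.chi b.p - 0 ≠ 0
    rw [b.chi_p]
    norm_num

end BData

end Pool.Agent.BlowC
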