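import Pool.Agent.Lib.MP_1d980c_gt.Blow.BADefs

/-! Node charts in marked form. -/

set_option autoImplicit false
open Complex ComplexConjugate Topology Pool.Agent.S4T2
open scoped Manifold ContDiff

namespace Pool.Agent.BlowC

variable {V1 V2 R1 R2 : Type}

theorem nodeChart_eq (s : Side) (u₀ v₀ φ₀ ψ₀ : A4 → ℂ) (hx : ∀ P, s.x P = u₀ P * φ₀ P)
    (hy : ∀ P, s.y P = v₀ P * ψ₀ P) (ε μ : ℝ) (d1 : (V1 → ℂ) × (V1 → R1))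
    (d2 : (V2 → ℂ) × (V2 → R2)) (x : A4 × V1 × V2) :
    nodeChart s ε μ d1 d2 x = (u₀ x.1 * (ndT s φ₀ ψ₀ ε μ d1 d2).φ x,
      v₀ x.1 * (ndT s φ₀ ψ₀ ε μ d1 d2).ψ x, (ndT s φ₀ ψ₀ ε μ d1 d2).ρ x) := by
  unfold nodeChart ndT
  rw [← mul_assoc, ← mul_assoc, ← hx, ← hy]

section

variable [NormedAddCommGroup V1] [NormedSpace ℝ V1] [NormedAddCommGroup V2]
  [NormedSpace ℝ V2] [NormedAddCommGroup R1] [NormedSpace ℂ R1] [NormedAddCommGroup R2]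
  [NormedSpace ℂ R2]

/-- change of the odd data of a node chart, in marked form. -/
theorem ndT_rel (s : Side) (φ₀ ψ₀ : A4 → ℂ) (ε μ : ℝ)
    {d1 d1' : (V1 → ℂ) × (V1 → R1)} {d2 d2' : (V2 → ℂ) × (V2 → R2)} {x : A4 × V1 × V2}
    (t1 : ∃ (g : R1 → ℂ) (H : R1 → R1), ContDiffAt ℂ ∞ g (d1.2 x.2.1) ∧
      ContDiffAt ℂ ∞ H (d1.2 x.2.1) ∧
      ∀ᶠ u' in 𝓝 x.2.1, d1'.1 u' = d1.1 u' + g (d1.2 u') ∧ d1'.2 u' = H (d1.2 u'))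
    (t2 : ∃ (g : R2 → ℂ) (H : R2 → R2), ContDiffAt ℂ ∞ g (d2.2 x.2.2) ∧
      ContDiffAt ℂ ∞ H (d2.2 x.2.2) ∧
      ∀ᶠ u' in 𝓝 x.2.2, d2'.1 u' = d2.1 u' + g (d2.2 u') ∧ d2'.2 u' = H (d2.2 u')) :
    ∃ (h1 h2 : ℂ × ℂ × ℂ × R1 × R2 → ℂ) (H : ℂ × ℂ × ℂ × R1 × R2 → ℂ × R1 × R2),
      ContDiffAt ℂ ∞ h1 (nodeChart s ε μ d1 d2 x) ∧ ContDiffAt ℂ ∞ h2 (nodeChart s ε μ d1 d2 x) ∧
      ContDiffAt ℂ ∞ H (nodeChart s ε μ d1 d2 x) ∧ h1 (nodeChart s ε μ d1 d2 x) ≠ 0 ∧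
      h2 (nodeChart s ε μ d1 d2 x) ≠ 0 ∧
      ∀ᶠ y in 𝓝 x,
        (ndT s φ₀ ψ₀ ε μ d1' d2').φ y =
          (ndT s φ₀ ψ₀ ε μ d1 d2).φ y * h1 (nodeChart s ε μ d1 d2 y) ∧
        (ndT s φ₀ ψ₀ ε μ d1' d2').ψ y =
          (ndT s φ₀ ψ₀ ε μ d1 d2).ψ y * h2 (nodeChart s ε μ d1 d2 y) ∧
        (ndT s φ₀ ψ₀ ε μ d1' d2').ρ y = H (nodeChart s ε μ d1 d2 y) := by
  obtain ⟨g1, H1, cg1, cH1, e1⟩ := t1
  obtain ⟨g2, H2, cg2, cH2, e2⟩ := t2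
  have G1 : ContDiffAt ℂ ∞ (fun p : ℂ × ℂ × ℂ × R1 × R2 => g1 p.2.2.2.1)
      (nodeChart s ε μ d1 d2 x) :=
    ContDiffAt.comp (g := g1) (nodeChart s ε μ d1 d2 x) cg1
      (by fun_prop : ContDiff ℂ ∞ (fun p : ℂ × ℂ × ℂ × R1 × R2 => p.2.2.2.1)).contDiffAt
  have G2 : ContDiffAt ℂ ∞ (fun p : ℂ × ℂ × ℂ × R1 × R2 => g2 p.2.2.2.2)
      (nodeChart s ε μ d1 d2 x) :=
    ContDiffAt.comp (g := g2) (nodeChart s ε μ d1 d2 x) cg2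
      (by fun_prop : ContDiff ℂ ∞ (fun p : ℂ × ℂ × ℂ × R1 × R2 => p.2.2.2.2)).contDiffAt
  have K1 : ContDiffAt ℂ ∞ (fun p : ℂ × ℂ × ℂ × R1 × R2 => H1 p.2.2.2.1)
      (nodeChart s ε μ d1 d2 x) :=
    ContDiffAt.comp (g := H1) (nodeChart s ε μ d1 d2 x) cH1
      (by fun_prop : ContDiff ℂ ∞ (fun p : ℂ × ℂ × ℂ × R1 × R2 => p.2.2.2.1)).contDiffAt
  have K2 : ContDiffAt ℂ ∞ (fun p : ℂ × ℂ × ℂ × R1 × R2 => H2 p.2.2.2.2)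
      (nodeChart s ε μ d1 d2 x) :=
    ContDiffAt.comp (g := H2) (nodeChart s ε μ d1 d2 x) cH2
      (by fun_prop : ContDiff ℂ ∞ (fun p : ℂ × ℂ × ℂ × R1 × R2 => p.2.2.2.2)).contDiffAt
  refine ⟨fun p => exp (2 * Real.pi * I * (p.1 * p.2.1) *
      (g1 p.2.2.2.1 - I * ε * g2 p.2.2.2.2)),
    fun p => exp (-(2 * Real.pi * I * (p.1 * p.2.1) *
      (g1 p.2.2.2.1 - I * ε * g2 p.2.2.2.2))),
    fun p => (p.2.2.1 + g1 p.2.2.2.1 * (1 + (p.1 * p.2.1) ^ 2) +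
      I * ε * g2 p.2.2.2.2 * (1 - (p.1 * p.2.1) ^ 2),
    H1 p.2.2.2.1, H2 p.2.2.2.2), ?_, ?_, ?_, exp_ne_zero _, exp_ne_zero _, ?_⟩
  · fun_prop
  · fun_prop
  · fun_prop
  · have c1 : Filter.Tendsto (fun y : A4 × V1 × V2 => y.2.1) (𝓝 x) (𝓝 x.2.1) :=
      (continuous_fst.comp continuous_snd).continuousAt
    have c2 : Filter.Tendsto (fun y : A4 × V1 × V2 => y.2.2) (𝓝 x) (𝓝 x.2.2) :=
      (continuous_snd.comp continuous_snd).continuousAt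
    filter_upwards [c1.eventually e1, c2.eventually e2] with y h1 h2
    set W := s.x y.1 * s.y y.1 with hW
    set A := lam ε μ W (s.L false y.1) (d1.1 y.2.1) (d2.1 y.2.2) with hA
    have hxy : s.x y.1 * exp (-A) * (s.y y.1 * exp A) = W := by
      rw [hW, mul_mul_mul_comm, ← Complex.exp_add]
      simp
    have hA' : lam ε μ W (s.L false y.1) (d1'.1 y.2.1) (d2'.1 y.2.2) =
        A - 2 * Real.pi * I * W * (g1 (d1.2 y.2.1) - I * ε * g2 (d2.2 y.2.2)) := by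
      rw [hA, h1.1, h2.1]; simp only [lam]; ring
    simp only [nodeChart, ndT, ← hW, ← hA, hxy, hA', h1.2, h2.2, Prod.mk.injEq, and_true]
    refine ⟨?_, ?_, ?_⟩
    · rw [mul_assoc (φ₀ y.1), ← Complex.exp_add]
      congr 2
      ring
    · rw [mul_assoc (ψ₀ y.1), ← Complex.exp_add]
      congr 2
    · rw [h1.1, h2.1]; simp only [zet]; ring

end

end Pool.Agent.BlowC
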