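import Pool.Agent.Lib.MP_1d980c_gt.Blow.BADefs

/-! Smoothness of the node triple. -/

set_option autoImplicit false
open Complex ComplexConjugate Topology Pool.Agent.S4T2
open scoped Manifold ContDiff

namespace Pool.Agent.BlowC

theorem psi0_ne {P : A4} (hP : P ∈ S4) (h : P ∈ Nn) : psi0 P ≠ 0 := by
  unfold psi0
  exact mul_ne_zero (div_ne_zero (by norm_num) (nodeA_y1_ne hP h)) (Complex.exp_ne_zero _)

theorem phi0_smooth {P : A4} (hP : P ∈ S4) (h : P ∈ Nn) : ContDiffAt ℝ ∞ phi0 P := by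
  have hL := nodeA_L hP h
  have h1 : ContDiffAt ℝ ∞ (fun P => -(Lb false P / 2)) P := (hL.div_const 2).neg
  exact h1.cexp

theorem psi0_smooth {P : A4} (hP : P ∈ S4) (h : P ∈ Nn) : ContDiffAt ℝ ∞ psi0 P := by
  have hL := nodeA_L hP h
  have h1 : ContDiffAt ℝ ∞ (fun P => Lb false P / 2) P := hL.div_const 2
  have h2 : ContDiffAt ℝ ∞ (fun P : A4 => 4 / y1 P) P := by
    simp only [div_eq_mul_inv]
    exact contDiffAt_const.mul (contDiff_y1.contDiffAt.inv (nodeA_y1_ne hP h))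
  exact h2.mul h1.cexp

/-- smoothness of the triple of the node chart (both sides: `P` replaced by `f P`). -/
theorem ndT_smooth {p q : ℕ} {s : Side} {C : ℝ} (hs : s.Good C) {φ₀ ψ₀ : A4 → ℂ} (ε μ : ℝ)
    {x : Amb p q} (hx : x ∈ SP p q) (hN : x.1 ∈ s.N) (hφ : ContDiffAt ℝ ∞ φ₀ x.1)
    (hψ : ContDiffAt ℝ ∞ ψ₀ x.1) {d1 d2} (hd1 : d1 ∈ GO p x.2.1) (hd2 : d2 ∈ GO q x.2.2) :
    ContDiffAt ℝ ∞ (ndT s φ₀ ψ₀ ε μ d1 d2).φ x ∧ ContDiffAt ℝ ∞ (ndT s φ₀ ψ₀ ε μ d1 d2).ψ x := by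
  obtain ⟨hx1, hx2, hx3⟩ := hx
  have h1 := (oddGerms p).smooth_b _ hx2 d1 hd1
  have h2 := (oddGerms q).smooth_b _ hx3 d2 hd2
  have f1 : ContDiffAt ℝ ∞ (fun x : Amb p q => x.1) x := contDiffAt_fst
  have f2 : ContDiffAt ℝ ∞ (fun x : Amb p q => x.2.1) x := contDiffAt_snd.fst
  have f3 : ContDiffAt ℝ ∞ (fun x : Amb p q => x.2.2) x := contDiffAt_snd.snd
  have hX : ContDiffAt ℝ ∞ (fun x : Amb p q => s.x x.1) x := (hs.node_x _ hx1 hN).comp x f1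
  have hY : ContDiffAt ℝ ∞ (fun x : Amb p q => s.y x.1) x := (hs.node_y _ hx1 hN).comp x f1
  have hw : ContDiffAt ℝ ∞ (fun x : Amb p q => s.x x.1 * s.y x.1) x := hX.mul hY
  have hL : ContDiffAt ℝ ∞ (fun x : Amb p q => s.L false x.1) x :=
    (hs.node_L _ hx1 hN).comp x f1
  have hb1 : ContDiffAt ℝ ∞ (fun x : Amb p q => d1.1 x.2.1) x := h1.comp x f2
  have hb2 : ContDiffAt ℝ ∞ (fun x : Amb p q => d2.1 x.2.2) x := h2.comp x f3
  have hφ1 : ContDiffAt ℝ ∞ (fun x : Amb p q => φ₀ x.1) x := hφ.comp x f1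
  have hψ1 : ContDiffAt ℝ ∞ (fun x : Amb p q => ψ₀ x.1) x := hψ.comp x f1
  exact ⟨hφ1.mul (lam_smooth ε μ hw hL hb1 hb2).neg.cexp,
    hψ1.mul (lam_smooth ε μ hw hL hb1 hb2).cexp⟩

end Pool.Agent.BlowC
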