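import Pool.Agent.Lib.MP_1d980c_gt.Blow.MkDefs
import Pool.Agent.Lib.MP_1d980c_gt.Blow.BaseAmbC

/-! Smoothness of the marked charts. -/

set_option autoImplicit false
open Complex ComplexConjugate Topology Pool.Agent.S4T2
open scoped Manifold ContDiff

namespace Pool.Agent.BlowC

section

variable {p q : ℕ} {s : Side} {C : ℝ} {c : Mark (Sn 4)} {u₀ v₀ φ₀ ψ₀ : A4 → ℂ} {ε μ : ℝ}

theorem mkS_smooth (hs : s.Good C)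
    (hφ : ∀ P ∈ S4, P ∈ s.N → ContDiffAt ℝ ∞ φ₀ P ∧ φ₀ P ≠ 0)
    (hψ : ∀ P ∈ S4, P ∈ s.N → ContDiffAt ℝ ∞ ψ₀ P ∧ ψ₀ P ≠ 0)
    (y : Sn 4 × Sn (2 * p + 1) × Sn (2 * q + 1)) (t) (ht : t ∈ MkS s φ₀ ψ₀ ε μ y) :
    ContMDiffAt ((𝓡 4).prod (JZ p q)) 𝓘(ℝ, ℂ) ∞ t.φ y ∧
      ContMDiffAt ((𝓡 4).prod (JZ p q)) 𝓘(ℝ, ℂ) ∞ t.ψ y ∧ t.φ y ≠ 0 ∧ t.ψ y ≠ 0 := by
  obtain ⟨hN, d1, hd1, d2, hd2, rfl⟩ := ht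
  have hmem := io_mem p q y
  have hS4 : (io p q y).1 ∈ S4 := hmem.1
  obtain ⟨s1, s2⟩ := ndT_smooth hs ε μ hmem hN (hφ _ hS4 hN).1 (hψ _ hS4 hN).1 hd1 hd2
  have hio : ContMDiffAt ((𝓡 4).prod (JZ p q)) 𝓘(ℝ, Amb p q) ∞ (io p q) y :=
    (io_smooth p q).contMDiffAt
  refine ⟨s1.contMDiffAt.comp y hio, s2.contMDiffAt.comp y hio, ?_, ?_⟩
  · exact mul_ne_zero (hφ _ hS4 hN).2 (exp_ne_zero _)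
  · exact mul_ne_zero (hψ _ hS4 hN).2 (exp_ne_zero _)

end

end Pool.Agent.BlowC
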