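import Pool.Agent.Lib.MP_1d980c_gt.Blow.BaseBridgeA

/-! From ambient germs to the product of the spheres. -/

set_option autoImplicit false
open Complex ComplexConjugate Topology Pool.Agent.S4T2
open scoped Manifold ContDiff

namespace Pool.Agent.BlowC

private theorem eO_tan (p : ℕ) (u v : EuclideanSpace ℝ (Fin (2 * p + 2))) :
    TanO p (eO p u) (eO p v) ↔ inner ℝ u v = 0 := (exists_eO p).choose_spec.2 u v

theorem bridge_holGerms {p q : ℕ} {Gm : Amb p q → Set (Amb p q → Tgt p q)}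
    (h : AmbGerms p q Gm) : HolGerms ((𝓡 4).prod (JZ p q)) (GmS Gm) := by
  refine ⟨?_, ?_, ?_, ?_⟩
  · intro x
    obtain ⟨f, hf, hn⟩ := h.ex (io p q x) (io_mem p q x)
    refine ⟨f ∘ io p q, ⟨f, hf, rfl⟩, ?_⟩
    have hc : Filter.Tendsto (io p q) (𝓝 x) (𝓝 (io p q x)) := (io_smooth p q).continuous.tendsto x
    filter_upwards [hc.eventually hn] with y hy
    exact ⟨f, hy (io_mem p q y), rfl⟩
  · rintro x F ⟨f, hf, rfl⟩
    obtain ⟨hs, -⟩ := h.sm (io p q x) (io_mem p q x) f hf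
    exact hs.contMDiffAt.comp x (io_smooth p q x)
  · rintro x F ⟨f, hf, rfl⟩
    obtain ⟨hs, hinj⟩ := h.sm (io p q x) (io_mem p q x) f hf
    obtain ⟨D, hD, hDi, hDo⟩ := incl_deriv (n1 := 4) (n2 := 2 * p + 1) (n3 := 2 * q + 1)
      e5 (eO p) (eO q) x
    have hfd : HasFDerivAt f (fderiv ℝ f (io p q x)) (io p q x) :=
      (hs.differentiableAt (by simp)).hasFDerivAt
    have hm := hfd.hasMFDerivAt.comp x hD
    have hm' : mfderiv ((𝓡 4).prod (JZ p q)) 𝓘(ℝ, ℂ × ℂ × ℂ × (Fin p → ℂ) × (Fin q → ℂ))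
        (f ∘ io p q) x = (fderiv ℝ f (io p q x)).comp D := hm.mfderiv
    rw [hm']
    set L : (EuclideanSpace ℝ (Fin 4) × EuclideanSpace ℝ (Fin (2 * p + 1)) ×
        EuclideanSpace ℝ (Fin (2 * q + 1))) →L[ℝ] (ℂ × ℂ × ℂ × (Fin p → ℂ) × (Fin q → ℂ)) :=
      (fderiv ℝ f (io p q x)).comp D with hL
    have hLi : Function.Injective L := by
      rw [injective_iff_map_eq_zero]
      intro w hw
      have k2 : fderiv ℝ f (io p q x) (D w) = 0 := hw
      obtain ⟨⟨u1, a1, b1⟩, ⟨u2, a2, b2⟩, ⟨u3, a3, b3⟩⟩ := hDo w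
      refine hDi w (hinj (D w) ?_ ?_ ?_ k2)
      · rw [a1]
        exact (e5_tan _ _).2 b1
      · rw [a2]
        exact (eO_tan p _ _).2 b2
      · rw [a3]
        exact (eO_tan q _ _).2 b3
    exact hLi
  · rintro x F ⟨f, hf, rfl⟩ G ⟨g, hg, rfl⟩
    obtain ⟨H, hH, hev⟩ := h.rel (io p q x) (io_mem p q x) f hf g hg
    refine ⟨H, hH, ?_⟩
    have hc : Filter.Tendsto (io p q) (𝓝 x) (𝓝 (io p q x)) := (io_smooth p q).continuous.tendsto x
    filter_upwards [hc.eventually hev] with y hy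
    exact hy

end Pool.Agent.BlowC
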