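import Pool.Agent.Lib.MP_1d980c_gt.Blow.BaseBridgeA
import Pool.Agent.Lib.MP_1d980c_gt.Blow.BaseBridgeB
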