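import Pool.Agent.Lib.MP_1d980c_gt.Blow.MkDefs
import Pool.Agent.Lib.MP_1d980c_gt.Blow.BaseAmbB

/-! Relations of the marked charts. -/

set_option autoImplicit false
open Complex ComplexConjugate Topology Pool.Agent.S4T2
open scoped Manifold ContDiff

namespace Pool.Agent.BlowC

section

variable {p q : ℕ} {s : Side} {C : ℝ} {c : Mark (Sn 4)} {u₀ v₀ φ₀ ψ₀ : A4 → ℂ} {ε μ : ℝ}

theorem mkS_rel (hu : ∀ P, c.u P = u₀ (e5 P.1)) (hv : ∀ P, c.v P = v₀ (e5 P.1))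
    (hx : ∀ P, s.x P = u₀ P * φ₀ P) (hy : ∀ P, s.y P = v₀ P * ψ₀ P)
    (y : Sn 4 × Sn (2 * p + 1) × Sn (2 * q + 1)) (t) (ht : t ∈ MkS s φ₀ ψ₀ ε μ y)
    (t') (ht' : t' ∈ MkS s φ₀ ψ₀ ε μ y) : MRel c.u c.v y t t' := by
  obtain ⟨-, d1, hd1, d2, hd2, rfl⟩ := ht
  obtain ⟨-, d1', hd1', d2', hd2', rfl⟩ := ht'
  obtain ⟨hx1, hx2, hx3⟩ := io_mem p q y
  have t1 := (oddGerms p).trans _ hx2 d1 hd1 d1' hd1'
  have t2 := (oddGerms q).trans _ hx3 d2 hd2 d2' hd2'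
  obtain ⟨h1, h2, H, c1, c2, c3, n1, n2, hev⟩ :=
    ndT_rel (x := io p q y) s φ₀ ψ₀ ε μ t1 t2
  have hch : ∀ y' : Sn 4 × Sn (2 * p + 1) × Sn (2 * q + 1),
      chart c.u c.v ((ndT s φ₀ ψ₀ ε μ d1 d2).comp (io p q)) y' =
        nodeChart s ε μ d1 d2 (io p q y') := by
    intro y'
    rw [nodeChart_eq s u₀ v₀ φ₀ ψ₀ hx hy]
    simp only [chart, hu, hv]
    rfl
  have hio : ContinuousAt (io p q) y := (io_smooth p q).continuous.continuousAt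
  refine ⟨h1, h2, H, ?_, ?_, ?_, ?_, ?_, ?_⟩
  · rw [hch]; exact c1
  · rw [hch]; exact c2
  · rw [hch]; exact c3
  · rw [hch]; exact n1
  · rw [hch]; exact n2
  · filter_upwards [hio.eventually hev] with y' hy'
    rw [hch]
    exact hy'

end

end Pool.Agent.BlowC
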