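import Pool.Agent.Lib.MP_1d980c_gt.Blow.BaseMarkA
import Pool.Agent.Lib.MP_1d980c_gt.Blow.Loc

/-! The marks `south` and `north` are coordinates on hemispheres. -/

set_option autoImplicit false
open Complex ComplexConjugate Topology Pool.Agent.S4T2
open scoped Manifold ContDiff

namespace Pool.Agent.BlowC

private lemma coordAt_lin (L1 L2 : A4 →L[ℝ] ℂ) {P : Sn 4}
    (hL : ∀ w : A4, Tan4 (e5 P.1) w → L1 w = 0 → L2 w = 0 → w = 0) :
    CoordAt (fun Q : Sn 4 => L1 (e5 Q.1)) (fun Q : Sn 4 => L2 (e5 Q.1)) P := by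
  have hs : ContMDiff (𝓡 4) 𝓘(ℝ, A4) ∞ (fun Q : Sn 4 => e5 Q.1) := sph_smooth 4 e5
  obtain ⟨D, hD, hi, ho⟩ := sph_deriv 4 e5 P
  refine coordAt_of (Filter.Eventually.of_forall fun y => ?_)
    (Filter.Eventually.of_forall fun y => ?_) ?_
  · exact (L1.contDiff.contMDiff.comp hs) y
  · exact (L2.contDiff.contMDiff.comp hs) y
  · intro ξ h1 h2
    have k1 : HasMFDerivAt (𝓡 4) 𝓘(ℝ, ℂ) (fun Q : Sn 4 => L1 (e5 Q.1)) P (L1.comp D) :=
      (L1.hasMFDerivAt (x := e5 P.1)).comp P hD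
    have k2 : HasMFDerivAt (𝓡 4) 𝓘(ℝ, ℂ) (fun Q : Sn 4 => L2 (e5 Q.1)) P (L2.comp D) :=
      (L2.hasMFDerivAt (x := e5 P.1)).comp P hD
    rw [k1.mfderiv] at h1
    rw [k2.mfderiv] at h2
    have h1' : L1 (D ξ) = 0 := h1
    have h2' : L2 (D ξ) = 0 := h2
    obtain ⟨u, hu, hin⟩ := ho ξ
    have ht : Tan4 (e5 P.1) (D ξ) := by
      rw [hu]
      exact (e5_tan _ _).2 hin
    exact hi ξ (hL (D ξ) ht h1' h2')

/-- `(Y, X)` are coordinates on the southern hemisphere. -/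
theorem south_coordAt {P : Sn 4} (h : (e5 P.1).2.2 < 0) : CoordAt south.u south.v P := by
  have e1 : south.u = fun Q : Sn 4 =>
      ((ContinuousLinearMap.fst ℝ ℂ ℝ).comp (ContinuousLinearMap.snd ℝ ℂ (ℂ × ℝ))) (e5 Q.1) :=
    funext south_u
  have e2 : south.v = fun Q : Sn 4 => (ContinuousLinearMap.fst ℝ ℂ (ℂ × ℝ)) (e5 Q.1) :=
    funext south_v
  rw [e1, e2]
  refine coordAt_lin _ _ ?_
  intro w ht h1 h2
  have h1' : w.2.1 = 0 := h1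
  have h2' : w.1 = 0 := h2
  unfold Tan4 at ht
  rw [h1', h2', mul_zero, mul_zero, zero_re, zero_add, zero_add] at ht
  have h3 : w.2.2 = 0 := (mul_eq_zero.1 ht).resolve_left h.ne
  exact Prod.ext h2' (Prod.ext h1' h3)

private lemma iota_ker {w : A4} (h1 : w.1 - I * conj w.2.1 = 0) (h2 : w.2.1 + I * conj w.1 = 0) :
    w.1 = 0 ∧ w.2.1 = 0 := by
  have a : w.1 = I * conj w.2.1 := sub_eq_zero.1 h1
  have b : conj w.1 = -(I * w.2.1) := by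
    rw [a, map_mul, conj_conj, conj_I, neg_mul]
  rw [b] at h2
  have c : w.2.1 = 0 := by
    have : w.2.1 + I * -(I * w.2.1) = 2 * w.2.1 := by
      linear_combination (-w.2.1) * I_sq
    rw [this] at h2
    simpa using h2
  refine ⟨?_, c⟩
  rw [a, c]
  simp

theorem north_coordAt {P : Sn 4} (h : 0 < (e5 P.1).2.2) : CoordAt north.u north.v P := by
  have hs2 : ((Real.sqrt 2 : ℝ) : ℂ) ≠ 0 := by
    exact_mod_cast (Real.sqrt_pos.2 (by norm_num : (0 : ℝ) < 2)).ne'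
  let L1 : A4 →L[ℝ] ℂ := ((Real.sqrt 2 : ℝ) : ℂ)⁻¹ •
    (ContinuousLinearMap.fst ℝ ℂ (ℂ × ℝ) - I • ((conjCLE : ℂ →L[ℝ] ℂ).comp
      ((ContinuousLinearMap.fst ℝ ℂ ℝ).comp (ContinuousLinearMap.snd ℝ ℂ (ℂ × ℝ)))))
  let L2 : A4 →L[ℝ] ℂ := ((Real.sqrt 2 : ℝ) : ℂ)⁻¹ •
    ((ContinuousLinearMap.fst ℝ ℂ ℝ).comp (ContinuousLinearMap.snd ℝ ℂ (ℂ × ℝ)) +
      I • ((conjCLE : ℂ →L[ℝ] ℂ).comp (ContinuousLinearMap.fst ℝ ℂ (ℂ × ℝ))))
  have l1 : ∀ w : A4, L1 w = (w.1 - I * conj w.2.1) / ((Real.sqrt 2 : ℝ) : ℂ) := by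
    intro w
    rw [div_eq_inv_mul]
    rfl
  have l2 : ∀ w : A4, L2 w = (w.2.1 + I * conj w.1) / ((Real.sqrt 2 : ℝ) : ℂ) := by
    intro w
    rw [div_eq_inv_mul]
    rfl
  have e1 : north.u = fun Q : Sn 4 => L1 (e5 Q.1) := by
    funext Q
    rw [north_u, l1]
    rfl
  have e2 : north.v = fun Q : Sn 4 => L2 (e5 Q.1) := by
    funext Q
    rw [north_v, l2]
    rfl
  rw [e1, e2]
  refine coordAt_lin _ _ ?_
  intro w ht h1 h2
  rw [l1, div_eq_zero_iff] at h1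
  rw [l2, div_eq_zero_iff] at h2
  obtain ⟨h2', h1'⟩ := iota_ker (h1.resolve_right hs2) (h2.resolve_right hs2)
  unfold Tan4 at ht
  rw [h1', h2', mul_zero, mul_zero, zero_re, zero_add, zero_add] at ht
  have h3 : w.2.2 = 0 := (mul_eq_zero.1 ht).resolve_left h.ne'
  exact Prod.ext h2' (Prod.ext h1' h3)

end Pool.Agent.BlowC
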