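import Pool.Agent.Lib.MP_1d980c_gt.Blow.BaseA
import Pool.Agent.Lib.MP_1d980c_gt.Blow.BaseB
import Pool.Agent.Lib.MP_1d980c_gt.Blow.BaseC
import Pool.Agent.Lib.MP_1d980c_gt.Blow.BaseAmb
import Pool.Agent.Lib.MP_1d980c_gt.Blow.BaseBridge
import Pool.Agent.Lib.MP_1d980c_gt.Blow.BaseMark

/-! The germ atlas of `S⁴ × S^{2p+1} × S^{2q+1}` with its two marks. -/

set_option autoImplicit false
open Complex ComplexConjugate Topology Pool.Agent.S4T2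
open scoped Manifold ContDiff

namespace Pool.Agent.BlowC

section

variable {p q : ℕ} {s : Side} {C : ℝ} {c : Mark (Sn 4)} {u₀ v₀ φ₀ ψ₀ : A4 → ℂ} {ε μ : ℝ}

theorem markFam_of (hs : s.Good C) (hN : e5 c.pt.1 ∈ s.N)
    (hu : ∀ P, c.u P = u₀ (e5 P.1)) (hv : ∀ P, c.v P = v₀ (e5 P.1))
    (hx : ∀ P, s.x P = u₀ P * φ₀ P) (hy : ∀ P, s.y P = v₀ P * ψ₀ P)
    (hφ : ∀ P ∈ S4, P ∈ s.N → ContDiffAt ℝ ∞ φ₀ P ∧ φ₀ P ≠ 0)
    (hψ : ∀ P ∈ S4, P ∈ s.N → ContDiffAt ℝ ∞ ψ₀ P ∧ ψ₀ P ≠ 0)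
    (hcoord : c.Coord)
    (hdom : ∀ P : Sn 4, e5 P.1 ∈ s.N → CoordAt c.u c.v P ∧
      (c.u P = 0 → c.v P = 0 → P = c.pt))
    {Gm : Amb p q → Set (Amb p q → Tgt p q)}
    (hmem : ∀ x ∈ SP p q, sideGerms s ε μ (GO p) (GO q) x ⊆ Gm x) :
    MarkFam (JZ p q) c (GmS Gm) (MkS s φ₀ ψ₀ ε μ) where
  coord := hcoord
  ex := mkS_ex hs hN
  mem := mkS_mem hu hv hx hy hmem
  smooth := mkS_smooth hs hφ hψ
  dom := fun x t ht => hdom x.1 ht.1
  rel := fun x t ht t' ht' => mkS_rel hu hv hx hy x t ht t' ht'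

end

theorem base (p q : ℕ) : ∃ Gm Mc Md, Good (Z := Sn (2 * p + 1) × Sn (2 * q + 1))
    (R := ℂ × (Fin p → ℂ) × (Fin q → ℂ)) (JZ p q) south north Gm Mc Md := by
  obtain ⟨δ, C, μ, hδ, hs, hA⟩ := exists_ambGerms p q
  have hN1 : ∀ P : A4, P ∈ (s4Side δ).N → P.2.2 < 0 := by
    intro P hP
    have h : P.2.2 < -(19 / 20) := hP
    linarith
  have hN2 : ∀ P : A4, P ∈ (s4Side δ).comp.N → 0 < P.2.2 := by
    intro P hP
    have h : -P.2.2 < -(19 / 20) := hP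
    linarith
  refine ⟨GmS (allGerms (s4Side δ) (s4Side δ).comp μ), MkS (s4Side δ) phi0 psi0 1 μ,
    MkS (s4Side δ).comp (phi0 ∘ iota) (psi0 ∘ iota) (-1) μ, south_ne_north,
    bridge_holGerms hA, ?_, ?_⟩
  · have hp : e5 south.pt.1 ∈ (s4Side δ).N := by
      rw [south_pt]
      show (-1 : ℝ) < -(19 / 20)
      norm_num
    refine markFam_of hs hp south_u south_v x0_eq y0_eq
      (fun P hP h => ⟨phi0_smooth hP h, phi0_ne P⟩) (fun P hP h => ⟨psi0_smooth hP h, psi0_ne hP h⟩)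
      ⟨?_, ?_, south_coordAt (hN1 _ hp)⟩ (fun P hP => ⟨south_coordAt (hN1 _ hP),
        fun h1 h2 => south_dom (hN1 _ hP) h1 h2⟩) (fun x _ => Set.subset_union_left)
    · rw [south_u, south_pt]
    · rw [south_v, south_pt]
  · have hp : e5 north.pt.1 ∈ (s4Side δ).comp.N := by
      rw [north_pt]
      show (-1 : ℝ) < -(19 / 20)
      norm_num
    refine markFam_of (u₀ := fun P => (iota P).2.1) (v₀ := fun P => (iota P).1) hs.comp hp
      north_u north_v (fun P => x0_eq (iota P)) (fun P => y0_eq (iota P))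
      (fun P hP h => ⟨(phi0_smooth (iota_mem hP) h).comp P contDiff_iota.contDiffAt,
        phi0_ne _⟩)
      (fun P hP h => ⟨(psi0_smooth (iota_mem hP) h).comp P contDiff_iota.contDiffAt,
        psi0_ne (iota_mem hP) h⟩)
      ⟨?_, ?_, north_coordAt (hN2 _ hp)⟩ (fun P hP => ⟨north_coordAt (hN2 _ hP),
        fun h1 h2 => north_dom (hN2 _ hP) h1 h2⟩) (fun x _ => Set.subset_union_right)
    · rw [north_u, north_pt]; simp [iota]
    · rw [north_v, north_pt]; simp [iota]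

end Pool.Agent.BlowC
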