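import Pool.Agent.Lib.MP_1d980c_gt.Blow.MkDefs
import Pool.Agent.Lib.MP_1d980c_gt.Blow.BaseAmbB

/-! Existence and membership of the marked charts. -/

set_option autoImplicit false
open Complex ComplexConjugate Topology Pool.Agent.S4T2
open scoped Manifold ContDiff

namespace Pool.Agent.BlowC

section

variable {p q : ℕ} {s : Side} {C : ℝ} {c : Mark (Sn 4)} {u₀ v₀ φ₀ ψ₀ : A4 → ℂ} {ε μ : ℝ}

theorem mkS_ex (hs : s.Good C) (hN : e5 c.pt.1 ∈ s.N) (z : Sn (2 * p + 1) × Sn (2 * q + 1)) :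
    ∃ t ∈ MkS (p := p) (q := q) s φ₀ ψ₀ ε μ (c.pt, z),
      ∀ᶠ y in 𝓝 (c.pt, z), t ∈ MkS (p := p) (q := q) s φ₀ ψ₀ ε μ y := by
  obtain ⟨hx1, hx2, hx3⟩ := io_mem p q (c.pt, z)
  have hio : Continuous (io p q) := (io_smooth p q).continuous
  obtain ⟨d1, hd1, e1⟩ := (oddGerms p).ex _ hx2
  obtain ⟨d2, hd2, e2⟩ := (oddGerms q).ex _ hx3
  have e1' : ∀ᶠ y in 𝓝 (c.pt, z), d1 ∈ GO p (io p q y).2.1 :=
    ((continuous_fst.comp continuous_snd).comp hio).continuousAt.eventually e1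
  have e2' : ∀ᶠ y in 𝓝 (c.pt, z), d2 ∈ GO q (io p q y).2.2 :=
    ((continuous_snd.comp continuous_snd).comp hio).continuousAt.eventually e2
  have e3 : ∀ᶠ y in 𝓝 (c.pt, z), (io p q y).1 ∈ s.N :=
    (continuous_fst.comp hio).continuousAt.eventually (hs.openN _ hx1 hN)
  refine ⟨(ndT s φ₀ ψ₀ ε μ d1 d2).comp (io p q), ⟨hN, d1, hd1, d2, hd2, rfl⟩, ?_⟩
  filter_upwards [e1', e2', e3] with y h1 h2 h3
  exact ⟨h3, d1, h1, d2, h2, rfl⟩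

theorem mkS_mem (hu : ∀ P, c.u P = u₀ (e5 P.1)) (hv : ∀ P, c.v P = v₀ (e5 P.1))
    (hx : ∀ P, s.x P = u₀ P * φ₀ P) (hy : ∀ P, s.y P = v₀ P * ψ₀ P)
    {Gm : Amb p q → Set (Amb p q → Tgt p q)}
    (hmem : ∀ x ∈ SP p q, sideGerms s ε μ (GO p) (GO q) x ⊆ Gm x)
    (y : Sn 4 × Sn (2 * p + 1) × Sn (2 * q + 1)) (t) (ht : t ∈ MkS s φ₀ ψ₀ ε μ y) :
    chart c.u c.v t ∈ GmS Gm y := by
  obtain ⟨hN, d1, hd1, d2, hd2, rfl⟩ := ht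
  refine ⟨nodeChart s ε μ d1 d2, hmem _ (io_mem p q y) ⟨d1, hd1, d2, hd2, Or.inr ⟨hN, rfl⟩⟩, ?_⟩
  funext y'
  show _ = nodeChart s ε μ d1 d2 (io p q y')
  rw [nodeChart_eq s u₀ v₀ φ₀ ψ₀ hx hy ε μ d1 d2 (io p q y')]
  show (c.u y'.1 * _, c.v y'.1 * _, _) = _
  rw [hu, hv]
  rfl

end

end Pool.Agent.BlowC
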