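import Pool.Agent.Lib.MP_1d980c_gt.Blow.BADefs

/-! The germs of `S4/Main.lean` are ambient germs. -/

set_option autoImplicit false
open Complex ComplexConjugate Topology Pool.Agent.S4T2
open scoped Manifold ContDiff

namespace Pool.Agent.BlowC

/-- the germs of `Main.lean` are ambient germs. -/
theorem exists_ambGerms (p q : ℕ) : ∃ (δ C μ : ℝ), GoodDelta δ ∧ (s4Side δ).Good C ∧
    AmbGerms p q (allGerms (s4Side δ) (s4Side δ).comp μ) := by
  obtain ⟨δ, hδ⟩ := exists_goodDelta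
  obtain ⟨C, hC, hs⟩ := s4Side_good hδ
  have ht := hs.comp
  have hst := s4Side_cross hδ
  have hμ' : 2 * C < 2 * C + 1 := by linarith
  refine ⟨δ, C, 2 * C + 1, hδ, hs, ⟨?_, ?_, ?_⟩⟩
  · intro x hx
    have hcov := hst.cover x.1 hx.1
    rcases hcov with h | h | h | h
    · obtain ⟨f, hf, e⟩ := sideGerms_ex hs 1 (2 * C + 1) hx (Or.inl h)
      exact ⟨f, Or.inl hf, e.mono fun y hy hy' => Or.inl (hy hy')⟩
    · obtain ⟨f, hf, e⟩ := sideGerms_ex hs 1 (2 * C + 1) hx (Or.inr h)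
      exact ⟨f, Or.inl hf, e.mono fun y hy hy' => Or.inl (hy hy')⟩
    · obtain ⟨f, hf, e⟩ := sideGerms_ex ht (-1) (2 * C + 1) hx (Or.inl h)
      exact ⟨f, Or.inr hf, e.mono fun y hy hy' => Or.inr (hy hy')⟩
    · obtain ⟨f, hf, e⟩ := sideGerms_ex ht (-1) (2 * C + 1) hx (Or.inr h)
      exact ⟨f, Or.inr hf, e.mono fun y hy hy' => Or.inr (hy hy')⟩
  · intro x hx f hf
    rcases hf with hf | hf
    · exact sideGerms_smooth hC hs (Or.inl rfl) hμ' hx hf
    · exact sideGerms_smooth hC ht (Or.inr rfl) hμ' hx hf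
  · intro x hx f hf g hg
    rcases hf with hf | hf <;> rcases hg with hg | hg
    · exact sideGerms_hol hs (Or.inl rfl) hx hf hg
    · exact cross_hol hs ht hst (Or.inl rfl) hx hf hg
    · have hg' : g ∈ sideGerms (s4Side δ) (-(-1)) (2 * C + 1) (GO p) (GO q) x := by
        rwa [neg_neg]
      exact cross_hol ht hs hst.symm (Or.inr rfl) hx hf hg'
    · exact sideGerms_hol ht (Or.inr rfl) hx hf hg

end Pool.Agent.BlowC
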