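import Pool.Agent.Lib.MP_1d980c_gt.Blow.BADefs

/-! The inclusion of the product of the spheres in the ambient space. -/

set_option autoImplicit false
open Complex ComplexConjugate Topology Pool.Agent.S4T2
open scoped Manifold ContDiff

namespace Pool.Agent.BlowC

/-- the map for `S⁴`. -/
private noncomputable def e5Equiv : EuclideanSpace ℝ (Fin 5) ≃ₗ[ℝ] A4 where
  toFun v := (⟨v 2, v 3⟩, ⟨v 0, v 1⟩, v 4)
  map_add' v w := by
    refine Prod.ext ?_ (Prod.ext ?_ ?_)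
    · apply Complex.ext <;> simp
    · apply Complex.ext <;> simp
    · simp
  map_smul' c v := by
    refine Prod.ext ?_ (Prod.ext ?_ ?_)
    · apply Complex.ext <;> simp
    · apply Complex.ext <;> simp
    · simp
  invFun P := WithLp.toLp 2 ![P.2.1.re, P.2.1.im, P.1.re, P.1.im, P.2.2]
  left_inv v := by
    ext i
    fin_cases i <;> rfl
  right_inv P := by
    refine Prod.ext ?_ (Prod.ext ?_ ?_)
    · apply Complex.ext <;> simp
    · apply Complex.ext <;> simp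
    · simp

private lemma e5Equiv_apply (v : EuclideanSpace ℝ (Fin 5)) :
    e5Equiv v = (⟨v 2, v 3⟩, ⟨v 0, v 1⟩, v 4) := rfl

private lemma sq_one_iff {x : ℝ} (hx : 0 ≤ x) : x ^ 2 = 1 ↔ x = 1 := by
  constructor
  · intro h
    nlinarith
  · rintro rfl
    norm_num

/-- `ℝ⁵ ≃ ℂ × ℂ × ℝ` with `X = x₂ + i x₃`, `Y = x₀ + i x₁`, `h = x₄`. -/
theorem exists_e5' : ∃ e : EuclideanSpace ℝ (Fin 5) ≃L[ℝ] A4,
    (∀ v, e v ∈ S4 ↔ ‖v‖ = 1) ∧ (∀ u v, Tan4 (e u) (e v) ↔ inner ℝ u v = 0) ∧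
    ∀ v, e v = (⟨v 2, v 3⟩, ⟨v 0, v 1⟩, v 4) := by
  refine ⟨e5Equiv.toContinuousLinearEquiv, ?_, ?_, fun v => rfl⟩
  · intro v
    change e5Equiv v ∈ S4 ↔ _
    rw [e5Equiv_apply, ← sq_one_iff (norm_nonneg v), EuclideanSpace.norm_sq_eq]
    unfold S4
    rw [Set.mem_ofPred_eq, Fin.sum_univ_five]
    simp only [← Complex.normSq_eq_norm_sq, Complex.normSq_apply, Real.norm_eq_abs, sq_abs]
    constructor <;> intro h <;> linarith
  · intro u v
    change Tan4 (e5Equiv u) (e5Equiv v) ↔ _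
    rw [e5Equiv_apply, e5Equiv_apply, PiLp.inner_apply, Fin.sum_univ_five]
    unfold Tan4
    simp only [mul_re, conj_re, conj_im, RCLike.inner_apply, conj_trivial]
    constructor <;> intro h <;> linarith

/-- the identification. -/
noncomputable def e5 : EuclideanSpace ℝ (Fin 5) ≃L[ℝ] A4 := exists_e5'.choose

theorem e5_mem (v : EuclideanSpace ℝ (Fin 5)) : e5 v ∈ S4 ↔ ‖v‖ = 1 := exists_e5'.choose_spec.1 v

theorem e5_tan (u v : EuclideanSpace ℝ (Fin 5)) : Tan4 (e5 u) (e5 v) ↔ inner ℝ u v = 0 :=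
  exists_e5'.choose_spec.2.1 u v

theorem e5_apply (v : EuclideanSpace ℝ (Fin 5)) : e5 v = (⟨v 2, v 3⟩, ⟨v 0, v 1⟩, v 4) :=
  exists_e5'.choose_spec.2.2 v

/-- the identification for odd spheres. -/
noncomputable def eO (p : ℕ) : EuclideanSpace ℝ (Fin (2 * p + 2)) ≃L[ℝ] (Fin (p + 1) → ℂ) :=
  (exists_eO p).choose

/-- the inclusion of the product of the spheres in the ambient space. -/
noncomputable def io (p q : ℕ) (y : Sn 4 × Sn (2 * p + 1) × Sn (2 * q + 1)) : Amb p q :=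
  (e5 y.1.1, eO p y.2.1.1, eO q y.2.2.1)

/-- the model. -/
noncomputable abbrev JZ (p q : ℕ) := (𝓡 (2 * p + 1)).prod (𝓡 (2 * q + 1))

theorem io_mem (p q : ℕ) (y : Sn 4 × Sn (2 * p + 1) × Sn (2 * q + 1)) : io p q y ∈ SP p q := by
  refine ⟨(e5_mem _).2 ?_, ((exists_eO p).choose_spec.1 _).2 ?_,
    ((exists_eO q).choose_spec.1 _).2 ?_⟩
  · exact mem_sphere_zero_iff_norm.1 y.1.2
  · exact mem_sphere_zero_iff_norm.1 y.2.1.2
  · exact mem_sphere_zero_iff_norm.1 y.2.2.2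

theorem io_smooth (p q : ℕ) : ContMDiff ((𝓡 4).prod (JZ p q)) 𝓘(ℝ, Amb p q) ∞ (io p q) :=
  incl_smooth (n1 := 4) (n2 := 2 * p + 1) (n3 := 2 * q + 1) e5 (eO p) (eO q)

/-- the germs on the product of the spheres. -/
def GmS {p q : ℕ} (Gm : Amb p q → Set (Amb p q → Tgt p q))
    (y : Sn 4 × Sn (2 * p + 1) × Sn (2 * q + 1)) :
    Set (Sn 4 × Sn (2 * p + 1) × Sn (2 * q + 1) → ℂ × ℂ × ℂ × (Fin p → ℂ) × (Fin q → ℂ)) :=
  {F | ∃ f ∈ Gm (io p q y), F = f ∘ io p q}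

end Pool.Agent.BlowC
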