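import Pool.Agent.Lib.MP_1d980c_gt.Blow.BaseBridgeA

/-! The marks `south` and `north`. -/

set_option autoImplicit false
open Complex ComplexConjugate Topology Pool.Agent.S4T2
open scoped Manifold ContDiff

namespace Pool.Agent.BlowC

theorem south_u (P : Sn 4) : south.u P = (e5 P.1).2.1 := by
  rw [e5_apply]
  rfl

theorem south_v (P : Sn 4) : south.v P = (e5 P.1).1 := by
  rw [e5_apply]
  rfl

theorem north_u (P : Sn 4) : north.u P = (iota (e5 P.1)).2.1 := by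
  rw [e5_apply]
  show (⟨P.1 2 - P.1 1, P.1 3 - P.1 0⟩ : ℂ) / (Real.sqrt 2 : ℂ) =
    ((⟨P.1 2, P.1 3⟩ : ℂ) - I * conj (⟨P.1 0, P.1 1⟩ : ℂ)) / (Real.sqrt 2 : ℂ)
  congr 1
  apply Complex.ext <;> simp

theorem north_v (P : Sn 4) : north.v P = (iota (e5 P.1)).1 := by
  rw [e5_apply]
  show (⟨P.1 0 + P.1 3, P.1 1 + P.1 2⟩ : ℂ) / (Real.sqrt 2 : ℂ) =
    ((⟨P.1 0, P.1 1⟩ : ℂ) + I * conj (⟨P.1 2, P.1 3⟩ : ℂ)) / (Real.sqrt 2 : ℂ)
  congr 1
  apply Complex.ext <;> simp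

theorem south_pt : e5 south.pt.1 = (0, 0, -1) := by
  rw [e5_apply]
  refine Prod.ext ?_ (Prod.ext ?_ ?_)
  · apply Complex.ext <;> simp [south]
  · apply Complex.ext <;> simp [south]
  · simp [south]

theorem north_pt : e5 north.pt.1 = (0, 0, 1) := by
  rw [e5_apply]
  refine Prod.ext ?_ (Prod.ext ?_ ?_)
  · apply Complex.ext <;> simp [north]
  · apply Complex.ext <;> simp [north]
  · simp [north]

private lemma e5_sph (P : Sn 4) : e5 P.1 ∈ S4 := by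
  rw [e5_mem]
  simp

private lemma e5_inj {P Q : Sn 4} (h : e5 P.1 = e5 Q.1) : P = Q :=
  Subtype.ext (e5.injective h)

theorem south_dom {P : Sn 4} (h : (e5 P.1).2.2 < 0) (hu : south.u P = 0) (hv : south.v P = 0) :
    P = south.pt := by
  rw [south_u] at hu
  rw [south_v] at hv
  have hS : ‖(e5 P.1).1‖ ^ 2 + ‖(e5 P.1).2.1‖ ^ 2 + (e5 P.1).2.2 ^ 2 = 1 := e5_sph P
  rw [hu, hv, norm_zero] at hS
  have h1 : (e5 P.1).2.2 = -1 := by nlinarith
  apply e5_inj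
  rw [south_pt]
  exact Prod.ext hv (Prod.ext hu h1)

theorem north_dom {P : Sn 4} (h : 0 < (e5 P.1).2.2) (hu : north.u P = 0) (hv : north.v P = 0) :
    P = north.pt := by
  rw [north_u] at hu
  rw [north_v] at hv
  have hS : ‖(iota (e5 P.1)).1‖ ^ 2 + ‖(iota (e5 P.1)).2.1‖ ^ 2 + (iota (e5 P.1)).2.2 ^ 2 = 1 :=
    iota_mem (e5_sph P)
  rw [hu, hv, norm_zero] at hS
  have h3 : (iota (e5 P.1)).2.2 = -(e5 P.1).2.2 := rfl
  rw [h3] at hS
  have h1 : (e5 P.1).2.2 = 1 := by nlinarith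
  apply e5_inj
  rw [north_pt]
  have h4 : iota (e5 P.1) = (0, 0, -1) :=
    Prod.ext hv (Prod.ext hu (by rw [h3, h1]))
  have h5 : iota (iota (e5 P.1)) = e5 P.1 := iota_iota _
  rw [← h5, h4]
  simp [iota]

theorem south_ne_north : south.pt ≠ north.pt := by
  intro h
  have h1 : e5 south.pt.1 = e5 north.pt.1 := by rw [h]
  rw [south_pt, north_pt] at h1
  have h2 : (-1 : ℝ) = 1 := congrArg (fun z : A4 => z.2.2) h1
  norm_num at h2

end Pool.Agent.BlowC
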