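import Pool.Agent.Lib.MP_1d980c_gt.Blow.BGerm

/-! Existence of blow-ups. -/

set_option autoImplicit false
open Topology Complex ComplexConjugate
open scoped Manifold ContDiff

namespace Pool.Agent.BlowC

section

variable {N : Type} [TopologicalSpace N] [ChartedSpace E4 N] [IsManifold (𝓡 4) ∞ N] [T2Space N]
  {c : Mark N} {b : BData N} [ChartedSpace E4 b.BSet] [IsManifold (𝓡 4) ∞ b.BSet]

/-- the charted space structure makes the germs smooth. -/
def Cpt (c : Mark N) (b : BData N) [ChartedSpace E4 b.BSet] : Prop :=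
  ∀ y, ∀ f ∈ GmR c b y, ContMDiffAt (𝓡 4) 𝓘(ℝ, E4) ∞ f y ∧
    Function.Bijective (mfderiv (𝓡 4) 𝓘(ℝ, E4) f y)

end

end Pool.Agent.BlowC
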