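import Pool.Agent.Lib.MP_1d980c_gt.Blow.Defs

/-! A smooth manifold from a family of germs of local homeomorphisms. -/

set_option autoImplicit false
open Topology
open scoped Manifold ContDiff

namespace Pool.Agent.BlowC

theorem real_of_germs {E M : Type} [NormedAddCommGroup E] [NormedSpace ℝ E]
    [FiniteDimensional ℝ E] [TopologicalSpace M] (Gm : M → Set (M → E))
    (h1 : ∀ x, ∃ f ∈ Gm x, ∀ᶠ y in 𝓝 x, f ∈ Gm y)
    (h2 : ∀ x, ∀ f ∈ Gm x, ∃ e : OpenPartialHomeomorph M E, x ∈ e.source ∧
      ∀ y ∈ e.source, e y = f y)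
    (h3 : ∀ x, ∀ f ∈ Gm x, ∀ g ∈ Gm x, ∃ H : E → E, ContDiffAt ℝ ∞ H (f x) ∧
      ∀ᶠ y in 𝓝 x, g y = H (f y)) :
    ∃ _ : ChartedSpace E M, IsManifold 𝓘(ℝ, E) ∞ M ∧ ∀ x, ∀ f ∈ Gm x,
      ContMDiffAt 𝓘(ℝ, E) 𝓘(ℝ, E) ∞ f x ∧
      Function.Bijective (mfderiv 𝓘(ℝ, E) 𝓘(ℝ, E) f x) := by
  classical
  have key : ∀ x : M, ∃ (f : M → E) (e : OpenPartialHomeomorph M E), x ∈ e.source ∧
      (∀ y ∈ e.source, e y = f y) ∧ ∀ y ∈ e.source, f ∈ Gm y := by
    intro x
    obtain ⟨f, hf, hev⟩ := h1 x
    obtain ⟨e, he1, he2⟩ := h2 x f hf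
    obtain ⟨s, hs1, hs2, hs3⟩ := eventually_nhds_iff.1 hev
    refine ⟨f, e.restrOpen s hs2, ?_, ?_, ?_⟩
    · rw [OpenPartialHomeomorph.restrOpen_source]
      exact ⟨he1, hs3⟩
    · intro y hy
      rw [OpenPartialHomeomorph.restrOpen_source] at hy
      exact he2 y hy.1
    · intro y hy
      rw [OpenPartialHomeomorph.restrOpen_source] at hy
      exact hs1 y hy.2
  choose f e he1 he2 he3 using key
  have hev : ∀ x, ∀ y ∈ (e x).source, ∀ᶠ y' in 𝓝 y, e x y' = f x y' := by
    intro x y hy
    filter_upwards [(e x).open_source.mem_nhds hy] with y' hy' using he2 x y' hy'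
  let cs : ChartedSpace E M :=
    { atlas := {e' | ∃ x, e' = e x}
      chartAt := fun x => e x
      mem_chart_source := fun x => he1 x
      chart_mem_atlas := fun x => ⟨x, rfl⟩ }
  refine ⟨cs, ?_, ?_⟩
  · apply isManifold_of_contDiffOn
    rintro _ _ ⟨x, rfl⟩ ⟨x', rfl⟩
    intro z hz
    apply ContDiffAt.contDiffWithinAt
    simp only [modelWithCornersSelf_coe_symm, modelWithCornersSelf_coe, Set.preimage_id,
      Set.range_id, Set.inter_univ, OpenPartialHomeomorph.trans_source,
      OpenPartialHomeomorph.symm_source, Set.mem_inter_iff, Set.mem_preimage] at hz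
    obtain ⟨hz1, hz2⟩ := hz
    set y : M := (e x).symm z with hy
    have hy1 : y ∈ (e x).source := (e x).map_target hz1
    have hyz : e x y = z := (e x).right_inv hz1
    obtain ⟨G, hG1, hG2⟩ := h3 y (f x) (he3 x y hy1) (f x') (he3 x' y hz2)
    rw [← he2 x y hy1, hyz] at hG1
    refine hG1.congr_of_eventuallyEq ?_
    have hc : Filter.Tendsto (e x).symm (𝓝 z) (𝓝 y) := (e x).continuousAt_symm hz1
    have h4 := hc.eventually hG2
    have h5 := hc.eventually (hev x y hy1)
    have h6 := hc.eventually (hev x' y hz2)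
    filter_upwards [h4, h5, h6, (e x).open_target.mem_nhds hz1] with z' h4' h5' h6' h7'
    change e x' ((e x).symm z') = G z'
    rw [h6', h4', ← h5', (e x).right_inv h7']
  · intro x g hg
    obtain ⟨H, hH1, hH2⟩ := h3 x (f x) (he3 x x (he1 x)) g hg
    obtain ⟨K, hK1, hK2⟩ := h3 x g hg (f x) (he3 x x (he1 x))
    obtain ⟨e', he'1, he'2⟩ := h2 x g hg
    set z : E := e x x with hz
    have hzt : z ∈ (e x).target := (e x).map_source (he1 x)
    have hzx : (e x).symm z = x := (e x).left_inv (he1 x)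
    have hzf : f x x = z := (he2 x x (he1 x)).symm
    have hc : Filter.Tendsto (e x).symm (𝓝 z) (𝓝 x) := by
      have := (e x).continuousAt_symm hzt
      rw [ContinuousAt, hzx] at this
      exact this
    -- `g` in the chart
    have hgH : (fun a => g ((e x).symm a)) =ᶠ[𝓝 z] H := by
      filter_upwards [hc.eventually hH2, hc.eventually (hev x x (he1 x)),
        (e x).open_target.mem_nhds hzt] with a h4 h5 h6
      change g ((e x).symm a) = H a
      rw [h4, ← h5, (e x).right_inv h6]
    have hgc : ContinuousAt g x := by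
      have h4 : ContinuousAt e' x := e'.continuousAt he'1
      refine h4.congr ?_
      filter_upwards [e'.open_source.mem_nhds he'1] with y hy using he'2 y hy
    rw [hzf] at hH1
    have hcd : ContDiffAt ℝ ∞ (fun a => g ((e x).symm a)) z := hH1.congr_of_eventuallyEq hgH
    have hsm : ContMDiffAt 𝓘(ℝ, E) 𝓘(ℝ, E) ∞ g x := by
      rw [contMDiffAt_iff]
      refine ⟨hgc, ?_⟩
      exact hcd.contDiffWithinAt
    refine ⟨hsm, ?_⟩
    have hmf : mfderiv 𝓘(ℝ, E) 𝓘(ℝ, E) g x = fderiv ℝ (fun a => g ((e x).symm a)) z := by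
      rw [MDifferentiableAt.mfderiv (hsm.mdifferentiableAt (by simp))]
      rw [modelWithCornersSelf_coe, Set.range_id, fderivWithin_univ]
      rfl
    rw [hmf, hgH.fderiv_eq]
    -- the two compositions
    have hHz : H z = g x := by
      have := hgH.eq_of_nhds
      rw [← this]
      change g ((e x).symm z) = g x
      rw [hzx]
    have hKg : K (g x) = z := by
      have := hK2.self_of_nhds
      rw [← this, hzf]
    have hHd : HasFDerivAt H (fderiv ℝ H z) z :=
      (hH1.differentiableAt (by simp)).hasFDerivAt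
    have hKd : HasFDerivAt K (fderiv ℝ K (g x)) (g x) :=
      (hK1.differentiableAt (by simp)).hasFDerivAt
    have hKH : (fun a => K (H a)) =ᶠ[𝓝 z] id := by
      filter_upwards [hgH, hc.eventually hK2, hc.eventually (hev x x (he1 x)),
        (e x).open_target.mem_nhds hzt] with a h4 h5 h6 h7
      change K (H a) = a
      rw [← h4, ← h5, ← h6, (e x).right_inv h7]
    have hgx : g x = e' x := (he'2 x he'1).symm
    have ht' : g x ∈ e'.target := by rw [hgx]; exact e'.map_source he'1
    have hc' : Filter.Tendsto e'.symm (𝓝 (g x)) (𝓝 x) := by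
      have := e'.continuousAt_symm ht'
      rw [ContinuousAt, hgx, e'.left_inv he'1, ← hgx] at this
      exact this
    have hHK : (fun a => H (K a)) =ᶠ[𝓝 (g x)] id := by
      filter_upwards [hc'.eventually hH2, hc'.eventually hK2,
        e'.open_target.mem_nhds ht'] with a h4 h5 h6
      have h7 : g (e'.symm a) = a := by
        rw [← he'2 _ (e'.map_target h6), e'.right_inv h6]
      change H (K a) = a
      rw [h7] at h4 h5
      rw [← h5, ← h4]
    have hd1 : (fderiv ℝ K (g x)).comp (fderiv ℝ H z) = ContinuousLinearMap.id ℝ E := by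
      have h4 : HasFDerivAt (fun a => K (H a)) ((fderiv ℝ K (g x)).comp (fderiv ℝ H z)) z := by
        apply HasFDerivAt.comp z _ hHd
        rw [hHz]
        exact hKd
      exact h4.unique ((hasFDerivAt_id z).congr_of_eventuallyEq hKH)
    have hd2 : (fderiv ℝ H z).comp (fderiv ℝ K (g x)) = ContinuousLinearMap.id ℝ E := by
      have h4 : HasFDerivAt (fun a => H (K a)) ((fderiv ℝ H z).comp (fderiv ℝ K (g x)))
          (g x) := by
        apply HasFDerivAt.comp (g x) _ hKd
        rw [hKg]
        exact hHd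
      exact h4.unique ((hasFDerivAt_id (g x)).congr_of_eventuallyEq hHK)
    constructor
    · intro a b hab
      have h4 : ∀ c : E, fderiv ℝ K (g x) (fderiv ℝ H z c) = c := fun c => by
        have := congrArg (fun T : E →L[ℝ] E => T c) hd1
        exact this
      rw [← h4 a, ← h4 b]
      exact congrArg _ hab
    · intro b
      refine ⟨fderiv ℝ K (g x) b, ?_⟩
      have := congrArg (fun T : E →L[ℝ] E => T b) hd2
      exact this

end Pool.Agent.BlowC
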