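import Pool.Agent.Lib.MP_1d980c_gt.Blow.BlowExistB
import Pool.Agent.Lib.MP_1d980c_gt.Blow.RealGerms

/-! Existence of blow-ups. -/

set_option autoImplicit false
open Topology Complex ComplexConjugate
open scoped Manifold ContDiff

namespace Pool.Agent.BlowC

theorem exists_blowup {N : Type} [TopologicalSpace N] [ChartedSpace E4 N]
    [IsManifold (𝓡 4) ∞ N] [T2Space N] [CompactSpace N] (c : Mark N) (hc : c.Coord) :
    ∃ (M : Type) (_ : TopologicalSpace M) (_ : ChartedSpace E4 M) (β : M → N) (c' : Mark M),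
      IsManifold (𝓡 4) ∞ M ∧ T2Space M ∧ CompactSpace M ∧ IsBlowUp β c c' := by
  obtain ⟨b, S⟩ := exists_setup hc
  obtain ⟨cs, h1, h2⟩ := real_of_germs (E := E4) (M := b.BSet) (GmR c b) (gmR_ex S)
    (gmR_homeo S) (fun y f hf g hg => gmR_rel S y f hf g hg)
  obtain ⟨c', h3⟩ := isBlowUp (N := N) S h2
  exact ⟨b.BSet, inferInstance, cs, b.bd, c', h1, inferInstance, b.BSet_compact, h3⟩

theorem exists_pull {M N : Type} [TopologicalSpace M] [ChartedSpace E4 M] [TopologicalSpace N]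
    [ChartedSpace E4 N] {β : M → N} {c : Mark N} {c' : Mark M} (h : IsBlowUp β c c') (d : Mark N)
    (hne : d.pt ≠ c.pt) : ∃ d', Pull β d d' := by
  obtain ⟨y, hy, -⟩ := h.off d.pt hne
  exact ⟨⟨y, d.u ∘ β, d.v ∘ β⟩, hy, rfl, rfl⟩

end Pool.Agent.BlowC
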