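import Pool.Agent.Lib.MP_1d980c_gt.Blow.BlowExDefs

/-! Coordinates and smoothness on the blow-up. -/

set_option autoImplicit false
open Topology Complex ComplexConjugate
open scoped Manifold ContDiff

namespace Pool.Agent.BlowC

private theorem linComp {M A B : Type} [TopologicalSpace M] [ChartedSpace E4 M]
    [NormedAddCommGroup A] [NormedSpace ℝ A] [NormedAddCommGroup B] [NormedSpace ℝ B]
    (L : A ≃L[ℝ] B) {g : M → A} {y : M} (h1 : ContMDiffAt (𝓡 4) 𝓘(ℝ, A) ∞ g y) :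
    ContMDiffAt (𝓡 4) 𝓘(ℝ, B) ∞ (fun y => L (g y)) y := by
  have h3 : ContMDiffAt 𝓘(ℝ, A) 𝓘(ℝ, B) ∞ (fun a => L a) (g y) := L.contDiff.contMDiff _
  exact h3.comp y h1

private theorem linComp' {M A B : Type} [TopologicalSpace M] [ChartedSpace E4 M]
    [NormedAddCommGroup A] [NormedSpace ℝ A] [NormedAddCommGroup B] [NormedSpace ℝ B]
    (L : A ≃L[ℝ] B) {g : M → A} {g' : M → B} {y : M} (hg' : ∀ y, g' y = L (g y))
    (h1 : ContMDiffAt (𝓡 4) 𝓘(ℝ, A) ∞ g y)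
    (h2 : Function.Bijective (mfderiv (𝓡 4) 𝓘(ℝ, A) g y)) :
    Function.Bijective (mfderiv (𝓡 4) 𝓘(ℝ, B) g' y) := by
  obtain rfl : g' = fun y => L (g y) := funext hg'
  have hL : MDifferentiableAt 𝓘(ℝ, A) 𝓘(ℝ, B) (fun a => L a) (g y) :=
    L.differentiableAt.mdifferentiableAt
  have h4 : mfderiv (𝓡 4) 𝓘(ℝ, B) (fun y => L (g y)) y =
      (mfderiv 𝓘(ℝ, A) 𝓘(ℝ, B) (fun a => L a) (g y)).comp (mfderiv (𝓡 4) 𝓘(ℝ, A) g y) :=
    mfderiv_comp y hL (h1.mdifferentiableAt (by simp))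
  have h5 : mfderiv 𝓘(ℝ, A) 𝓘(ℝ, B) (fun a => L a) (g y) = (L : A →L[ℝ] B) := by
    rw [mfderiv_eq_fderiv]
    exact L.fderiv
  rw [h4, h5]
  exact L.bijective.comp h2

section

variable {N : Type} [TopologicalSpace N] [ChartedSpace E4 N] [IsManifold (𝓡 4) ∞ N] [T2Space N]
  {c : Mark N} {b : BData N} [ChartedSpace E4 b.BSet] [IsManifold (𝓡 4) ∞ b.BSet]

omit [ChartedSpace E4 N] [IsManifold (𝓡 4) ∞ N] [ChartedSpace E4 b.BSet]
  [IsManifold (𝓡 4) ∞ b.BSet] in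
private theorem S1_open : IsOpen b.S1 := by
  obtain ⟨f, hf, -⟩ := b.exists_chart1
  exact hf ▸ f.open_source

omit [ChartedSpace E4 N] [IsManifold (𝓡 4) ∞ N] [ChartedSpace E4 b.BSet]
  [IsManifold (𝓡 4) ∞ b.BSet] in
private theorem S2_open : IsOpen b.S2 := by
  obtain ⟨f, hf, -⟩ := b.exists_chart2
  exact hf ▸ f.open_source

theorem coord1 (S : BSetup c b) (hC : Cpt c b) {y : b.BSet} (h : y ∈ b.S1) :
    CoordAt (c.u ∘ b.bd) b.sl y := by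
  have key : ∀ y' ∈ b.S1, ContMDiffAt (𝓡 4) 𝓘(ℝ, ℂ × ℂ) ∞
      (fun y => ((c.u ∘ b.bd) y, b.sl y)) y' ∧
      Function.Bijective (mfderiv (𝓡 4) 𝓘(ℝ, ℂ × ℂ) (fun y => ((c.u ∘ b.bd) y, b.sl y)) y') := by
    intro y' hy'
    obtain ⟨h1, h2⟩ := hC y' (fun y => T4 (c.u (b.bd y), b.sl y)) (Or.inr (Or.inl ⟨hy', rfl⟩))
    have h3 := linComp T4.symm h1
    simp only [ContinuousLinearEquiv.symm_apply_apply] at h3
    exact ⟨h3, linComp' T4.symm (fun y => (T4.symm_apply_apply _).symm) h1 h2⟩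
  refine ⟨?_, (key y h).2⟩
  filter_upwards [S1_open.mem_nhds h] with y' hy'
  exact (key y' hy').1

theorem coord2 (S : BSetup c b) (hC : Cpt c b) {y : b.BSet} (h : y ∈ b.S2) :
    CoordAt (fun y => (b.sl y)⁻¹) (c.v ∘ b.bd) y := by
  have key : ∀ y' ∈ b.S2, ContMDiffAt (𝓡 4) 𝓘(ℝ, ℂ × ℂ) ∞
      (fun y => ((b.sl y)⁻¹, (c.v ∘ b.bd) y)) y' ∧
      Function.Bijective (mfderiv (𝓡 4) 𝓘(ℝ, ℂ × ℂ)
        (fun y => ((b.sl y)⁻¹, (c.v ∘ b.bd) y)) y') := by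
    intro y' hy'
    obtain ⟨h1, h2⟩ := hC y' (fun y => T4 ((b.sl y)⁻¹, c.v (b.bd y)))
      (Or.inr (Or.inr ⟨hy', rfl⟩))
    have h3 := linComp T4.symm h1
    simp only [ContinuousLinearEquiv.symm_apply_apply] at h3
    exact ⟨h3, linComp' T4.symm (fun y => (T4.symm_apply_apply _).symm) h1 h2⟩
  refine ⟨?_, (key y h).2⟩
  filter_upwards [S2_open.mem_nhds h] with y' hy'
  exact (key y' hy').1

/-- a germ of the first kind, from a chart of `N`. -/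
private theorem off_germ (hC : Cpt c b) {y : b.BSet} (hy : b.bd y ≠ b.p) :
    ∃ f : N → E4, ContMDiffAt (𝓡 4) 𝓘(ℝ, E4) ∞ f (b.bd y) ∧
      Function.Bijective (mfderiv (𝓡 4) 𝓘(ℝ, E4) f (b.bd y)) ∧
      ContMDiffAt (𝓡 4) 𝓘(ℝ, E4) ∞ (fun y' => f (b.bd y')) y ∧
      Function.Bijective (mfderiv (𝓡 4) 𝓘(ℝ, E4) (fun y' => f (b.bd y')) y) := by
  have hx : b.bd y ∈ (chartAt E4 (b.bd y)).source := mem_chart_source _ _
  have h1 : ContMDiffAt (𝓡 4) 𝓘(ℝ, E4) ∞ (extChartAt (𝓡 4) (b.bd y)) (b.bd y) :=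
    contMDiffAt_extChartAt' hx
  have h2 : Function.Bijective (mfderiv (𝓡 4) 𝓘(ℝ, E4) (extChartAt (𝓡 4) (b.bd y)) (b.bd y)) := by
    obtain ⟨e, he⟩ := isInvertible_mfderiv_extChartAt (I := 𝓡 4) (x := b.bd y) (y := b.bd y)
        (mem_extChartAt_source _)
    rw [← he]
    exact e.bijective
  obtain ⟨h3, h4⟩ := hC y (fun y' => extChartAt (𝓡 4) (b.bd y) (b.bd y'))
    (Or.inl ⟨hy, _, h1, h2, rfl⟩)
  exact ⟨_, h1, h2, h3, h4⟩

theorem bd_smooth (S : BSetup c b) (hC : Cpt c b) : ContMDiff (𝓡 4) (𝓡 4) ∞ b.bd := by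
  intro y
  by_cases hy : b.bd y = b.p
  · have hD : b.bd y ∈ b.D := by
      rw [hy]; exact b.p_mem_D
    have hsrc : ∀ᶠ y' in 𝓝 y, b.bd y' ∈ b.e.source :=
      b.bd_continuous.continuousAt.eventually (b.e.open_source.mem_nhds hD.1)
    have hev : ∀ᶠ y' in 𝓝 y, b.bd y' = b.e.symm (b.e (b.bd y')) := by
      filter_upwards [hsrc] with y' h1
      exact (b.e.left_inv h1).symm
    have hmain : ContMDiffAt (𝓡 4) 𝓘(ℝ, ℂ × ℂ) ∞ (fun y' => b.e (b.bd y')) y →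
        ContMDiffAt (𝓡 4) (𝓡 4) ∞ b.bd y := by
      intro h1
      have h2 : ContMDiffAt 𝓘(ℝ, ℂ × ℂ) (𝓡 4) ∞ b.e.symm (b.e (b.bd y)) :=
        S.hs _ (b.e.map_source hD.1)
      have h3 : ContMDiffAt (𝓡 4) (𝓡 4) ∞ (fun y' => b.e.symm (b.e (b.bd y'))) y :=
        ContMDiffAt.comp (g := b.e.symm) (f := fun y' => b.e (b.bd y')) y h2 h1
      exact h3.congr_of_eventuallyEq hev
    apply hmain
    rcases b.S12_cover hD with h | h
    · have hc := coord1 S hC h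
      have hL : ContMDiffAt 𝓘(ℝ, ℂ × ℂ) 𝓘(ℝ, ℂ × ℂ) ∞ (fun q : ℂ × ℂ => (q.1, q.2 * q.1))
          ((c.u ∘ b.bd) y, b.sl y) :=
        (contDiff_fst.prodMk (contDiff_snd.mul contDiff_fst)).contMDiff _
      have hp := ContMDiffAt.comp (g := fun q : ℂ × ℂ => (q.1, q.2 * q.1))
        (f := fun y => ((c.u ∘ b.bd) y, b.sl y)) y hL hc.smooth_uv
      refine hp.congr_of_eventuallyEq ?_
      filter_upwards [hsrc, S1_open.mem_nhds h] with y' h1 h2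
      have h3 := b.sl_mul h2
      rw [S.he _ h1] at h3 ⊢
      show (c.u (b.bd y'), c.v (b.bd y')) = (c.u (b.bd y'), b.sl y' * c.u (b.bd y'))
      rw [← h3]
    · have hc := coord2 S hC h
      have hL : ContMDiffAt 𝓘(ℝ, ℂ × ℂ) 𝓘(ℝ, ℂ × ℂ) ∞ (fun q : ℂ × ℂ => (q.1 * q.2, q.2))
          ((b.sl y)⁻¹, (c.v ∘ b.bd) y) :=
        ((contDiff_fst.mul contDiff_snd).prodMk contDiff_snd).contMDiff _
      have hp := ContMDiffAt.comp (g := fun q : ℂ × ℂ => (q.1 * q.2, q.2))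
        (f := fun y => ((b.sl y)⁻¹, (c.v ∘ b.bd) y)) y hL hc.smooth_uv
      refine hp.congr_of_eventuallyEq ?_
      filter_upwards [hsrc, S2_open.mem_nhds h] with y' h1 h2
      have h3 := b.sl_inv_mul h2
      rw [S.he _ h1] at h3 ⊢
      show (c.u (b.bd y'), c.v (b.bd y')) = ((b.sl y')⁻¹ * c.v (b.bd y'), c.v (b.bd y'))
      rw [← h3]
  · obtain ⟨f, h1, h2, h3, h4⟩ := off_germ hC hy
    obtain ⟨e, he1, he2, he3⟩ := exists_local_inv_at h1 h2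
    have h5 : ContMDiffAt (𝓡 4) (𝓡 4) ∞ (fun y' => e.symm (f (b.bd y'))) y :=
      ContMDiffAt.comp (g := e.symm) (f := fun y' => f (b.bd y')) y he3 h3
    refine h5.congr_of_eventuallyEq ?_
    have h6 : ∀ᶠ y' in 𝓝 y, b.bd y' ∈ e.source :=
      b.bd_continuous.continuousAt.eventually (e.open_source.mem_nhds he1)
    filter_upwards [h6] with y' h7
    rw [← he2 _ h7, e.left_inv h7]

theorem bd_deriv (S : BSetup c b) (hC : Cpt c b) {y : b.BSet} (hy : b.bd y ≠ b.p) :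
    Function.Bijective (mfderiv (𝓡 4) (𝓡 4) b.bd y) := by
  obtain ⟨f, h1, h2, h3, h4⟩ := off_germ hC hy
  have h5 : mfderiv (𝓡 4) 𝓘(ℝ, E4) (fun y' => f (b.bd y')) y =
      (mfderiv (𝓡 4) 𝓘(ℝ, E4) f (b.bd y)).comp (mfderiv (𝓡 4) (𝓡 4) b.bd y) :=
    mfderiv_comp y (h1.mdifferentiableAt (by simp))
      (((bd_smooth S hC) y).mdifferentiableAt (by simp))
  rw [h5] at h4
  have h6 : Function.Bijective ((mfderiv (𝓡 4) 𝓘(ℝ, E4) f (b.bd y)) ∘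
      (mfderiv (𝓡 4) (𝓡 4) b.bd y)) := h4
  exact (Function.Bijective.of_comp_iff' h2 _).mp h6

end

end Pool.Agent.BlowC
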