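import Pool.Agent.Lib.MP_1d980c_gt.Blow.BlowExistA

/-! The blow-down map is a blow-up. -/

set_option autoImplicit false
open Topology Complex ComplexConjugate
open scoped Manifold ContDiff

namespace Pool.Agent.BlowC

section

variable {N : Type} [TopologicalSpace N] [ChartedSpace E4 N] [IsManifold (𝓡 4) ∞ N] [T2Space N]
  {c : Mark N} {b : BData N} [ChartedSpace E4 b.BSet] [IsManifold (𝓡 4) ∞ b.BSet]

theorem isBlowUp (S : BSetup c b) (hC : Cpt c b) :
    ∃ c' : Mark b.BSet, IsBlowUp b.bd c c' := by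
  obtain ⟨s, hinj, hrange, hfin, hinf1, hinf2⟩ := b.exists_s
  have hS1 : IsOpen b.S1 := by
    obtain ⟨f, hf, _⟩ := b.exists_chart1
    rw [← hf]
    exact f.open_source
  have hS2 : IsOpen b.S2 := by
    obtain ⟨f, hf, _⟩ := b.exists_chart2
    rw [← hf]
    exact f.open_source
  refine ⟨⟨s (0 : ℂ), c.u ∘ b.bd, b.sl⟩, ?_⟩
  refine
    { smooth := bd_smooth S hC
      off := ?_
      offd := ?_
      hu := rfl
      fibre := ?_ }
  · intro x hx
    rw [← S.hp] at hx
    obtain ⟨f, hf1, hf2, hf3⟩ := b.exists_off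
    have hxt : x ∈ f.target := by
      rw [hf2]
      exact hx
    refine ⟨f.symm x, ?_, ?_⟩
    · show b.bd (f.symm x) = x
      rw [← hf3, f.right_inv hxt]
    · intro y hy
      have hy' : b.bd y = x := hy
      have hys : y ∈ f.source := by
        rw [hf1]
        show b.bd y ≠ b.p
        rw [hy']
        exact hx
      rw [← f.left_inv hys, hf3, hy']
  · intro y hy
    rw [← S.hp] at hy
    exact bd_deriv S hC hy
  · refine ⟨s, hinj, ?_, rfl, ?_, hinf1, coord2 S hC hinf2, ?_⟩
    · rw [hrange, S.hp]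
    · intro a
      obtain ⟨h1, h2⟩ := hfin a
      refine ⟨h1, coord1 S hC h2, ?_⟩
      filter_upwards [hS1.mem_nhds h2] with y hy
      have h3 := b.sl_mul hy
      rw [S.he _ hy.1.1] at h3
      exact h3
    · filter_upwards [hS2.mem_nhds hinf2] with y hy
      have h3 := b.sl_inv_mul hy
      rw [S.he _ hy.1.1] at h3
      exact h3

end

end Pool.Agent.BlowC
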