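import Mathlib

/-!
# Blow-ups of smooth four-manifolds in complex coordinates
-/

set_option autoImplicit false
open Topology
open scoped Manifold ContDiff

namespace Pool.Agent.BlowC

/-- the model space of the four-manifolds. -/
abbrev E4 : Type := EuclideanSpace ℝ (Fin 4)

/-- A point of `M` with two complex valued functions. -/
structure Mark (M : Type) where
  pt : M
  u : M → ℂ
  v : M → ℂ

section

variable {M N : Type} [TopologicalSpace M] [ChartedSpace E4 M] [TopologicalSpace N]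
  [ChartedSpace E4 N]

/-- `(u, v)` are smooth complex coordinates near `x`: the map `(u, v) : M → ℂ²` is smooth near `x`
with invertible (real) derivative at `x`. -/
def CoordAt (u v : M → ℂ) (x : M) : Prop :=
  (∀ᶠ y in 𝓝 x, ContMDiffAt (𝓡 4) 𝓘(ℝ, ℂ × ℂ) ∞ (fun y => (u y, v y)) y) ∧
    Function.Bijective (mfderiv (𝓡 4) 𝓘(ℝ, ℂ × ℂ) (fun y => (u y, v y)) x)

/-- `(u, v)` are smooth complex coordinates centred at the point of the mark. -/
def Mark.Coord (c : Mark M) : Prop := c.u c.pt = 0 ∧ c.v c.pt = 0 ∧ CoordAt c.u c.v c.pt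

/-- `β : M → N` is the blow-up of `N` at the point of `c` in the complex coordinates `(u, v)` of
`c`, and `c'` is the point of slope `0` of the exceptional curve with the complex coordinates
`(u ∘ β, v / u)`. The exceptional curve `β⁻¹(pt)` is parametrized by the slopes
`a ∈ ℂ ∪ {∞} = CP¹`; near the point of slope `∞` the complex coordinates are `(u / v, v ∘ β)`. -/
structure IsBlowUp (β : M → N) (c : Mark N) (c' : Mark M) : Prop where
  smooth : ContMDiff (𝓡 4) (𝓡 4) ∞ β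
  off : ∀ x, x ≠ c.pt → ∃! y, β y = x
  offd : ∀ y, β y ≠ c.pt → Function.Bijective (mfderiv (𝓡 4) (𝓡 4) β y)
  hu : c'.u = c.u ∘ β
  fibre : ∃ s : OnePoint ℂ → M,
    Function.Injective s ∧ Set.range s = β ⁻¹' {c.pt} ∧ s (0 : ℂ) = c'.pt ∧
    (∀ a : ℂ, c'.v (s a) = a ∧ CoordAt c'.u c'.v (s a) ∧
      ∀ᶠ y in 𝓝 (s a), c.v (β y) = c'.v y * c.u (β y)) ∧
    c'.v (s OnePoint.infty) = 0 ∧ CoordAt (fun y => (c'.v y)⁻¹) (c.v ∘ β) (s OnePoint.infty) ∧
      ∀ᶠ y in 𝓝 (s OnePoint.infty), c.u (β y) = (c'.v y)⁻¹ * c.v (β y)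

/-- the mark `d'` of `M` is the pull-back of the mark `d` of `N`. -/
def Pull (β : M → N) (d : Mark N) (d' : Mark M) : Prop :=
  β d'.pt = d.pt ∧ d'.u = d.u ∘ β ∧ d'.v = d.v ∘ β

end

/-- the unit sphere of `ℝ^{n+1}`, with the standard smooth structure. -/
abbrev Sn (n : ℕ) : Type := Metric.sphere (0 : EuclideanSpace ℝ (Fin (n + 1))) 1

/-- the pole `(0,0,0,0,-1)` with the complex coordinates `(x₀ + i x₁, x₂ + i x₃)`. -/
noncomputable def south : Mark (Sn 4) where
  pt := ⟨EuclideanSpace.single 4 (-1), by simp⟩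
  u P := ⟨P.1 0, P.1 1⟩
  v P := ⟨P.1 2, P.1 3⟩

/-- the pole `(0,0,0,0,1)` with the complex coordinates
`((x₂ - x₁) + i (x₃ - x₀)) / √2, ((x₀ + x₃) + i (x₁ + x₂)) / √2`. -/
noncomputable def north : Mark (Sn 4) where
  pt := ⟨EuclideanSpace.single 4 1, by simp⟩
  u P := ⟨P.1 2 - P.1 1, P.1 3 - P.1 0⟩ / (Real.sqrt 2 : ℂ)
  v P := ⟨P.1 0 + P.1 3, P.1 1 + P.1 2⟩ / (Real.sqrt 2 : ℂ)

/-- `M` with the marks `c`, `d` is obtained from `S⁴` with the marks `south`, `north` by `b`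
blow-ups at the first mark. -/
def South : ℕ → ∀ (M : Type) [TopologicalSpace M] [ChartedSpace E4 M], Mark M → Mark M → Prop
  | 0 => fun M _ _ c d => ∃ Φ : Diffeomorph (𝓡 4) (𝓡 4) M (Sn 4) ∞, Pull Φ south c ∧ Pull Φ north d
  | b + 1 => fun M _ _ c d => ∃ (N : Type) (_ : TopologicalSpace N) (_ : ChartedSpace E4 N)
      (c₀ d₀ : Mark N) (β : M → N), IsManifold (𝓡 4) ∞ N ∧ T2Space N ∧ CompactSpace N ∧
      South b N c₀ d₀ ∧ IsBlowUp β c₀ c ∧ Pull β d₀ d

/-- `M` with the marks `c`, `d` is obtained from `S⁴` with the marks `south`, `north` by `b`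
blow-ups at the first mark and then `a` blow-ups at the second mark. -/
def Tower (b : ℕ) : ℕ → ∀ (M : Type) [TopologicalSpace M] [ChartedSpace E4 M],
    Mark M → Mark M → Prop
  | 0 => fun M _ _ c d => South b M c d
  | a + 1 => fun M _ _ c d => ∃ (N : Type) (_ : TopologicalSpace N) (_ : ChartedSpace E4 N)
      (c₀ d₀ : Mark N) (β : M → N), IsManifold (𝓡 4) ∞ N ∧ T2Space N ∧ CompactSpace N ∧
      Tower b a N c₀ d₀ ∧ IsBlowUp β d₀ d ∧ Pull β c₀ c

/-- The smooth manifold `M` (modelled on `I`) is diffeomorphic to a complex manifold of complex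
dimension `k`. -/
def IsComplex (k : ℕ) {E H : Type} [NormedAddCommGroup E] [NormedSpace ℝ E] [TopologicalSpace H]
    (I : ModelWithCorners ℝ E H) (M : Type) [TopologicalSpace M] [ChartedSpace H M] : Prop :=
  ∃ (N : Type) (_ : TopologicalSpace N) (_ : ChartedSpace (EuclideanSpace ℂ (Fin k)) N),
    IsManifold 𝓘(ℂ, EuclideanSpace ℂ (Fin k)) ∞ N ∧
    Nonempty (Diffeomorph I 𝓘(ℝ, EuclideanSpace ℂ (Fin k)) M N ∞)

end Pool.Agent.BlowC
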