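import Pool.Agent.Lib.MP_1d980c_gt.Blow.GDefs

/-! Elementary facts on holomorphic relations. -/

set_option autoImplicit false
open Topology Pool.Agent.S4T2
open scoped Manifold ContDiff

namespace Pool.Agent.BlowC

theorem holRel_trans {X F : Type} [TopologicalSpace X] [NormedAddCommGroup F] [NormedSpace ℂ F]
    {x : X} {f g h : X → F} (h1 : HolRel x f g) (h2 : HolRel x g h) : HolRel x f h := by
  obtain ⟨H1, h1, h1'⟩ := h1
  obtain ⟨H2, h2, h2'⟩ := h2
  have h3 : ContDiffAt ℂ ∞ H2 (H1 (f x)) := by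
    rw [← h1'.self_of_nhds]
    exact h2
  refine ⟨H2 ∘ H1, h3.comp (f x) h1, ?_⟩
  filter_upwards [h1', h2'] with y' k1 k2
  rw [k2, k1]
  rfl

theorem holRel_comp {X Y F : Type} [TopologicalSpace X] [TopologicalSpace Y]
    [NormedAddCommGroup F] [NormedSpace ℂ F] {b : Y → X} {y : Y} (hb : ContinuousAt b y)
    {f g : X → F} (h : HolRel (b y) f g) : HolRel y (f ∘ b) (g ∘ b) := by
  obtain ⟨H, h1, h2⟩ := h
  exact ⟨H, h1, hb.eventually h2⟩

theorem MRel.holRel {N Z R : Type} [TopologicalSpace N] [TopologicalSpace Z]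
    [NormedAddCommGroup R] [NormedSpace ℂ R] {u v : N → ℂ} {x : N × Z} {t t' : Trip (N × Z) R}
    (h : MRel u v x t t') : HolRel x (chart u v t) (chart u v t') := by
  obtain ⟨h1, h2, H, k1, k2, k3, -, -, hev⟩ := h
  refine ⟨fun w => (w.1 * h1 w, w.2.1 * h2 w, H w), ?_, ?_⟩
  · exact (contDiffAt_fst.mul k1).prodMk
      (((contDiff_fst.comp contDiff_snd).contDiffAt.mul k2).prodMk k3)
  · filter_upwards [hev] with y hy
    obtain ⟨e1, e2, e3⟩ := hy
    simp only [chart] at e1 e2 e3 ⊢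
    rw [e1, e2, e3, mul_assoc, mul_assoc]

end Pool.Agent.BlowC
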