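import Pool.Agent.Lib.MP_1d980c_gt.Blow.LocA

/-! Complex coordinates near a point. -/

set_option autoImplicit false
open Topology
open scoped Manifold ContDiff

namespace Pool.Agent.BlowC

variable {M : Type} [TopologicalSpace M] [ChartedSpace E4 M] [IsManifold (𝓡 4) ∞ M]

theorem CoordAt.eventually {u v : M → ℂ} {x : M} (h : CoordAt u v x) :
    ∀ᶠ y in 𝓝 x, CoordAt u v y := by
  obtain ⟨e, hx, -, he, -⟩ := exists_local_inv h.1 h.2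
  filter_upwards [e.open_source.mem_nhds hx] with y hy
  refine ⟨?_, (he y hy).2⟩
  filter_upwards [e.open_source.mem_nhds hy] with z hz
  exact (he z hz).1

theorem CoordAt.smooth_uv {u v : M → ℂ} {x : M} (h : CoordAt u v x) :
    ContMDiffAt (𝓡 4) 𝓘(ℝ, ℂ × ℂ) ∞ (fun y => (u y, v y)) x := h.1.self_of_nhds

theorem CoordAt.smooth_u {u v : M → ℂ} {x : M} (h : CoordAt u v x) :
    ContMDiffAt (𝓡 4) 𝓘(ℝ, ℂ) ∞ u x := by
  have h1 : ContMDiffAt 𝓘(ℝ, ℂ × ℂ) 𝓘(ℝ, ℂ) ∞ (Prod.fst : ℂ × ℂ → ℂ) (u x, v x) :=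
    contDiff_fst.contMDiff.contMDiffAt
  exact ContMDiffAt.comp (g := (Prod.fst : ℂ × ℂ → ℂ)) (f := fun y => (u y, v y)) x h1 h.smooth_uv

theorem CoordAt.smooth_v {u v : M → ℂ} {x : M} (h : CoordAt u v x) :
    ContMDiffAt (𝓡 4) 𝓘(ℝ, ℂ) ∞ v x := by
  have h1 : ContMDiffAt 𝓘(ℝ, ℂ × ℂ) 𝓘(ℝ, ℂ) ∞ (Prod.snd : ℂ × ℂ → ℂ) (u x, v x) :=
    contDiff_snd.contMDiff.contMDiffAt
  exact ContMDiffAt.comp (g := (Prod.snd : ℂ × ℂ → ℂ)) (f := fun y => (u y, v y)) x h1 h.smooth_uv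

/-- the derivative of a pair, componentwise. -/
private theorem mfderiv_pair {u v : M → ℂ} {x : M}
    (h : ContMDiffAt (𝓡 4) 𝓘(ℝ, ℂ × ℂ) ∞ (fun y => (u y, v y)) x) (ξ : TangentSpace (𝓡 4) x) :
    (mfderiv (𝓡 4) 𝓘(ℝ, ℂ × ℂ) (fun y => (u y, v y)) x ξ : ℂ × ℂ) =
      ((mfderiv (𝓡 4) 𝓘(ℝ, ℂ) u x ξ : ℂ), (mfderiv (𝓡 4) 𝓘(ℝ, ℂ) v x ξ : ℂ)) := by
  have hd := (h.mdifferentiableAt (by simp)).hasMFDerivAt
  have h1 := HasMFDerivAt.comp x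
    ((ContinuousLinearMap.fst ℝ ℂ ℂ).hasMFDerivAt (x := (u x, v x))) hd
  have h2 := HasMFDerivAt.comp x
    ((ContinuousLinearMap.snd ℝ ℂ ℂ).hasMFDerivAt (x := (u x, v x))) hd
  have e1 : mfderiv (𝓡 4) 𝓘(ℝ, ℂ) u x = (ContinuousLinearMap.fst ℝ ℂ ℂ).comp
      (mfderiv (𝓡 4) 𝓘(ℝ, ℂ × ℂ) (fun y => (u y, v y)) x) := h1.mfderiv
  have e2 : mfderiv (𝓡 4) 𝓘(ℝ, ℂ) v x = (ContinuousLinearMap.snd ℝ ℂ ℂ).comp
      (mfderiv (𝓡 4) 𝓘(ℝ, ℂ × ℂ) (fun y => (u y, v y)) x) := h2.mfderiv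
  rw [e1, e2]
  rfl

/-- the derivative of coordinates is injective, componentwise form. -/
theorem CoordAt.inj {u v : M → ℂ} {x : M} (h : CoordAt u v x) (ξ : TangentSpace (𝓡 4) x)
    (hu : mfderiv (𝓡 4) 𝓘(ℝ, ℂ) u x ξ = 0) (hv : mfderiv (𝓡 4) 𝓘(ℝ, ℂ) v x ξ = 0) : ξ = 0 := by
  apply h.2.1
  rw [map_zero]
  refine (mfderiv_pair h.smooth_uv ξ).trans ?_
  rw [hu, hv]
  rfl

/-- converse: smooth with injective derivative. -/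
theorem coordAt_of {u v : M → ℂ} {x : M} (hu : ∀ᶠ y in 𝓝 x, ContMDiffAt (𝓡 4) 𝓘(ℝ, ℂ) ∞ u y)
    (hv : ∀ᶠ y in 𝓝 x, ContMDiffAt (𝓡 4) 𝓘(ℝ, ℂ) ∞ v y)
    (h : ∀ ξ : TangentSpace (𝓡 4) x, mfderiv (𝓡 4) 𝓘(ℝ, ℂ) u x ξ = 0 →
      mfderiv (𝓡 4) 𝓘(ℝ, ℂ) v x ξ = 0 → ξ = 0) : CoordAt u v x := by
  have hs : ∀ᶠ y in 𝓝 x, ContMDiffAt (𝓡 4) 𝓘(ℝ, ℂ × ℂ) ∞ (fun y => (u y, v y)) y := by
    filter_upwards [hu, hv] with y h1 h2
    exact h1.prodMk_space h2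
  refine ⟨hs, ?_⟩
  have hi : Function.Injective (mfderiv (𝓡 4) 𝓘(ℝ, ℂ × ℂ) (fun y => (u y, v y)) x) := by
    rw [injective_iff_map_eq_zero]
    intro ξ hξ
    have h1 := (mfderiv_pair hs.self_of_nhds ξ).symm.trans hξ
    exact h ξ (congrArg Prod.fst h1) (congrArg Prod.snd h1)
  refine ⟨hi, ?_⟩
  have hf : Module.finrank ℝ E4 = Module.finrank ℝ (ℂ × ℂ) := by
    rw [Module.finrank_prod, Complex.finrank_real_complex, finrank_euclideanSpace_fin]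
  have hfd : FiniteDimensional ℝ (ℂ × ℂ) := inferInstance
  exact (LinearMap.injective_iff_surjective_of_finrank_eq_finrank (V := E4) (V₂ := ℂ × ℂ) hf
    (f := (mfderiv (𝓡 4) 𝓘(ℝ, ℂ × ℂ) (fun y => (u y, v y)) x : E4 →L[ℝ] ℂ × ℂ).toLinearMap)).mp hi

/-- pull-back of coordinates by a local diffeomorphism. -/
theorem CoordAt.comp {N : Type} [TopologicalSpace N] [ChartedSpace E4 N] [IsManifold (𝓡 4) ∞ N]
    {u v : N → ℂ} {β : M → N} {x : M} (hβ : ∀ᶠ y in 𝓝 x, ContMDiffAt (𝓡 4) (𝓡 4) ∞ β y)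
    (hb : Function.Bijective (mfderiv (𝓡 4) (𝓡 4) β x)) (h : CoordAt u v (β x)) :
    CoordAt (u ∘ β) (v ∘ β) x := by
  have hc : ContinuousAt β x := hβ.self_of_nhds.continuousAt
  refine ⟨?_, ?_⟩
  · filter_upwards [hβ, hc.eventually h.1] with y h1 h2
    exact ContMDiffAt.comp y h2 h1
  · have h1 : mfderiv (𝓡 4) 𝓘(ℝ, ℂ × ℂ) ((fun y => (u y, v y)) ∘ β) x =
        (mfderiv (𝓡 4) 𝓘(ℝ, ℂ × ℂ) (fun y => (u y, v y)) (β x)).comp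
          (mfderiv (𝓡 4) (𝓡 4) β x) :=
      mfderiv_comp x (h.smooth_uv.mdifferentiableAt (by simp))
        (hβ.self_of_nhds.mdifferentiableAt (by simp))
    have h2 : (fun y => ((u ∘ β) y, (v ∘ β) y)) = (fun y => (u y, v y)) ∘ β := rfl
    rw [h2, h1]
    exact h.2.comp hb

/-- coordinates separate points near a centre. -/
theorem CoordAt.inj_near {u v : M → ℂ} {x : M} (h : CoordAt u v x) :
    ∀ᶠ y in 𝓝 x, u y = u x → v y = v x → y = x := by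
  obtain ⟨e, hx, hf, -, -⟩ := exists_local_inv h.1 h.2
  filter_upwards [e.open_source.mem_nhds hx] with y hy h1 h2
  apply e.injOn hy hx
  rw [hf y hy, hf x hx, h1, h2]

end Pool.Agent.BlowC
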