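import Pool.Agent.Lib.MP_1d980c_gt.Blow.StepDefs

/-! Derivatives of the charts of a blow-up. -/

set_option autoImplicit false
open Topology Pool.Agent.S4T2
open scoped Manifold ContDiff

namespace Pool.Agent.BlowC

section

variable {M N Z EZ HZ R : Type} [TopologicalSpace M] [ChartedSpace E4 M] [TopologicalSpace N]
  [ChartedSpace E4 N] [IsManifold (𝓡 4) ∞ M] [IsManifold (𝓡 4) ∞ N]
  [NormedAddCommGroup EZ] [NormedSpace ℝ EZ] [TopologicalSpace HZ] {JZ : ModelWithCorners ℝ EZ HZ}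
  [TopologicalSpace Z] [ChartedSpace HZ Z] [NormedAddCommGroup R] [NormedSpace ℂ R]
  {β : M → N} {U V : N → ℂ} {m : M → ℂ} {y : M × Z} {t : Trip (N × Z) R}

theorem bt_smooth (hβ : ContMDiffAt (𝓡 4) (𝓡 4) ∞ β y.1) :
    ContMDiffAt ((𝓡 4).prod JZ) ((𝓡 4).prod JZ) ∞ (bt (Z := Z) β) y :=
  (ContMDiffAt.comp y hβ contMDiffAt_fst).prodMk contMDiffAt_snd

/-- pull-back by a local diffeomorphism. -/
theorem bt_inj {f : N × Z → ℂ × ℂ × R} (hβ : ContMDiffAt (𝓡 4) (𝓡 4) ∞ β y.1)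
    (hb : Function.Injective (mfderiv (𝓡 4) (𝓡 4) β y.1))
    (hf : ContMDiffAt ((𝓡 4).prod JZ) 𝓘(ℝ, ℂ × ℂ × R) ∞ f (bt β y))
    (hi : Function.Injective (mfderiv ((𝓡 4).prod JZ) 𝓘(ℝ, ℂ × ℂ × R) f (bt β y))) :
    Function.Injective (mfderiv ((𝓡 4).prod JZ) 𝓘(ℝ, ℂ × ℂ × R) (f ∘ bt β) y) := by
  have hn : (∞ : WithTop ℕ∞) ≠ 0 := by simp
  have hbt : ContMDiffAt ((𝓡 4).prod JZ) ((𝓡 4).prod JZ) ∞ (bt (Z := Z) β) y := bt_smooth hβ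
  rw [mfderiv_comp y (hf.mdifferentiableAt hn) (hbt.mdifferentiableAt hn)]
  refine hi.comp ?_
  have h1 : MDifferentiableAt ((𝓡 4).prod JZ) (𝓡 4) (fun y : M × Z => β y.1) y :=
    (ContMDiffAt.comp y hβ contMDiffAt_fst).mdifferentiableAt hn
  have h2 : MDifferentiableAt ((𝓡 4).prod JZ) JZ (fun y : M × Z => y.2) y :=
    (contMDiffAt_snd (n := ∞)).mdifferentiableAt hn
  have e1 : mfderiv ((𝓡 4).prod JZ) ((𝓡 4).prod JZ) (bt (Z := Z) β) y =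
      (mfderiv ((𝓡 4).prod JZ) (𝓡 4) (fun y : M × Z => β y.1) y).prod
        (mfderiv ((𝓡 4).prod JZ) JZ (fun y : M × Z => y.2) y) := mfderiv_prodMk h1 h2
  have e2 : mfderiv ((𝓡 4).prod JZ) (𝓡 4) (fun y : M × Z => β y.1) y =
      (mfderiv (𝓡 4) (𝓡 4) β y.1).comp
        (mfderiv ((𝓡 4).prod JZ) (𝓡 4) (Prod.fst : M × Z → M) y) :=
    mfderiv_comp y (hβ.mdifferentiableAt hn) ((contMDiffAt_fst (n := ∞)).mdifferentiableAt hn)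
  rw [e1, e2, mfderiv_fst]
  intro ξ ξ' h
  have h3 := congrArg Prod.fst h
  have h4 := congrArg Prod.snd h
  have h5 : mfderiv ((𝓡 4).prod JZ) JZ (fun y : M × Z => y.2) y =
      mfderiv ((𝓡 4).prod JZ) JZ (Prod.snd : M × Z → Z) y := rfl
  rw [h5, mfderiv_snd] at h4
  exact Prod.ext (hb h3) h4

private noncomputable def swapL (R : Type) [NormedAddCommGroup R] [NormedSpace ℂ R] :
    (ℂ × ℂ × R) →L[ℝ] (ℂ × ℂ × R) :=
  ((ContinuousLinearMap.fst ℝ ℂ R).comp (ContinuousLinearMap.snd ℝ ℂ (ℂ × R))).prod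
    ((ContinuousLinearMap.fst ℝ ℂ (ℂ × R)).prod
      ((ContinuousLinearMap.snd ℝ ℂ R).comp (ContinuousLinearMap.snd ℝ ℂ (ℂ × R))))

private theorem swapL_apply (p : ℂ × ℂ × R) : swapL R p = (p.2.1, p.1, p.2.2) := rfl

private theorem swapL_inj : Function.Injective (swapL R) := by
  intro p q h
  rw [swapL_apply, swapL_apply] at h
  have h1 := congrArg Prod.fst h
  have h2 := congrArg (fun z => z.2.1) h
  have h3 := congrArg (fun z => z.2.2) h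
  exact Prod.ext h2 (Prod.ext h1 h3)

private theorem chart_swap_eq (u v : N → ℂ) : chart v u t.swap = swapL R ∘ chart u v t := rfl

theorem chart_swap_smooth {u v : N → ℂ} {x : N × Z}
    (h : ContMDiffAt ((𝓡 4).prod JZ) 𝓘(ℝ, ℂ × ℂ × R) ∞ (chart u v t) x) :
    ContMDiffAt ((𝓡 4).prod JZ) 𝓘(ℝ, ℂ × ℂ × R) ∞ (chart v u t.swap) x := by
  rw [chart_swap_eq]
  exact ContMDiffAt.comp x (swapL R).contMDiff.contMDiffAt h

theorem chart_swap_inj {u v : N → ℂ} {x : N × Z}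
    (h : ContMDiffAt ((𝓡 4).prod JZ) 𝓘(ℝ, ℂ × ℂ × R) ∞ (chart u v t) x)
    (hi : Function.Injective (mfderiv ((𝓡 4).prod JZ) 𝓘(ℝ, ℂ × ℂ × R) (chart u v t) x)) :
    Function.Injective (mfderiv ((𝓡 4).prod JZ) 𝓘(ℝ, ℂ × ℂ × R) (chart v u t.swap) x) := by
  have hn : (∞ : WithTop ℕ∞) ≠ 0 := by simp
  rw [chart_swap_eq, mfderiv_comp x
    ((swapL R).contMDiff.contMDiffAt.mdifferentiableAt hn) (h.mdifferentiableAt hn)]
  rw [mfderiv_eq_fderiv, ContinuousLinearMap.fderiv]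
  exact swapL_inj.comp hi

theorem up_smooth (hβ : ContMDiffAt (𝓡 4) (𝓡 4) ∞ β y.1) (hC : CoordAt (U ∘ β) m y.1)
    (hφ : ContMDiffAt ((𝓡 4).prod JZ) 𝓘(ℝ, ℂ) ∞ t.φ (bt β y))
    (hψ : ContMDiffAt ((𝓡 4).prod JZ) 𝓘(ℝ, ℂ) ∞ t.ψ (bt β y)) (hφ0 : t.φ (bt β y) ≠ 0)
    (hf : ContMDiffAt ((𝓡 4).prod JZ) 𝓘(ℝ, ℂ × ℂ × R) ∞ (chart U V t) (bt β y)) :
    ContMDiffAt ((𝓡 4).prod JZ) 𝓘(ℝ, ℂ × ℂ × R) ∞ (chart (U ∘ β) m (t.up β)) y := by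
  have hbt : ContMDiffAt ((𝓡 4).prod JZ) ((𝓡 4).prod JZ) ∞ (bt (Z := Z) β) y := bt_smooth hβ
  have h1 : ContMDiffAt ((𝓡 4).prod JZ) 𝓘(ℝ, ℂ) ∞ (fun y : M × Z => (U ∘ β) y.1) y :=
    ContMDiffAt.comp (g := U ∘ β) y hC.smooth_u contMDiffAt_fst
  have h2 : ContMDiffAt ((𝓡 4).prod JZ) 𝓘(ℝ, ℂ) ∞ (fun y : M × Z => m y.1) y :=
    ContMDiffAt.comp y hC.smooth_v contMDiffAt_fst
  have h3 : ContMDiffAt ((𝓡 4).prod JZ) 𝓘(ℝ, ℂ) ∞ (fun y : M × Z => t.φ (bt β y)) y :=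
    ContMDiffAt.comp y hφ hbt
  have h4 : ContMDiffAt ((𝓡 4).prod JZ) 𝓘(ℝ, ℂ) ∞ (fun y : M × Z => t.ψ (bt β y)) y :=
    ContMDiffAt.comp y hψ hbt
  have h5 : ContMDiffAt ((𝓡 4).prod JZ) 𝓘(ℝ, ℂ × ℂ × R) ∞
      (fun y : M × Z => chart U V t (bt β y)) y := ContMDiffAt.comp y hf hbt
  have h6 : ContMDiffAt ((𝓡 4).prod JZ) 𝓘(ℝ, R) ∞ (fun y : M × Z => t.ρ (bt β y)) y :=
    ContMDiffAt.comp (g := fun p : ℂ × ℂ × R => p.2.2) y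
      (contDiff_snd.snd.contDiffAt.contMDiffAt) h5
  have h7 : ContMDiffAt ((𝓡 4).prod JZ) 𝓘(ℝ, ℂ) ∞
      (fun y : M × Z => (U ∘ β) y.1 * t.φ (bt β y)) y := by
    have hm : ContDiffAt ℝ ∞ (fun p : ℂ × ℂ => p.1 * p.2) ((U ∘ β) y.1, t.φ (bt β y)) :=
      contDiffAt_fst.mul contDiffAt_snd
    exact ContMDiffAt.comp (g := fun p : ℂ × ℂ => p.1 * p.2) y hm.contMDiffAt
      (h1.prodMk_space h3)
  have h8 : ContMDiffAt ((𝓡 4).prod JZ) 𝓘(ℝ, ℂ) ∞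
      (fun y : M × Z => m y.1 * (t.ψ (bt β y) / t.φ (bt β y))) y := by
    have hm : ContDiffAt ℝ ∞ (fun p : ℂ × ℂ × ℂ => p.1 * (p.2.1 * p.2.2⁻¹))
        (m y.1, t.ψ (bt β y), t.φ (bt β y)) := by
      have e1 : ContDiffAt ℝ ∞ (fun p : ℂ × ℂ × ℂ => p.2.1)
          (m y.1, t.ψ (bt β y), t.φ (bt β y)) := contDiff_snd.fst.contDiffAt
      have e2 : ContDiffAt ℝ ∞ (fun p : ℂ × ℂ × ℂ => p.2.2)
          (m y.1, t.ψ (bt β y), t.φ (bt β y)) := contDiff_snd.snd.contDiffAt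
      exact contDiffAt_fst.mul (e1.mul (e2.inv hφ0))
    have e3 := ContMDiffAt.comp (g := fun p : ℂ × ℂ × ℂ => p.1 * (p.2.1 * p.2.2⁻¹)) y
      hm.contMDiffAt (h2.prodMk_space (h4.prodMk_space h3))
    refine e3.congr_of_eventuallyEq (Filter.Eventually.of_forall fun y' => ?_)
    simp only [Function.comp_apply, div_eq_mul_inv]
  exact h7.prodMk_space (h8.prodMk_space h6)

end

end Pool.Agent.BlowC
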