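import Pool.Agent.Lib.MP_1d980c_gt.Blow.StepDefs

/-! Relations between the charts of a blow-up. -/

set_option autoImplicit false
open Topology Pool.Agent.S4T2
open scoped Manifold ContDiff

namespace Pool.Agent.BlowC

section

variable {M N Z R : Type} [TopologicalSpace M] [TopologicalSpace N] [TopologicalSpace Z]
  [NormedAddCommGroup R] [NormedSpace ℂ R] {β : M → N} {U V : N → ℂ} {m : M → ℂ} {y : M × Z}
  {t t' : Trip (N × Z) R}

theorem MRel.swap {u v : N → ℂ} {x : N × Z} (h : MRel u v x t t') :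
    MRel v u x t.swap t'.swap := by
  obtain ⟨h1, h2, H, k1, k2, k3, n1, n2, hev⟩ := h
  have hs : ContDiff ℂ ∞ (fun w : ℂ × ℂ × R => (w.2.1, w.1, w.2.2)) :=
    (contDiff_fst.comp contDiff_snd).prodMk
      (contDiff_fst.prodMk (contDiff_snd.comp contDiff_snd))
  refine ⟨fun w => h2 (w.2.1, w.1, w.2.2), fun w => h1 (w.2.1, w.1, w.2.2),
    fun w => H (w.2.1, w.1, w.2.2), ?_, ?_, ?_, n2, n1, ?_⟩
  · exact ContDiffAt.comp (chart v u t.swap x) k2 hs.contDiffAt
  · exact ContDiffAt.comp (chart v u t.swap x) k1 hs.contDiffAt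
  · exact ContDiffAt.comp (chart v u t.swap x) k3 hs.contDiffAt
  · filter_upwards [hev] with y hy
    exact ⟨hy.2.1, hy.1, hy.2.2⟩

theorem chart_swap_rel (u v : N → ℂ) (x : N × Z) :
    HolRel x (chart u v t) (chart v u t.swap) := by
  have hs : ContDiff ℂ ∞ (fun w : ℂ × ℂ × R => (w.2.1, w.1, w.2.2)) :=
    (contDiff_fst.comp contDiff_snd).prodMk
      (contDiff_fst.prodMk (contDiff_snd.comp contDiff_snd))
  exact ⟨_, hs.contDiffAt, Filter.Eventually.of_forall fun y => rfl⟩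

/-- pull-back of the relation of marked charts. -/
theorem MRel.pull (hβ : ContinuousAt β y.1) (h : MRel U V (bt β y) t t') :
    MRel (U ∘ β) (V ∘ β) y (t.pull β) (t'.pull β) := by
  obtain ⟨h1, h2, H, k1, k2, k3, n1, n2, hev⟩ := h
  have hc : ContinuousAt (bt (Z := Z) β) y :=
    (ContinuousAt.comp (f := Prod.fst) hβ continuous_fst.continuousAt).prodMk
      continuous_snd.continuousAt
  exact ⟨h1, h2, H, k1, k2, k3, n1, n2, hc.eventually hev⟩

/-- the charts of the blow-up at finite slopes, marked form. -/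
theorem MRel.up (hβ : ContinuousAt β y.1) (hm : ∀ᶠ y' in 𝓝 y.1, V (β y') = m y' * U (β y'))
    (hφ : ∀ᶠ x in 𝓝 (bt β y), t.φ x ≠ 0) (h : MRel U V (bt β y) t t') :
    MRel (U ∘ β) m y (t.up β) (t'.up β) := by
  obtain ⟨h1, h2, H, k1, k2, k3, n1, n2, hev⟩ := h
  have hc : ContinuousAt (bt (Z := Z) β) y :=
    (ContinuousAt.comp (f := Prod.fst) hβ continuous_fst.continuousAt).prodMk
      continuous_snd.continuousAt
  have hk : ContDiff ℂ ∞ (fun w : ℂ × ℂ × R => (w.1, w.1 * w.2.1, w.2.2)) :=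
    contDiff_fst.prodMk ((contDiff_fst.mul (contDiff_fst.comp contDiff_snd)).prodMk
      (contDiff_snd.comp contDiff_snd))
  have hm' : ∀ᶠ y' : M × Z in 𝓝 y, V (β y'.1) = m y'.1 * U (β y'.1) :=
    continuous_fst.continuousAt.eventually hm
  have hkey : ∀ᶠ y' in 𝓝 y, chart U V t (bt β y') =
      ((chart (U ∘ β) m (t.up β) y').1,
        (chart (U ∘ β) m (t.up β) y').1 * (chart (U ∘ β) m (t.up β) y').2.1,
        (chart (U ∘ β) m (t.up β) y').2.2) := by
    filter_upwards [hm', hc.eventually hφ] with y' e1 e2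
    refine Prod.ext rfl (Prod.ext ?_ rfl)
    show V (β y'.1) * t.ψ (bt β y') = U (β y'.1) * t.φ (bt β y') *
      (m y'.1 * (t.ψ (bt β y') / t.φ (bt β y')))
    rw [e1]
    field_simp
  have hy := hkey.self_of_nhds
  rw [hy] at k1 k2 k3 n1 n2
  have g1 := ContDiffAt.comp (chart (U ∘ β) m (t.up β) y) k1 hk.contDiffAt
  have g2 := ContDiffAt.comp (chart (U ∘ β) m (t.up β) y) k2 hk.contDiffAt
  have g3 := ContDiffAt.comp (chart (U ∘ β) m (t.up β) y) k3 hk.contDiffAt
  refine ⟨_, _, _, g1, g2.div g1 n1, g3, n1, div_ne_zero n2 n1, ?_⟩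
  filter_upwards [hkey, hc.eventually hev, hc.eventually hφ] with y' e1 e2 e3
  obtain ⟨f1, f2, f3⟩ := e2
  rw [e1] at f1 f2 f3
  refine ⟨f1, ?_, f3⟩
  show t'.ψ (bt β y') / t'.φ (bt β y') = t.ψ (bt β y') / t.φ (bt β y') * (_ / _)
  rw [f1, f2]
  simp only [Function.comp]
  rw [div_mul_div_comm]

end

end Pool.Agent.BlowC
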