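import Pool.Agent.Lib.MP_1d980c_gt.Blow.MaDefs
import Pool.Agent.Lib.MP_1d980c_gt.Blow.GermsA
import Pool.Agent.Lib.MP_1d980c_gt.Blow.LocB
import Pool.Agent.Lib.MP_1d980c_gt.Blow.StepRelA
import Pool.Agent.Lib.MP_1d980c_gt.Blow.StepInjA

/-! Pull-back of a good atlas by a diffeomorphism. -/

set_option autoImplicit false
open Complex ComplexConjugate Topology Pool.Agent.S4T2
open scoped Manifold ContDiff

namespace Pool.Agent.BlowC

section gen

variable {M N Z EZ HZ R : Type} [TopologicalSpace M] [ChartedSpace E4 M] [TopologicalSpace N]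
  [ChartedSpace E4 N] [IsManifold (𝓡 4) ∞ M] [IsManifold (𝓡 4) ∞ N]
  [NormedAddCommGroup EZ] [NormedSpace ℝ EZ] [TopologicalSpace HZ] {JZ : ModelWithCorners ℝ EZ HZ}
  [TopologicalSpace Z] [ChartedSpace HZ Z] [NormedAddCommGroup R] [NormedSpace ℂ R]
  {Gm : N × Z → Set (N × Z → ℂ × ℂ × R)} {Mc : N × Z → Set (Trip (N × Z) R)}

/-- the pulled back germs. -/
private def GmD (β : M → N) (Gm : N × Z → Set (N × Z → ℂ × ℂ × R)) (y : M × Z) :
    Set (M × Z → ℂ × ℂ × R) :=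
  {g | ∃ f ∈ Gm (bt β y), g = f ∘ bt β}

/-- the pulled back marked charts. -/
private def McD (β : M → N) (Mc : N × Z → Set (Trip (N × Z) R)) (y : M × Z) :
    Set (Trip (M × Z) R) :=
  {t' | ∃ t ∈ Mc (bt β y), t' = t.pull β}

private theorem bt_cont {β : M → N} (hβ : Continuous β) : Continuous (bt (Z := Z) β) :=
  (hβ.comp continuous_fst).prodMk continuous_snd

private theorem germsD {β : M → N} (hβ : ContMDiff (𝓡 4) (𝓡 4) ∞ β)
    (hb : ∀ x, Function.Bijective (mfderiv (𝓡 4) (𝓡 4) β x))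
    (hG : HolGerms ((𝓡 4).prod JZ) Gm) : HolGerms ((𝓡 4).prod JZ) (GmD β Gm) where
  ex := by
    intro x
    obtain ⟨f, hf, hev⟩ := hG.ex (bt β x)
    refine ⟨f ∘ bt β, ⟨f, hf, rfl⟩, ?_⟩
    filter_upwards [(bt_cont hβ.continuous).continuousAt.eventually hev] with y hy
    exact ⟨f, hy, rfl⟩
  smooth := by
    rintro x g ⟨f, hf, rfl⟩
    exact (hG.smooth _ f hf).comp x (bt_smooth (hβ x.1))
  inj := by
    rintro x g ⟨f, hf, rfl⟩
    exact bt_inj (hβ x.1) (hb x.1).1 (hG.smooth _ f hf) (hG.inj _ f hf)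
  rel := by
    rintro x g ⟨f, hf, rfl⟩ g' ⟨f', hf', rfl⟩
    exact holRel_comp (bt_cont hβ.continuous).continuousAt (hG.rel _ f hf f' hf')

private theorem markD {β : M → N} (hβ : ContMDiff (𝓡 4) (𝓡 4) ∞ β)
    (hb : ∀ x, Function.Bijective (mfderiv (𝓡 4) (𝓡 4) β x)) (hi : Function.Injective β)
    {c : Mark N} {c' : Mark M} (hc : Pull β c c') (hM : MarkFam JZ c Gm Mc) :
    MarkFam JZ c' (GmD β Gm) (McD β Mc) := by
  obtain ⟨hpt, hu, hv⟩ := hc
  have hcomp : ∀ x, CoordAt c.u c.v (β x) → CoordAt c'.u c'.v x := by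
    intro x hx
    rw [hu, hv]
    exact CoordAt.comp (Filter.Eventually.of_forall fun y => hβ y) (hb x) hx
  refine ⟨⟨?_, ?_, ?_⟩, ?_, ?_, ?_, ?_, ?_⟩
  · rw [hu, Function.comp_apply, hpt]
    exact hM.coord.1
  · rw [hv, Function.comp_apply, hpt]
    exact hM.coord.2.1
  · apply hcomp
    rw [hpt]
    exact hM.coord.2.2
  · intro z
    have hz : bt β (c'.pt, z) = (c.pt, z) := by
      simp only [bt, hpt]
    obtain ⟨t, ht, hev⟩ := hM.ex z
    refine ⟨t.pull β, ⟨t, by rw [hz]; exact ht, rfl⟩, ?_⟩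
    rw [← hz] at hev
    filter_upwards [(bt_cont hβ.continuous).continuousAt.eventually hev] with y hy
    exact ⟨t, hy, rfl⟩
  · rintro x t' ⟨t, ht, rfl⟩
    refine ⟨chart c.u c.v t, hM.mem _ t ht, ?_⟩
    rw [hu, hv]
    rfl
  · rintro x t' ⟨t, ht, rfl⟩
    obtain ⟨h1, h2, h3, h4⟩ := hM.smooth _ t ht
    exact ⟨h1.comp x (bt_smooth (hβ x.1)), h2.comp x (bt_smooth (hβ x.1)), h3, h4⟩
  · rintro x t' ⟨t, ht, rfl⟩
    obtain ⟨h1, h2⟩ := hM.dom _ t ht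
    refine ⟨hcomp _ h1, fun h3 h4 => hi ?_⟩
    rw [hu] at h3
    rw [hv] at h4
    rw [hpt]
    exact h2 h3 h4
  · rintro x t1 ⟨t, ht, rfl⟩ t2 ⟨t', ht', rfl⟩
    rw [hu, hv]
    exact MRel.pull hβ.continuous.continuousAt (hM.rel _ t ht t' ht')

end gen

/-- pull-back of a good atlas by a diffeomorphism. -/
theorem AllGood.diffeo {M N : Type} [TopologicalSpace M] [ChartedSpace E4 M]
    [TopologicalSpace N] [ChartedSpace E4 N] [IsManifold (𝓡 4) ∞ M] [IsManifold (𝓡 4) ∞ N]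
    (Φ : Diffeomorph (𝓡 4) (𝓡 4) M N ∞) {c d : Mark N} {c' d' : Mark M}
    (h : AllGood c d) (hc : Pull Φ c c') (hd : Pull Φ d d') : AllGood c' d' := by
  intro p q
  obtain ⟨Gm, Mc, Md, hG⟩ := h p q
  have hβ : ContMDiff (𝓡 4) (𝓡 4) ∞ Φ := Φ.contMDiff
  have hb : ∀ x, Function.Bijective (mfderiv (𝓡 4) (𝓡 4) Φ x) := fun x =>
    (Φ.mfderivToContinuousLinearEquiv (by simp) x).bijective
  refine ⟨GmD Φ Gm, McD Φ Mc, McD Φ Md, ?_, germsD hβ hb hG.germs,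
    markD hβ hb Φ.injective hc hG.c, markD hβ hb Φ.injective hd hG.d⟩
  intro he
  apply hG.ne
  rw [← hc.1, ← hd.1, he]

end Pool.Agent.BlowC
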