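import Pool.Agent.Lib.MP_1d980c_gt.Blow.Defs
import Pool.Agent.Lib.MP_1d980c_gt.S4.ManGen

/-! Holomorphic germ atlases on `N × Z` with two marked points: definitions. -/

set_option autoImplicit false
open Topology Pool.Agent.S4T2
open scoped Manifold ContDiff

namespace Pool.Agent.BlowC

/-- a holomorphic germ atlas. -/
structure HolGerms {E' H Q F : Type} [NormedAddCommGroup E'] [NormedSpace ℝ E']
    [TopologicalSpace H] (J : ModelWithCorners ℝ E' H) [TopologicalSpace Q] [ChartedSpace H Q]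
    [NormedAddCommGroup F] [NormedSpace ℂ F] (Gm : Q → Set (Q → F)) : Prop where
  ex : ∀ x, ∃ f ∈ Gm x, ∀ᶠ y in 𝓝 x, f ∈ Gm y
  smooth : ∀ x, ∀ f ∈ Gm x, ContMDiffAt J 𝓘(ℝ, F) ∞ f x
  inj : ∀ x, ∀ f ∈ Gm x, Function.Injective (mfderiv J 𝓘(ℝ, F) f x)
  rel : ∀ x, ∀ f ∈ Gm x, ∀ g ∈ Gm x, HolRel x f g

/-- `(φ, ψ, ρ)`. -/
structure Trip (Q R : Type) where
  φ : Q → ℂ
  ψ : Q → ℂ
  ρ : Q → R

/-- the chart `(u φ, v ψ, ρ)`. -/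
def chart {N Z R : Type} (u v : N → ℂ) (t : Trip (N × Z) R) (x : N × Z) : ℂ × ℂ × R :=
  (u x.1 * t.φ x, v x.1 * t.ψ x, t.ρ x)

/-- relation between two marked charts. -/
def MRel {N Z R : Type} [TopologicalSpace N] [TopologicalSpace Z] [NormedAddCommGroup R]
    [NormedSpace ℂ R] (u v : N → ℂ) (x : N × Z) (t t' : Trip (N × Z) R) : Prop :=
  ∃ (h1 h2 : ℂ × ℂ × R → ℂ) (H : ℂ × ℂ × R → R),
    ContDiffAt ℂ ∞ h1 (chart u v t x) ∧ ContDiffAt ℂ ∞ h2 (chart u v t x) ∧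
    ContDiffAt ℂ ∞ H (chart u v t x) ∧ h1 (chart u v t x) ≠ 0 ∧ h2 (chart u v t x) ≠ 0 ∧
    ∀ᶠ y in 𝓝 x, t'.φ y = t.φ y * h1 (chart u v t y) ∧ t'.ψ y = t.ψ y * h2 (chart u v t y) ∧
      t'.ρ y = H (chart u v t y)

section

variable {N Z EZ HZ R : Type} [TopologicalSpace N] [ChartedSpace E4 N]
  [NormedAddCommGroup EZ] [NormedSpace ℝ EZ] [TopologicalSpace HZ] (JZ : ModelWithCorners ℝ EZ HZ)
  [TopologicalSpace Z] [ChartedSpace HZ Z] [NormedAddCommGroup R] [NormedSpace ℂ R]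

/-- the family of marked charts at a mark. -/
structure MarkFam (c : Mark N) (Gm : N × Z → Set (N × Z → ℂ × ℂ × R))
    (Mm : N × Z → Set (Trip (N × Z) R)) : Prop where
  coord : c.Coord
  ex : ∀ z, ∃ t ∈ Mm (c.pt, z), ∀ᶠ y in 𝓝 (c.pt, z), t ∈ Mm y
  mem : ∀ x, ∀ t ∈ Mm x, chart c.u c.v t ∈ Gm x
  smooth : ∀ x, ∀ t ∈ Mm x, ContMDiffAt ((𝓡 4).prod JZ) 𝓘(ℝ, ℂ) ∞ t.φ x ∧
    ContMDiffAt ((𝓡 4).prod JZ) 𝓘(ℝ, ℂ) ∞ t.ψ x ∧ t.φ x ≠ 0 ∧ t.ψ x ≠ 0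
  dom : ∀ x, ∀ t ∈ Mm x, CoordAt c.u c.v x.1 ∧ (c.u x.1 = 0 → c.v x.1 = 0 → x.1 = c.pt)
  rel : ∀ x, ∀ t ∈ Mm x, ∀ t' ∈ Mm x, MRel c.u c.v x t t'

/-- a holomorphic germ atlas on `N × Z` with two marked points. -/
structure Good (c d : Mark N) (Gm : N × Z → Set (N × Z → ℂ × ℂ × R))
    (Mc Md : N × Z → Set (Trip (N × Z) R)) : Prop where
  ne : c.pt ≠ d.pt
  germs : HolGerms ((𝓡 4).prod JZ) Gm
  c : MarkFam JZ c Gm Mc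
  d : MarkFam JZ d Gm Md

end

end Pool.Agent.BlowC
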