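import Pool.Agent.Lib.MP_1d980c_gt.Blow.Defs

/-! Local inverses on manifolds. -/

set_option autoImplicit false
open Topology
open scoped Manifold ContDiff

namespace Pool.Agent.BlowC

section gen

variable {E' H M F : Type} [NormedAddCommGroup E'] [NormedSpace ℝ E']
    [FiniteDimensional ℝ E'] [TopologicalSpace H] {J : ModelWithCorners ℝ E' H} [J.Boundaryless]
    [TopologicalSpace M] [ChartedSpace H M] [IsManifold J ∞ M]
    [NormedAddCommGroup F] [NormedSpace ℝ F]

variable (J) in
/-- the extended chart as an open partial homeomorphism. -/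
private noncomputable def laChart (x : M) : OpenPartialHomeomorph M E' :=
  (chartAt H x).transHomeomorph J.toHomeomorph

private lemma laChart_source (x : M) : x ∈ (laChart J x).source := mem_chart_source H x

private lemma la_data {x : M} {f : M → F}
    (hf : ContMDiffAt J 𝓘(ℝ, F) ∞ f x)
    (hb : Function.Bijective (mfderiv J 𝓘(ℝ, F) f x)) :
    ∃ f' : E' ≃L[ℝ] F,
      HasFDerivAt (fun a => f ((laChart J x).symm a))
        (f' : E' →L[ℝ] F) (laChart J x x) ∧
      ContDiffAt ℝ ∞ (fun a => f ((laChart J x).symm a)) (laChart J x x) := by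
  have h1 := (contMDiffAt_iff.1 hf).2
  have h2 : ContDiffAt ℝ ∞ (fun a => f ((laChart J x).symm a)) (laChart J x x) := by
    rw [J.range_eq_univ] at h1
    exact h1
  have h3 : HasFDerivAt (fun a => f ((laChart J x).symm a))
      (fderiv ℝ (fun a => f ((laChart J x).symm a)) (laChart J x x)) (laChart J x x) :=
    (h2.differentiableAt (by simp)).hasFDerivAt
  have h4 : mfderiv J 𝓘(ℝ, F) f x =
      fderiv ℝ (fun a => f ((laChart J x).symm a)) (laChart J x x) := by
    rw [MDifferentiableAt.mfderiv (hf.mdifferentiableAt (by simp)), J.range_eq_univ,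
      fderivWithin_univ]
    rfl
  rw [h4] at hb
  let f' : E' ≃L[ℝ] F := LinearEquiv.toContinuousLinearEquiv
    (LinearEquiv.ofBijective
      (fderiv ℝ (fun a => f ((laChart J x).symm a)) (laChart J x x)).toLinearMap hb)
  refine ⟨f', ?_, h2⟩
  have h5 : (f' : E' →L[ℝ] F) =
      fderiv ℝ (fun a => f ((laChart J x).symm a)) (laChart J x x) := by
    ext a
    rfl
  rw [h5]
  exact h3

/-- local inverse. -/
private lemma la_local {x : M} {f : M → F}
    (hf : ContMDiffAt J 𝓘(ℝ, F) ∞ f x)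
    (hb : Function.Bijective (mfderiv J 𝓘(ℝ, F) f x)) :
    ∃ e : OpenPartialHomeomorph M F, x ∈ e.source ∧ ∀ y ∈ e.source, e y = f y := by
  have : CompleteSpace E' := FiniteDimensional.complete ℝ E'
  obtain ⟨f', h1, h2⟩ := la_data hf hb
  let g := h2.toOpenPartialHomeomorph _ h1 (by simp)
  refine ⟨(laChart J x).trans g, ?_, ?_⟩
  · rw [OpenPartialHomeomorph.trans_source]
    exact ⟨laChart_source x, h2.mem_toOpenPartialHomeomorph_source h1 (by simp)⟩
  · intro y hy
    rw [OpenPartialHomeomorph.trans_source] at hy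
    change f ((laChart J x).symm (laChart J x y)) = f y
    rw [(laChart J x).left_inv hy.1]

/-- smoothness of the inverse. -/
private lemma la_symm {x : M} (e : OpenPartialHomeomorph M F)
    (hx : x ∈ e.source)
    (hf : ContMDiffAt J 𝓘(ℝ, F) ∞ e x)
    (hb : Function.Bijective (mfderiv J 𝓘(ℝ, F) e x)) :
    ContMDiffAt 𝓘(ℝ, F) J ∞ e.symm (e x) := by
  have : CompleteSpace E' := FiniteDimensional.complete ℝ E'
  obtain ⟨f', h1, h2⟩ := la_data hf hb
  let h := (laChart J x).symm.trans e
  have ht : e x ∈ h.target := by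
    change e x ∈ ((laChart J x).symm.trans e).target
    rw [OpenPartialHomeomorph.trans_target]
    refine ⟨e.map_source hx, ?_⟩
    change e.symm (e x) ∈ (laChart J x).source
    rw [e.left_inv hx]
    exact laChart_source x
  have hs : h.symm (e x) = laChart J x x := by
    change laChart J x (e.symm (e x)) = _
    rw [e.left_inv hx]
  have h3 : ContDiffAt ℝ ∞ h.symm (e x) := by
    apply h.contDiffAt_symm ht (f₀' := f')
    · rw [hs]; exact h1
    · rw [hs]; exact h2
  rw [contMDiffAt_iff]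
  refine ⟨e.continuousAt_symm (e.map_source hx), ?_⟩
  rw [e.left_inv hx]
  exact h3.contDiffWithinAt

private lemma la_bij {x : M} {f : M → F} (hf : ContMDiffAt J 𝓘(ℝ, F) ∞ f x)
    (hb : Function.Bijective (mfderiv J 𝓘(ℝ, F) f x)) :
    ∀ᶠ y in 𝓝 x, Function.Bijective (mfderiv J 𝓘(ℝ, F) f y) := by
  have : CompleteSpace E' := FiniteDimensional.complete ℝ E'
  obtain ⟨f', h1, h2⟩ := la_data hf hb
  set g : E' → F := fun a => f ((laChart J x).symm a) with hg
  have h3 : ContinuousAt (fderiv ℝ g) (laChart J x x) := h2.continuousAt_fderiv (by simp)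
  have h4 : ∀ᶠ a in 𝓝 (laChart J x x),
      fderiv ℝ g a ∈ Set.range ((↑) : (E' ≃L[ℝ] F) → E' →L[ℝ] F) := by
    apply h3
    rw [h1.fderiv]
    exact f'.nhds
  have h4' : ∀ᶠ a in 𝓝 (laChart J x x), DifferentiableAt ℝ g a := by
    have h5 : ContDiffAt ℝ 1 g (laChart J x x) := h2.of_le (by simp)
    filter_upwards [h5.eventually (by simp)] with a ha
    exact ha.differentiableAt (by simp)
  have hc : Filter.Tendsto (laChart J x) (𝓝 x) (𝓝 (laChart J x x)) :=
    (laChart J x).continuousAt (laChart_source x)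
  filter_upwards [hc.eventually h4, hc.eventually h4',
    (laChart J x).open_source.mem_nhds (laChart_source x)] with y hy1 hy2 hy3
  obtain ⟨e1, he1⟩ := hy1
  have hy4 : y ∈ (extChartAt J x).source := by
    rw [extChartAt_source]
    exact hy3
  have h6 : f =ᶠ[𝓝 y] g ∘ extChartAt J x := by
    filter_upwards [(laChart J x).open_source.mem_nhds hy3] with y' hy'
    change f y' = f ((laChart J x).symm (laChart J x y'))
    rw [(laChart J x).left_inv hy']
  have h7 : MDifferentiableAt J 𝓘(ℝ, E') (extChartAt J x) y :=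
    mdifferentiableAt_extChartAt hy3
  have h8 : HasMFDerivAt 𝓘(ℝ, E') 𝓘(ℝ, F) g (extChartAt J x y) (fderiv ℝ g (extChartAt J x y)) :=
    (DifferentiableAt.hasFDerivAt hy2).hasMFDerivAt
  have h9 := (h8.comp y h7.hasMFDerivAt).mfderiv
  rw [Filter.EventuallyEq.mfderiv_eq h6, h9]
  obtain ⟨e2, he2⟩ := isInvertible_mfderiv_extChartAt hy4
  have key : ∀ w : E', (fderiv ℝ g (extChartAt J x y))
      ((mfderiv J 𝓘(ℝ, E') (extChartAt J x) y) w) = e1 (e2 w) := by
    intro w
    have h11 : (fderiv ℝ g (extChartAt J x y)) = (e1 : E' →L[ℝ] F) := he1.symm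
    rw [h11, ← he2]
    rfl
  have h10 : Function.Bijective (fun w : E' => (fderiv ℝ g (extChartAt J x y))
      ((mfderiv J 𝓘(ℝ, E') (extChartAt J x) y) w)) := by
    rw [funext key]
    exact e1.bijective.comp e2.bijective
  exact h10

/-- a smooth map with invertible derivative is a local diffeomorphism. -/
theorem exists_local_inv {x : M} {f : M → F} (hf : ∀ᶠ y in 𝓝 x, ContMDiffAt J 𝓘(ℝ, F) ∞ f y)
    (hb : Function.Bijective (mfderiv J 𝓘(ℝ, F) f x)) :
    ∃ e : OpenPartialHomeomorph M F, x ∈ e.source ∧ (∀ y ∈ e.source, e y = f y) ∧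
      (∀ y ∈ e.source, ContMDiffAt J 𝓘(ℝ, F) ∞ f y ∧
        Function.Bijective (mfderiv J 𝓘(ℝ, F) f y)) ∧
      ∀ z ∈ e.target, ContMDiffAt 𝓘(ℝ, F) J ∞ e.symm z := by
  obtain ⟨e0, he1, he2⟩ := la_local hf.self_of_nhds hb
  obtain ⟨s, hs1, hs2, hs3⟩ := eventually_nhds_iff.1 (hf.and (la_bij hf.self_of_nhds hb))
  have hsrc : ∀ y, y ∈ (e0.restrOpen s hs2).source ↔ y ∈ e0.source ∧ y ∈ s := by
    intro y
    rw [OpenPartialHomeomorph.restrOpen_source]
    rfl
  have hval : ∀ y ∈ (e0.restrOpen s hs2).source, e0.restrOpen s hs2 y = f y :=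
    fun y hy => he2 y ((hsrc y).1 hy).1
  refine ⟨e0.restrOpen s hs2, (hsrc x).2 ⟨he1, hs3⟩, hval,
    fun y hy => hs1 y ((hsrc y).1 hy).2, ?_⟩
  intro z hz
  have hy : (e0.restrOpen s hs2).symm z ∈ (e0.restrOpen s hs2).source :=
    (e0.restrOpen s hs2).map_target hz
  have hev : (e0.restrOpen s hs2) =ᶠ[𝓝 ((e0.restrOpen s hs2).symm z)] f := by
    filter_upwards [(e0.restrOpen s hs2).open_source.mem_nhds hy] with y' hy' using hval y' hy'
  obtain ⟨h1, h2⟩ := hs1 _ ((hsrc _).1 hy).2
  have h3 := la_symm (J := J) (e0.restrOpen s hs2) hy (h1.congr_of_eventuallyEq hev)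
    (by rw [Filter.EventuallyEq.mfderiv_eq hev]; exact h2)
  rwa [(e0.restrOpen s hs2).right_inv hz] at h3

/-- pointwise version: the local inverse, smooth at the image point (smooth AT a point does not
imply smooth near the point, in Mathlib, for `∞`). -/
theorem exists_local_inv_at {x : M} {f : M → F} (hf : ContMDiffAt J 𝓘(ℝ, F) ∞ f x)
    (hb : Function.Bijective (mfderiv J 𝓘(ℝ, F) f x)) :
    ∃ e : OpenPartialHomeomorph M F, x ∈ e.source ∧ (∀ y ∈ e.source, e y = f y) ∧
      ContMDiffAt 𝓘(ℝ, F) J ∞ e.symm (f x) := by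
  obtain ⟨e, he1, he2⟩ := la_local hf hb
  have hev : e =ᶠ[𝓝 x] f := by
    filter_upwards [e.open_source.mem_nhds he1] with y' hy' using he2 y' hy'
  refine ⟨e, he1, he2, ?_⟩
  have h3 := la_symm (J := J) e he1 (hf.congr_of_eventuallyEq hev)
    (by rw [Filter.EventuallyEq.mfderiv_eq hev]; exact hb)
  rwa [he2 x he1] at h3

end gen

end Pool.Agent.BlowC
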