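import Pool.Agent.Lib.MP_1d980c_gt.Blow.BaseBridgeA
import Pool.Agent.Lib.MP_1d980c_gt.Blow.Loc

/-! Good germ atlases for all odd spheres. -/

set_option autoImplicit false
open Complex ComplexConjugate Topology Pool.Agent.S4T2
open scoped Manifold ContDiff

namespace Pool.Agent.BlowC

/-- there are good germ atlases for all `p`, `q`. -/
def AllGood {N : Type} [TopologicalSpace N] [ChartedSpace E4 N] (c d : Mark N) : Prop :=
  ∀ p q : ℕ, ∃ Gm Mc Md, Good (Z := Sn (2 * p + 1) × Sn (2 * q + 1))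
    (R := ℂ × (Fin p → ℂ) × (Fin q → ℂ)) (JZ p q) c d Gm Mc Md

instance (n : ℕ) : Nonempty (Sn n) :=
  ⟨⟨EuclideanSpace.single 0 1, by simp⟩⟩

end Pool.Agent.BlowC
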