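import Pool.Agent.Lib.MP_1d980c_gt.Blow.StepDom

/-! The germ atlas of a blow-up: relations. -/

set_option autoImplicit false
open Topology Pool.Agent.S4T2
open scoped Manifold ContDiff

namespace Pool.Agent.BlowC

section

variable {M N Z EZ HZ R : Type} [TopologicalSpace M] [ChartedSpace E4 M] [TopologicalSpace N]
  [ChartedSpace E4 N] [IsManifold (𝓡 4) ∞ M] [IsManifold (𝓡 4) ∞ N] [T2Space M] [T2Space N]
  [NormedAddCommGroup EZ] [NormedSpace ℝ EZ] [TopologicalSpace HZ] {JZ : ModelWithCorners ℝ EZ HZ}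
  [TopologicalSpace Z] [ChartedSpace HZ Z] [NormedAddCommGroup R] [NormedSpace ℂ R]
  {β : M → N} {c : Mark N} {c' : Mark M} {s : OnePoint ℂ → M}
  {Gm : N × Z → Set (N × Z → ℂ × ℂ × R)} {Mc : N × Z → Set (Trip (N × Z) R)}

private theorem holRel_refl' {X F : Type} [TopologicalSpace X] [NormedAddCommGroup F]
    [NormedSpace ℂ F] (x : X) (f : X → F) : HolRel x f f :=
  ⟨id, contDiffAt_id, Filter.Eventually.of_forall fun _ => rfl⟩

private theorem phi_ne (hM : MarkFam JZ c Gm Mc) {x : N × Z} {t : Trip (N × Z) R}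
    (ht : t ∈ Mc x) : ∀ᶠ x' in 𝓝 x, t.φ x' ≠ 0 :=
  (hM.smooth x t ht).1.continuousAt.eventually_ne (hM.smooth x t ht).2.2.1

private theorem psi_ne (hM : MarkFam JZ c Gm Mc) {x : N × Z} {t : Trip (N × Z) R}
    (ht : t ∈ Mc x) : ∀ᶠ x' in 𝓝 x, t.ψ x' ≠ 0 :=
  (hM.smooth x t ht).2.1.continuousAt.eventually_ne (hM.smooth x t ht).2.2.2

/-- off the exceptional curve every chart is related to a pulled back one. -/
theorem up_rel_off (B : BU β c c' s) (hM : MarkFam JZ c Gm Mc) (y : M × Z)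
    (hy : β y.1 ≠ c.pt) (f : M × Z → ℂ × ℂ × R) (hf : f ∈ GmUp β c c' s Gm Mc y) :
    ∃ g ∈ Gm (bt β y), HolRel y f (g ∘ bt β) ∧ HolRel y (g ∘ bt β) f := by
  have hβ : ContinuousAt β y.1 := B.smooth.continuous.continuousAt
  have hbt : ContinuousAt (bt (Z := Z) β) y :=
    ((B.smooth.continuous.comp continuous_fst).prodMk continuous_snd).continuousAt
  rcases hf with ⟨-, f0, hf0, rfl⟩ | ⟨hA, t, ht, rfl⟩ | ⟨hA, t, ht, rfl⟩
  · exact ⟨f0, hf0, holRel_refl' _ _, holRel_refl' _ _⟩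
  · refine ⟨chart c.u c.v t, hM.mem _ _ ht, ?_, ?_⟩
    · rw [B.hu]
      exact relF hβ hA.1 (phi_ne hM ht)
    · have hc : ContinuousAt (c.u ∘ β) y.1 := by
        rw [← B.hu]
        exact hA.2.1.smooth_u.continuousAt
      rw [B.hu]
      exact relG hβ hA.1 (phi_ne hM ht) hc (B.A1_off hA hy)
  · refine ⟨chart c.u c.v t, hM.mem _ _ ht, ?_, ?_⟩
    · have h1 : HolRel y (chart (c.v ∘ β) (fun y => (c'.v y)⁻¹) (t.swap.up β))
          (chart c.v c.u t.swap ∘ bt β) := relF (t := t.swap) hβ hA.1 (psi_ne hM ht)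
      exact holRel_trans h1 (holRel_comp hbt (chart_swap_rel (t := t.swap) c.v c.u (bt β y)))
    · have hc : ContinuousAt (c.v ∘ β) y.1 := hA.2.1.smooth_v.continuousAt
      have h1 : HolRel y (chart c.v c.u t.swap ∘ bt β)
          (chart (c.v ∘ β) (fun y => (c'.v y)⁻¹) (t.swap.up β)) :=
        relG (t := t.swap) hβ hA.1 (psi_ne hM ht) hc (B.A2_off hA hy)
      exact holRel_trans (holRel_comp hbt (chart_swap_rel (t := t) c.u c.v (bt β y))) h1

/-- relations on the exceptional curve. -/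
theorem up_rel_on (B : BU β c c' s) (hM : MarkFam JZ c Gm Mc) (y : M × Z)
    (hy : β y.1 = c.pt) (f g : M × Z → ℂ × ℂ × R) (hf : f ∈ GmUp β c c' s Gm Mc y)
    (hg : g ∈ GmUp β c c' s Gm Mc y) : HolRel y f g := by
  have hβ : ContinuousAt β y.1 := B.smooth.continuous.continuousAt
  obtain ⟨hu0, hv0, -⟩ := hM.coord
  rcases hf with ⟨h, -⟩ | ⟨hA, t, ht, rfl⟩ | ⟨hA, t, ht, rfl⟩
  · exact absurd hy h
  · rcases hg with ⟨h, -⟩ | ⟨hA', t', ht', rfl⟩ | ⟨hA', t', ht', rfl⟩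
    · exact absurd hy h
    · rw [B.hu]
      exact (MRel.up hβ hA.1 (phi_ne hM ht) (hM.rel _ _ ht _ ht')).holRel
    · rw [B.hu]
      exact rel12 hβ hA.1 hA.2.1.smooth_v.continuousAt (B.A12_E hu0 hv0 hA hA' hy)
        (phi_ne hM ht) (psi_ne hM ht) (hM.rel _ _ ht _ ht')
  · rcases hg with ⟨h, -⟩ | ⟨hA', t', ht', rfl⟩ | ⟨hA', t', ht', rfl⟩
    · exact absurd hy h
    · rw [B.hu]
      have h0 : c'.v y.1 ≠ 0 := B.A12_E hu0 hv0 hA' hA hy
      have h1 := rel12 (t := t.swap) (t' := t'.swap) hβ hA.1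
        hA.2.1.smooth_u.continuousAt (inv_ne_zero h0)
        (psi_ne hM ht) (phi_ne hM ht) (hM.rel _ _ ht _ ht').swap
      have h2 : (fun y => ((c'.v y)⁻¹)⁻¹) = c'.v := funext fun y => inv_inv _
      rw [h2] at h1
      exact h1
    · exact (MRel.up (t := t.swap) (t' := t'.swap) hβ hA.1 (psi_ne hM ht)
        (hM.rel _ _ ht _ ht').swap).holRel

end

end Pool.Agent.BlowC
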