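import Pool.Agent.Lib.MP_1d980c_gt.Blow.StepDom

/-! The new marked family of a blow-up. -/

set_option autoImplicit false
open Topology Pool.Agent.S4T2
open scoped Manifold ContDiff

namespace Pool.Agent.BlowC

section

variable {M N Z EZ HZ R : Type} [TopologicalSpace M] [ChartedSpace E4 M] [TopologicalSpace N]
  [ChartedSpace E4 N] [IsManifold (𝓡 4) ∞ M] [IsManifold (𝓡 4) ∞ N] [T2Space M] [T2Space N]
  [NormedAddCommGroup EZ] [NormedSpace ℝ EZ] [TopologicalSpace HZ] {JZ : ModelWithCorners ℝ EZ HZ}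
  [TopologicalSpace Z] [ChartedSpace HZ Z] [NormedAddCommGroup R] [NormedSpace ℂ R]
  {β : M → N} {c : Mark N} {c' : Mark M} {s : OnePoint ℂ → M}
  {Gm : N × Z → Set (N × Z → ℂ × ℂ × R)} {Mc : N × Z → Set (Trip (N × Z) R)}

theorem up_Mc [Nonempty Z] (B : BU β c c' s) (hM : MarkFam JZ c Gm Mc) :
    MarkFam JZ c' (GmUp β c c' s Gm Mc) (McUp β c c' s Mc) := by
  have hz : β c'.pt = c.pt := by rw [← B.zero]; exact B.s_over _
  refine ⟨⟨?_, ?_, ?_⟩, ?_, ?_, ?_, ?_, ?_⟩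
  · rw [B.hu, Function.comp_apply, hz]
    exact hM.coord.1
  · rw [← B.zero]
    exact B.fin1 0
  · rw [← B.zero]
    exact B.fin2 0
  · intro z
    obtain ⟨t, ht, hev⟩ := hM.ex z
    have hA : ∀ᶠ y in 𝓝 c'.pt, y ∈ A1 β c c' s := by
      rw [← B.zero]
      exact B.A1_nhds hM.hdom 0
    have hA' : ∀ᶠ y : M × Z in 𝓝 (c'.pt, z), y.1 ∈ A1 β c c' s :=
      (continuous_fst.tendsto (c'.pt, z)).eventually hA
    have hbt : Filter.Tendsto (bt (Z := Z) β) (𝓝 (c'.pt, z)) (𝓝 (c.pt, z)) := by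
      have h1 : Continuous (bt (Z := Z) β) :=
        (B.smooth.continuous.comp continuous_fst).prodMk continuous_snd
      have h2 := h1.tendsto (c'.pt, z)
      have h3 : bt (Z := Z) β (c'.pt, z) = (c.pt, z) := by
        simp only [bt, hz]
      rwa [h3] at h2
    have hE : ∀ᶠ y : M × Z in 𝓝 (c'.pt, z), Trip.up β t ∈ McUp β c c' s Mc y := by
      filter_upwards [hA', hbt.eventually hev] with y h1 h2
      exact ⟨h1, t, h2, rfl⟩
    exact ⟨Trip.up β t, hE.self_of_nhds, hE⟩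
  · rintro x t' ⟨hA, t, ht, rfl⟩
    exact Or.inr (Or.inl ⟨hA, t, ht, rfl⟩)
  · rintro x t' ⟨hA, t, ht, rfl⟩
    obtain ⟨h1, h2, h3, h4⟩ := hM.smooth _ t ht
    have hb : ContMDiffAt ((𝓡 4).prod JZ) ((𝓡 4).prod JZ) ∞ (bt (Z := Z) β) x :=
      bt_smooth (B.smooth x.1)
    have h1' : ContMDiffAt ((𝓡 4).prod JZ) 𝓘(ℝ, ℂ) ∞ (t.φ ∘ bt β) x := h1.comp x hb
    have h2' : ContMDiffAt ((𝓡 4).prod JZ) 𝓘(ℝ, ℂ) ∞ (t.ψ ∘ bt β) x := h2.comp x hb
    refine ⟨h1', ?_, h3, ?_⟩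
    · have h5 : ContMDiffAt ((𝓡 4).prod JZ) 𝓘(ℝ, ℂ × ℂ) ∞
          (fun y => ((t.ψ ∘ bt β) y, (t.φ ∘ bt β) y)) x := h2'.prodMk_space h1'
      have h6 : ContDiffAt ℝ ∞ (fun p : ℂ × ℂ => p.1 * p.2⁻¹)
          ((t.ψ ∘ bt β) x, (t.φ ∘ bt β) x) := by
        apply ContDiffAt.mul contDiffAt_fst
        exact ContDiffAt.inv contDiffAt_snd h3
      have h7 := h6.contMDiffAt.comp x h5
      have h8 : (Trip.up β t).ψ
          = (fun p : ℂ × ℂ => p.1 * p.2⁻¹) ∘ (fun y => ((t.ψ ∘ bt β) y, (t.φ ∘ bt β) y)) := by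
        funext y
        simp only [Trip.up, Function.comp_apply, div_eq_mul_inv]
      rw [h8]
      exact h7
    · exact div_ne_zero h4 h3
  · rintro x t' ⟨hA, t, ht, rfl⟩
    exact ⟨hA.2.1, fun hu hv => B.dom_new hM.coord.1 hA hu hv⟩
  · rintro x t' ⟨hA, t, ht, rfl⟩ t'' ⟨-, t2, ht2, rfl⟩
    have h1 := hM.rel _ t ht t2 ht2
    obtain ⟨h2, -, h3, -⟩ := hM.smooth _ t ht
    have h4 : ∀ᶠ w in 𝓝 (bt β x), t.φ w ≠ 0 := h2.continuousAt.eventually_ne h3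
    have h5 := MRel.up (y := x) (m := c'.v) (B.smooth.continuous.continuousAt) hA.1 h4 h1
    rw [B.hu]
    exact h5

end

end Pool.Agent.BlowC
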