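import Pool.Agent.Lib.MP_1d980c_gt.Blow.StepDom

/-! The pulled back marked family of a blow-up. -/

set_option autoImplicit false
open Topology Pool.Agent.S4T2
open scoped Manifold ContDiff

namespace Pool.Agent.BlowC

section

variable {M N Z EZ HZ R : Type} [TopologicalSpace M] [ChartedSpace E4 M] [TopologicalSpace N]
  [ChartedSpace E4 N] [IsManifold (𝓡 4) ∞ M] [IsManifold (𝓡 4) ∞ N] [T2Space M] [T2Space N]
  [NormedAddCommGroup EZ] [NormedSpace ℝ EZ] [TopologicalSpace HZ] {JZ : ModelWithCorners ℝ EZ HZ}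
  [TopologicalSpace Z] [ChartedSpace HZ Z] [NormedAddCommGroup R] [NormedSpace ℂ R]
  {β : M → N} {c : Mark N} {c' : Mark M} {s : OnePoint ℂ → M}
  {Gm : N × Z → Set (N × Z → ℂ × ℂ × R)} {Mc : N × Z → Set (Trip (N × Z) R)}

theorem up_Md [Nonempty Z] {d : Mark N} {d' : Mark M} {Md : N × Z → Set (Trip (N × Z) R)}
    (B : BU β c c' s) (hd : Pull β d d') (hne : c.pt ≠ d.pt) (hM : MarkFam JZ d Gm Md) :
    MarkFam JZ d' (GmUp β c c' s Gm Mc) (MdUp β c Md) := by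
  obtain ⟨hp, hu, hv⟩ := hd
  obtain ⟨hu0, hv0, hco⟩ := hM.coord
  have hcoordAt : ∀ x : M, β x ≠ c.pt → CoordAt d.u d.v (β x) → CoordAt d'.u d'.v x := by
    intro x hx h
    rw [hu, hv]
    exact CoordAt.comp (Filter.Eventually.of_forall fun y => B.smooth y) (B.offd x hx) h
  have hpne : β d'.pt ≠ c.pt := by rw [hp]; exact hne.symm
  have hcont : Continuous β := B.smooth.continuous
  have hbtc : Continuous (bt (Z := Z) β) :=
    (hcont.comp continuous_fst).prodMk continuous_snd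
  refine ⟨⟨?_, ?_, ?_⟩, ?_, ?_, ?_, ?_, ?_⟩
  · rw [hu]; simp only [Function.comp_apply, hp, hu0]
  · rw [hv]; simp only [Function.comp_apply, hp, hv0]
  · exact hcoordAt _ hpne (by rw [hp]; exact hco)
  · intro z
    obtain ⟨t, ht, hev⟩ := hM.ex z
    have hbt : bt β (d'.pt, z) = (d.pt, z) := by simp only [bt, hp]
    refine ⟨t.pull β, ⟨hpne, t, by rw [hbt]; exact ht, rfl⟩, ?_⟩
    have h1 : Filter.Tendsto (bt (Z := Z) β) (𝓝 (d'.pt, z)) (𝓝 (d.pt, z)) := by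
      rw [← hbt]; exact hbtc.tendsto _
    have h2 : ∀ᶠ y : M × Z in 𝓝 (d'.pt, z), β y.1 ≠ c.pt := by
      have : ContinuousAt (fun y : M × Z => β y.1) (d'.pt, z) :=
        (hcont.comp continuous_fst).continuousAt
      exact this.eventually (isOpen_ne.mem_nhds hpne)
    filter_upwards [h1.eventually hev, h2] with y hy hy2
    exact ⟨hy2, t, hy, rfl⟩
  · rintro x t' ⟨hx, t, ht, rfl⟩
    refine Or.inl ⟨hx, chart d.u d.v t, hM.mem _ _ ht, ?_⟩
    rw [hu, hv]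
    rfl
  · rintro x t' ⟨hx, t, ht, rfl⟩
    obtain ⟨h1, h2, h3, h4⟩ := hM.smooth _ _ ht
    have hb : ContMDiffAt ((𝓡 4).prod JZ) ((𝓡 4).prod JZ) ∞ (bt (Z := Z) β) x :=
      bt_smooth (B.smooth x.1)
    exact ⟨ContMDiffAt.comp (g := t.φ) (f := bt β) x h1 hb,
      ContMDiffAt.comp (g := t.ψ) (f := bt β) x h2 hb, h3, h4⟩
  · rintro x t' ⟨hx, t, ht, rfl⟩
    obtain ⟨h1, h2⟩ := hM.dom _ _ ht
    refine ⟨hcoordAt _ hx h1, fun hux hvx => ?_⟩
    have h3 : β x.1 = d.pt := by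
      rw [hu] at hux
      rw [hv] at hvx
      exact h2 hux hvx
    obtain ⟨y, -, hy⟩ := B.off d.pt hne.symm
    rw [hy x.1 h3, hy d'.pt hp]
  · rintro x t' ⟨hx, t, ht, rfl⟩ t'' ⟨hx2, t2, ht2, rfl⟩
    rw [hu, hv]
    exact MRel.pull hcont.continuousAt (hM.rel _ _ ht _ ht2)

end

end Pool.Agent.BlowC
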