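import Pool.Agent.Lib.MP_1d980c_gt.Blow.StepA
import Pool.Agent.Lib.MP_1d980c_gt.Blow.StepB
import Pool.Agent.Lib.MP_1d980c_gt.Blow.StepC
import Pool.Agent.Lib.MP_1d980c_gt.Blow.StepD

/-! The germ atlas of a blow-up. -/

set_option autoImplicit false
open Topology Pool.Agent.S4T2
open scoped Manifold ContDiff

namespace Pool.Agent.BlowC

section

variable {M N Z EZ HZ R : Type} [TopologicalSpace M] [ChartedSpace E4 M] [TopologicalSpace N]
  [ChartedSpace E4 N] [IsManifold (𝓡 4) ∞ M] [IsManifold (𝓡 4) ∞ N] [T2Space M] [T2Space N]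
  [NormedAddCommGroup EZ] [NormedSpace ℝ EZ] [TopologicalSpace HZ] {JZ : ModelWithCorners ℝ EZ HZ}
  [TopologicalSpace Z] [ChartedSpace HZ Z] [NormedAddCommGroup R] [NormedSpace ℂ R]
  {β : M → N} {c : Mark N} {c' : Mark M} {s : OnePoint ℂ → M}
  {Gm : N × Z → Set (N × Z → ℂ × ℂ × R)} {Mc : N × Z → Set (Trip (N × Z) R)}

theorem up_germs [Nonempty Z] (B : BU β c c' s) (hG : HolGerms ((𝓡 4).prod JZ) Gm)
    (hM : MarkFam JZ c Gm Mc) :
    HolGerms ((𝓡 4).prod JZ) (GmUp β c c' s Gm Mc) := by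
  refine ⟨up_ex B hG hM, up_sm B hG hM, up_in B hG hM, ?_⟩
  intro y f hf g hg
  by_cases hy : β y.1 = c.pt
  · exact up_rel_on B hM y hy f g hf hg
  · obtain ⟨f0, hf0, hf1, -⟩ := up_rel_off B hM y hy f hf
    obtain ⟨g0, hg0, -, hg2⟩ := up_rel_off B hM y hy g hg
    have hc : ContinuousAt (bt (Z := Z) β) y :=
      ((B.smooth.continuous.comp continuous_fst).prodMk continuous_snd).continuousAt
    exact holRel_trans (holRel_trans hf1 (holRel_comp hc (hG.rel _ _ hf0 _ hg0))) hg2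

/-- the inductive step. -/
theorem Good.step [Nonempty Z] {d : Mark N} {d' : Mark M} {Md : N × Z → Set (Trip (N × Z) R)}
    (hβ : IsBlowUp β c c') (hd : Pull β d d') (h : Good JZ c d Gm Mc Md) :
    ∃ Gm' Mc' Md', Good (Z := Z) (R := R) JZ c' d' Gm' Mc' Md' := by
  obtain ⟨s, B⟩ := hβ.exists_BU
  refine ⟨GmUp β c c' s Gm Mc, McUp β c c' s Mc, MdUp β c Md, ?_, up_germs B h.germs h.c,
    up_Mc B h.c, up_Md B hd h.ne h.d⟩
  intro he
  apply h.ne
  rw [← hd.1, ← he, ← B.zero]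
  have h1 : s (0 : ℂ) ∈ β ⁻¹' {c.pt} := B.range ▸ Set.mem_range_self _
  exact h1.symm

theorem Good.symm {c d : Mark N} {Md : N × Z → Set (Trip (N × Z) R)}
    (h : Good JZ c d Gm Mc Md) : Good JZ d c Gm Md Mc :=
  ⟨h.ne.symm, h.germs, h.d, h.c⟩

end

end Pool.Agent.BlowC
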