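import Pool.Agent.Lib.MP_1d980c_gt.Blow.Base
import Pool.Agent.Lib.MP_1d980c_gt.Blow.Step
import Pool.Agent.Lib.MP_1d980c_gt.Blow.BlowExist
import Pool.Agent.Lib.MP_1d980c_gt.Blow.DiffeoA

/-! Final assembly. -/

set_option autoImplicit false
open Complex ComplexConjugate Topology Pool.Agent.S4T2
open scoped Manifold ContDiff

namespace Pool.Agent.BlowC

theorem AllGood.step {M N : Type} [TopologicalSpace M] [ChartedSpace E4 M]
    [TopologicalSpace N] [ChartedSpace E4 N] [IsManifold (𝓡 4) ∞ M] [IsManifold (𝓡 4) ∞ N]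
    [T2Space M] [T2Space N] {β : M → N} {c d : Mark N} {c' d' : Mark M}
    (h : AllGood c d) (hβ : IsBlowUp β c c') (hd : Pull β d d') : AllGood c' d' := by
  intro p q
  obtain ⟨Gm, Mc, Md, hg⟩ := h p q
  exact hg.step hβ hd

theorem AllGood.symm {N : Type} [TopologicalSpace N] [ChartedSpace E4 N]
    [IsManifold (𝓡 4) ∞ N] [T2Space N] {c d : Mark N} (h : AllGood c d) : AllGood d c := by
  intro p q
  obtain ⟨Gm, Mc, Md, hg⟩ := h p q
  exact ⟨Gm, Md, Mc, hg.symm⟩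

theorem AllGood.isComplex {N : Type} [TopologicalSpace N] [ChartedSpace E4 N]
    [IsManifold (𝓡 4) ∞ N] {c d : Mark N} (h : AllGood c d) (p q : ℕ) :
    IsComplex (p + q + 3) ((𝓡 4).prod (JZ p q)) (N × Sn (2 * p + 1) × Sn (2 * q + 1)) := by
  obtain ⟨Gm, Mc, Md, hg⟩ := h p q
  obtain ⟨T⟩ := exists_tgt p q
  have hdim : Module.finrank ℝ (E4 × EuclideanSpace ℝ (Fin (2 * p + 1)) ×
      EuclideanSpace ℝ (Fin (2 * q + 1))) = 2 * (p + q + 3) := by
    rw [Module.finrank_prod, Module.finrank_prod, finrank_euclideanSpace_fin,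
      finrank_euclideanSpace_fin, finrank_euclideanSpace_fin]
    ring
  exact complex_of_holGerms T hdim hg.germs

theorem AllGood.south (b : ℕ) : ∀ (M : Type) [TopologicalSpace M] [ChartedSpace E4 M]
    [IsManifold (𝓡 4) ∞ M] [T2Space M] (c d : Mark M), South b M c d → AllGood c d := by
  induction b with
  | zero =>
    rintro M _ _ _ _ c d ⟨Φ, hc, hd⟩
    exact AllGood.diffeo Φ base hc hd
  | succ b ih =>
    rintro M _ _ _ _ c d ⟨N, _, _, c₀, d₀, β, h1, h2, _, h4, h5, h6⟩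
    exact (ih N c₀ d₀ h4).step h5 h6

theorem AllGood.tower (b a : ℕ) : ∀ (M : Type) [TopologicalSpace M] [ChartedSpace E4 M]
    [IsManifold (𝓡 4) ∞ M] [T2Space M] (c d : Mark M), Tower b a M c d → AllGood c d := by
  induction a with
  | zero =>
    intro M _ _ _ _ c d h
    exact AllGood.south b M c d h
  | succ a ih =>
    rintro M _ _ _ _ c d ⟨N, _, _, c₀, d₀, β, h1, h2, _, h4, h5, h6⟩
    exact ((ih N c₀ d₀ h4).symm.step h5 h6).symm

theorem exists_south (b : ℕ) : ∃ (M : Type) (_ : TopologicalSpace M) (_ : ChartedSpace E4 M)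
    (c d : Mark M), IsManifold (𝓡 4) ∞ M ∧ T2Space M ∧ CompactSpace M ∧ South b M c d := by
  induction b with
  | zero =>
    exact ⟨Sn 4, inferInstance, inferInstance, south, north, inferInstance, inferInstance,
      inferInstance, Diffeomorph.refl (𝓡 4) (Sn 4) ∞, ⟨rfl, rfl, rfl⟩, ⟨rfl, rfl, rfl⟩⟩
  | succ b ih =>
    obtain ⟨N, _, _, c₀, d₀, h1, h2, h3, h4⟩ := ih
    have hg := AllGood.south b N c₀ d₀ h4
    obtain ⟨Gm, Mc, Md, hg0⟩ := hg 0 0
    obtain ⟨M, _, _, β, c', k1, k2, k3, k4⟩ := exists_blowup c₀ hg0.c.coord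
    obtain ⟨d', hd⟩ := exists_pull k4 d₀ hg0.ne.symm
    exact ⟨M, _, _, c', d', k1, k2, k3, N, _, _, c₀, d₀, β, h1, h2, h3, h4, k4, hd⟩

theorem exists_tower (b a : ℕ) : ∃ (M : Type) (_ : TopologicalSpace M) (_ : ChartedSpace E4 M)
    (c d : Mark M), IsManifold (𝓡 4) ∞ M ∧ T2Space M ∧ CompactSpace M ∧ Tower b a M c d := by
  induction a with
  | zero => exact exists_south b
  | succ a ih =>
    obtain ⟨N, _, _, c₀, d₀, h1, h2, h3, h4⟩ := ih
    have hg := AllGood.tower b a N c₀ d₀ h4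
    obtain ⟨Gm, Mc, Md, hg0⟩ := hg 0 0
    obtain ⟨M, _, _, β, d', k1, k2, k3, k4⟩ := exists_blowup d₀ hg0.d.coord
    obtain ⟨c', hc⟩ := exists_pull k4 c₀ hg0.ne
    exact ⟨M, _, _, c', d', k1, k2, k3, N, _, _, c₀, d₀, β, h1, h2, h3, h4, k4, hc⟩

end Pool.Agent.BlowC
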