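import Pool.Agent.Lib.MP_1d980c_gt.Blow.BaseMarkA

/-! The marked charts of one side: definitions. -/

set_option autoImplicit false
open Complex ComplexConjugate Topology Pool.Agent.S4T2
open scoped Manifold ContDiff

namespace Pool.Agent.BlowC

/-- composition of a triple with a map. -/
def Trip.comp {Q Q' R : Type} (t : Trip Q R) (f : Q' → Q) : Trip Q' R :=
  ⟨t.φ ∘ f, t.ψ ∘ f, t.ρ ∘ f⟩

/-- the marked charts of one side. -/
def MkS {p q : ℕ} (s : Side) (φ₀ ψ₀ : A4 → ℂ) (ε μ : ℝ)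
    (y : Sn 4 × Sn (2 * p + 1) × Sn (2 * q + 1)) :
    Set (Trip (Sn 4 × Sn (2 * p + 1) × Sn (2 * q + 1)) (ℂ × (Fin p → ℂ) × (Fin q → ℂ))) :=
  {t | (io p q y).1 ∈ s.N ∧ ∃ d1 ∈ GO p (io p q y).2.1, ∃ d2 ∈ GO q (io p q y).2.2,
    t = (ndT s φ₀ ψ₀ ε μ d1 d2).comp (io p q)}

end Pool.Agent.BlowC
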