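import Pool.Agent.Lib.MP_1d980c_gt.Blow.StepDom

/-! The germ atlas of a blow-up: existence, smoothness, injectivity. -/

set_option autoImplicit false
open Topology Pool.Agent.S4T2
open scoped Manifold ContDiff

namespace Pool.Agent.BlowC

section

variable {M N Z EZ HZ R : Type} [TopologicalSpace M] [ChartedSpace E4 M] [TopologicalSpace N]
  [ChartedSpace E4 N] [IsManifold (𝓡 4) ∞ M] [IsManifold (𝓡 4) ∞ N] [T2Space M] [T2Space N]
  [NormedAddCommGroup EZ] [NormedSpace ℝ EZ] [TopologicalSpace HZ] {JZ : ModelWithCorners ℝ EZ HZ}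
  [TopologicalSpace Z] [ChartedSpace HZ Z] [NormedAddCommGroup R] [NormedSpace ℂ R]
  {β : M → N} {c : Mark N} {c' : Mark M} {s : OnePoint ℂ → M}
  {Gm : N × Z → Set (N × Z → ℂ × ℂ × R)} {Mc : N × Z → Set (Trip (N × Z) R)}

private theorem coordAt_swap {P : Type} [TopologicalSpace P] [ChartedSpace E4 P]
    [IsManifold (𝓡 4) ∞ P] {u v : P → ℂ} {x : P} (h : CoordAt u v x) : CoordAt v u x :=
  coordAt_of (h.eventually.mono fun _ hy => hy.smooth_v)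
    (h.eventually.mono fun _ hy => hy.smooth_u) (fun ξ h1 h2 => h.inj ξ h2 h1)

theorem up_ex [Nonempty Z] (B : BU β c c' s) (hG : HolGerms ((𝓡 4).prod JZ) Gm)
    (hM : MarkFam JZ c Gm Mc) (y : M × Z) :
    ∃ f ∈ GmUp β c c' s Gm Mc y, ∀ᶠ y' in 𝓝 y, f ∈ GmUp β c c' s Gm Mc y' := by
  have hβc : Continuous β := B.smooth.continuous
  have hbt : Continuous (bt (Z := Z) β) :=
    (hβc.comp continuous_fst).prodMk continuous_snd
  by_cases hy : β y.1 = c.pt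
  · obtain ⟨t, ht, hev⟩ := hM.ex y.2
    have hby : bt β y = (c.pt, y.2) := Prod.ext hy rfl
    rw [← hby] at ht hev
    have hev' : ∀ᶠ y' in 𝓝 y, t ∈ Mc (bt β y') := hbt.continuousAt.eventually hev
    have hfst : Filter.Tendsto (Prod.fst : M × Z → M) (𝓝 y) (𝓝 y.1) := continuous_fst.continuousAt
    obtain ⟨a, ha⟩ := B.exists_s hy
    have hinf : a = OnePoint.infty ∨ ∃ b : ℂ, a = (b : OnePoint ℂ) := by
      induction a using OnePoint.rec with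
      | infty => exact Or.inl rfl
      | coe b => exact Or.inr ⟨b, rfl⟩
    rcases hinf with rfl | ⟨b, rfl⟩
    · have hA : ∀ᶠ y' in 𝓝 y, y'.1 ∈ A2 β c c' s := by
        have h1 := B.A2_nhds hM.hdom
        rw [← ha] at h1
        exact hfst.eventually h1
      refine ⟨chart (c.v ∘ β) (fun y => (c'.v y)⁻¹) (t.swap.up β), ?_, ?_⟩
      · exact Or.inr (Or.inr ⟨hA.self_of_nhds, t, ht, rfl⟩)
      · filter_upwards [hA, hev'] with y' h1 h2
        exact Or.inr (Or.inr ⟨h1, t, h2, rfl⟩)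
    · have hA : ∀ᶠ y' in 𝓝 y, y'.1 ∈ A1 β c c' s := by
        have h1 := B.A1_nhds hM.hdom b
        rw [← ha] at h1
        exact hfst.eventually h1
      refine ⟨chart c'.u c'.v (t.up β), ?_, ?_⟩
      · exact Or.inr (Or.inl ⟨hA.self_of_nhds, t, ht, rfl⟩)
      · filter_upwards [hA, hev'] with y' h1 h2
        exact Or.inr (Or.inl ⟨h1, t, h2, rfl⟩)
  · obtain ⟨f, hf, hev⟩ := hG.ex (bt β y)
    have hev' : ∀ᶠ y' in 𝓝 y, f ∈ Gm (bt β y') := hbt.continuousAt.eventually hev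
    have hne : ∀ᶠ y' in 𝓝 y, β y'.1 ≠ c.pt :=
      (hβc.comp continuous_fst).continuousAt.eventually_ne hy
    refine ⟨f ∘ bt β, Or.inl ⟨hy, f, hf, rfl⟩, ?_⟩
    filter_upwards [hev', hne] with y' h1 h2
    exact Or.inl ⟨h2, f, h1, rfl⟩

theorem up_sm (B : BU β c c' s) (hG : HolGerms ((𝓡 4).prod JZ) Gm)
    (hM : MarkFam JZ c Gm Mc) (y : M × Z) (f : M × Z → ℂ × ℂ × R)
    (hf : f ∈ GmUp β c c' s Gm Mc y) :
    ContMDiffAt ((𝓡 4).prod JZ) 𝓘(ℝ, ℂ × ℂ × R) ∞ f y := by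
  have hβ : ContMDiffAt (𝓡 4) (𝓡 4) ∞ β y.1 := B.smooth.contMDiffAt
  rcases hf with ⟨hy, f0, hf0, rfl⟩ | ⟨hA, t, ht, rfl⟩ | ⟨hA, t, ht, rfl⟩
  · exact (hG.smooth _ _ hf0).comp y (bt_smooth hβ)
  · obtain ⟨h1, h2, h3, h4⟩ := hM.smooth _ _ ht
    have hC := hA.2.1
    rw [B.hu] at hC ⊢
    exact up_smooth hβ hC h1 h2 h3 (hG.smooth _ _ (hM.mem _ _ ht))
  · obtain ⟨h1, h2, h3, h4⟩ := hM.smooth _ _ ht
    have hC : CoordAt (c.v ∘ β) (fun y => (c'.v y)⁻¹) y.1 :=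
      coordAt_swap hA.2.1
    exact up_smooth (t := t.swap) hβ hC h2 h1 h4 (chart_swap_smooth (hG.smooth _ _ (hM.mem _ _ ht)))

theorem up_in (B : BU β c c' s) (hG : HolGerms ((𝓡 4).prod JZ) Gm)
    (hM : MarkFam JZ c Gm Mc) (y : M × Z) (f : M × Z → ℂ × ℂ × R)
    (hf : f ∈ GmUp β c c' s Gm Mc y) :
    Function.Injective (mfderiv ((𝓡 4).prod JZ) 𝓘(ℝ, ℂ × ℂ × R) f y) := by
  have hβ : ContMDiffAt (𝓡 4) (𝓡 4) ∞ β y.1 := B.smooth.contMDiffAt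
  rcases hf with ⟨hy, f0, hf0, rfl⟩ | ⟨hA, t, ht, rfl⟩ | ⟨hA, t, ht, rfl⟩
  · exact bt_inj hβ (B.offd _ hy).1 (hG.smooth _ _ hf0) (hG.inj _ _ hf0)
  · obtain ⟨h1, h2, h3, h4⟩ := hM.smooth _ _ ht
    have hC := hA.2.1
    have h5 := hM.mem _ _ ht
    rw [B.hu] at hC ⊢
    exact up_inj hβ hC hA.1 h1 h2 h3 h4 (hG.smooth _ _ h5) (hG.inj _ _ h5)
  · obtain ⟨h1, h2, h3, h4⟩ := hM.smooth _ _ ht
    have h5 := hM.mem _ _ ht
    have hC : CoordAt (c.v ∘ β) (fun y => (c'.v y)⁻¹) y.1 :=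
      coordAt_swap hA.2.1
    exact up_inj (t := t.swap) hβ hC hA.1 h2 h1 h4 h3 (chart_swap_smooth (hG.smooth _ _ h5))
      (chart_swap_inj (hG.smooth _ _ h5) (hG.inj _ _ h5))

end

end Pool.Agent.BlowC
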