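import Pool.Agent.Lib.MP_1d980c_gt.Blow.GermsA
import Pool.Agent.Lib.MP_1d980c_gt.Blow.Loc

/-! The germ atlas of a blow-up: definitions. -/

set_option autoImplicit false
open Topology Pool.Agent.S4T2
open scoped Manifold ContDiff

namespace Pool.Agent.BlowC

section

variable {M N Z R : Type} [TopologicalSpace M] [ChartedSpace E4 M] [TopologicalSpace N]
  [ChartedSpace E4 N]

/-- the content of `IsBlowUp` with explicit `s`. -/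
structure BU (β : M → N) (c : Mark N) (c' : Mark M) (s : OnePoint ℂ → M) : Prop where
  smooth : ContMDiff (𝓡 4) (𝓡 4) ∞ β
  off : ∀ x, x ≠ c.pt → ∃! y, β y = x
  offd : ∀ y, β y ≠ c.pt → Function.Bijective (mfderiv (𝓡 4) (𝓡 4) β y)
  hu : c'.u = c.u ∘ β
  inj : Function.Injective s
  range : Set.range s = β ⁻¹' {c.pt}
  zero : s (0 : ℂ) = c'.pt
  fin1 : ∀ a : ℂ, c'.v (s a) = a
  fin2 : ∀ a : ℂ, CoordAt c'.u c'.v (s a)
  fin3 : ∀ a : ℂ, ∀ᶠ y in 𝓝 (s a), c.v (β y) = c'.v y * c.u (β y)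
  inf1 : c'.v (s OnePoint.infty) = 0
  inf2 : CoordAt (fun y => (c'.v y)⁻¹) (c.v ∘ β) (s OnePoint.infty)
  inf3 : ∀ᶠ y in 𝓝 (s OnePoint.infty), c.u (β y) = (c'.v y)⁻¹ * c.v (β y)

theorem IsBlowUp.exists_BU {β : M → N} {c : Mark N} {c' : Mark M} (h : IsBlowUp β c c') :
    ∃ s, BU β c c' s := by
  obtain ⟨h1, h2, h3, h4, s, h5, h6, h7, h8, h9, h10, h11⟩ := h
  exact ⟨s, h1, h2, h3, h4, h5, h6, h7, fun a => (h8 a).1, fun a => (h8 a).2.1,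
    fun a => (h8 a).2.2, h9, h10, h11⟩

/-- `(x, z) ↦ (β x, z)`. -/
def bt (β : M → N) (y : M × Z) : N × Z := (β y.1, y.2)

/-- where the chart of finite slopes is used. -/
def A1 (β : M → N) (c : Mark N) (c' : Mark M) (s : OnePoint ℂ → M) : Set M :=
  {y | (∀ᶠ y' in 𝓝 y, c.v (β y') = c'.v y' * c.u (β y')) ∧ CoordAt c'.u c'.v y ∧
    (c.u (β y) ≠ 0 ∨ ∃ a : ℂ, y = s a)}

/-- where the chart of nonzero slopes is used. -/
def A2 (β : M → N) (c : Mark N) (c' : Mark M) (s : OnePoint ℂ → M) : Set M :=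
  {y | (∀ᶠ y' in 𝓝 y, c.u (β y') = (c'.v y')⁻¹ * c.v (β y')) ∧
    CoordAt (fun y => (c'.v y)⁻¹) (c.v ∘ β) y ∧
    (c.v (β y) ≠ 0 ∨ ∃ a : OnePoint ℂ, a ≠ (0 : ℂ) ∧ y = s a)}

def Trip.swap {Q : Type} (t : Trip Q R) : Trip Q R := ⟨t.ψ, t.φ, t.ρ⟩

/-- pull-back of a triple. -/
def Trip.pull (β : M → N) (t : Trip (N × Z) R) : Trip (M × Z) R :=
  ⟨t.φ ∘ bt β, t.ψ ∘ bt β, t.ρ ∘ bt β⟩

/-- the triple of the blow-up. -/
noncomputable def Trip.up (β : M → N) (t : Trip (N × Z) R) : Trip (M × Z) R :=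
  ⟨t.φ ∘ bt β, fun y => t.ψ (bt β y) / t.φ (bt β y), t.ρ ∘ bt β⟩

/-- the germ atlas of the blow-up. -/
def GmUp (β : M → N) (c : Mark N) (c' : Mark M) (s : OnePoint ℂ → M)
    (Gm : N × Z → Set (N × Z → ℂ × ℂ × R)) (Mc : N × Z → Set (Trip (N × Z) R)) (y : M × Z) :
    Set (M × Z → ℂ × ℂ × R) :=
  {g | (β y.1 ≠ c.pt ∧ ∃ f ∈ Gm (bt β y), g = f ∘ bt β) ∨
    (y.1 ∈ A1 β c c' s ∧ ∃ t ∈ Mc (bt β y), g = chart c'.u c'.v (t.up β)) ∨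
    (y.1 ∈ A2 β c c' s ∧ ∃ t ∈ Mc (bt β y),
      g = chart (c.v ∘ β) (fun y => (c'.v y)⁻¹) (t.swap.up β))}

/-- the marked charts at the new mark. -/
def McUp (β : M → N) (c : Mark N) (c' : Mark M) (s : OnePoint ℂ → M)
    (Mc : N × Z → Set (Trip (N × Z) R)) (y : M × Z) : Set (Trip (M × Z) R) :=
  {t' | y.1 ∈ A1 β c c' s ∧ ∃ t ∈ Mc (bt β y), t' = t.up β}

/-- the marked charts at the other mark. -/
def MdUp (β : M → N) (c : Mark N) (Md : N × Z → Set (Trip (N × Z) R)) (y : M × Z) :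
    Set (Trip (M × Z) R) :=
  {t' | β y.1 ≠ c.pt ∧ ∃ t ∈ Md (bt β y), t' = t.pull β}

end

end Pool.Agent.BlowC
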