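import Pool.Agent.Lib.MP_1d980c_gt.Blow.StepInjA

/-! The charts of the blow-up have injective derivative. -/

set_option autoImplicit false
open Topology Pool.Agent.S4T2
open scoped Manifold ContDiff

namespace Pool.Agent.BlowC

section

variable {M N Z EZ HZ R : Type} [TopologicalSpace M] [ChartedSpace E4 M] [TopologicalSpace N]
  [ChartedSpace E4 N] [IsManifold (𝓡 4) ∞ M] [IsManifold (𝓡 4) ∞ N]
  [NormedAddCommGroup EZ] [NormedSpace ℝ EZ] [TopologicalSpace HZ] {JZ : ModelWithCorners ℝ EZ HZ}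
  [TopologicalSpace Z] [ChartedSpace HZ Z] [NormedAddCommGroup R] [NormedSpace ℂ R]
  {β : M → N} {U V : N → ℂ} {m : M → ℂ} {y : M × Z} {t : Trip (N × Z) R}

private theorem injB_zero {F : Type} [NormedAddCommGroup F] [NormedSpace ℝ F]
    {h : M × Z → F} {h0 : N × Z → F}
    (hb : MDifferentiableAt ((𝓡 4).prod JZ) ((𝓡 4).prod JZ) (bt (Z := Z) β) y)
    (h0d : MDifferentiableAt ((𝓡 4).prod JZ) 𝓘(ℝ, F) h0 (bt β y))
    (he : h =ᶠ[𝓝 y] h0 ∘ bt β) (ξ : TangentSpace ((𝓡 4).prod JZ) y)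
    (hξ : mfderiv ((𝓡 4).prod JZ) ((𝓡 4).prod JZ) (bt (Z := Z) β) y ξ = 0) :
    mfderiv ((𝓡 4).prod JZ) 𝓘(ℝ, F) h y ξ = 0 := by
  rw [he.mfderiv_eq, mfderiv_comp y h0d hb]
  show mfderiv ((𝓡 4).prod JZ) 𝓘(ℝ, F) h0 (bt β y)
    (mfderiv ((𝓡 4).prod JZ) ((𝓡 4).prod JZ) (bt (Z := Z) β) y ξ) = 0
  rw [hξ, map_zero]

private theorem injB_fst {w : M → ℂ} (hw : MDifferentiableAt (𝓡 4) 𝓘(ℝ, ℂ) w y.1)
    (ξ : TangentSpace ((𝓡 4).prod JZ) y) :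
    mfderiv ((𝓡 4).prod JZ) 𝓘(ℝ, ℂ) (fun y : M × Z => w y.1) y ξ =
      mfderiv (𝓡 4) 𝓘(ℝ, ℂ) w y.1 ξ.1 := by
  have h1 : HasMFDerivAt ((𝓡 4).prod JZ) 𝓘(ℝ, ℂ) (fun y : M × Z => w y.1) y
      ((mfderiv (𝓡 4) 𝓘(ℝ, ℂ) w y.1).comp
        (ContinuousLinearMap.fst ℝ (TangentSpace (𝓡 4) y.1) (TangentSpace JZ y.2))) :=
    hw.hasMFDerivAt.comp y (hasMFDerivAt_fst (I := 𝓡 4) (I' := JZ) y)
  rw [h1.mfderiv]
  rfl

/-- the charts of the blow-up have injective derivative. -/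
theorem up_inj (hβ : ContMDiffAt (𝓡 4) (𝓡 4) ∞ β y.1) (hC : CoordAt (U ∘ β) m y.1)
    (hm : ∀ᶠ y' in 𝓝 y.1, V (β y') = m y' * U (β y'))
    (hφ : ContMDiffAt ((𝓡 4).prod JZ) 𝓘(ℝ, ℂ) ∞ t.φ (bt β y))
    (hψ : ContMDiffAt ((𝓡 4).prod JZ) 𝓘(ℝ, ℂ) ∞ t.ψ (bt β y)) (hφ0 : t.φ (bt β y) ≠ 0)
    (hψ0 : t.ψ (bt β y) ≠ 0)
    (hf : ContMDiffAt ((𝓡 4).prod JZ) 𝓘(ℝ, ℂ × ℂ × R) ∞ (chart U V t) (bt β y))
    (hi : Function.Injective (mfderiv ((𝓡 4).prod JZ) 𝓘(ℝ, ℂ × ℂ × R) (chart U V t) (bt β y))) :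
    Function.Injective (mfderiv ((𝓡 4).prod JZ) 𝓘(ℝ, ℂ × ℂ × R) (chart (U ∘ β) m (t.up β)) y) := by
  have hgs := up_smooth hβ hC hφ hψ hφ0 hf
  have hgd := hgs.mdifferentiableAt (by simp)
  have hbs := bt_smooth (Z := Z) (JZ := JZ) (y := y) hβ
  have hbd := hbs.mdifferentiableAt (by simp)
  have hfd := hf.mdifferentiableAt (by simp)
  have hφd := hφ.mdifferentiableAt (by simp)
  have hψd := hψ.mdifferentiableAt (by simp)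
  have hbc : ContinuousAt (bt (Z := Z) β) y := hbs.continuousAt
  have hφn : ∀ᶠ x in 𝓝 (bt β y), t.φ x ≠ 0 := hφ.continuousAt.eventually_ne hφ0
  have hm' : ∀ᶠ y' : M × Z in 𝓝 y, V (β y'.1) = m y'.1 * U (β y'.1) :=
    continuous_fst.continuousAt.eventually hm
  rw [injective_iff_map_eq_zero]
  intro ξ hξ
  -- the derivative of `bt β` kills `ξ`
  have hk : ContDiff ℝ ∞ (fun w : ℂ × ℂ × R => (w.1, w.1 * w.2.1, w.2.2)) :=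
    contDiff_fst.prodMk ((contDiff_fst.mul (contDiff_fst.comp contDiff_snd)).prodMk
      (contDiff_snd.comp contDiff_snd))
  have hkey : (chart U V t ∘ bt β) =ᶠ[𝓝 y]
      ((fun w : ℂ × ℂ × R => (w.1, w.1 * w.2.1, w.2.2)) ∘ chart (U ∘ β) m (t.up β)) := by
    filter_upwards [hm', hbc.eventually hφn] with y' e1 e2
    refine Prod.ext rfl (Prod.ext ?_ rfl)
    show V (β y'.1) * t.ψ (bt β y') = U (β y'.1) * t.φ (bt β y') *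
      (m y'.1 * (t.ψ (bt β y') / t.φ (bt β y')))
    rw [e1]
    field_simp
  have h1 : mfderiv ((𝓡 4).prod JZ) 𝓘(ℝ, ℂ × ℂ × R) (chart U V t ∘ bt β) y ξ = 0 := by
    rw [hkey.mfderiv_eq, mfderiv_comp (I' := 𝓘(ℝ, ℂ × ℂ × R)) y
      (hk.contMDiff.mdifferentiable (by simp) _) hgd]
    show mfderiv 𝓘(ℝ, ℂ × ℂ × R) 𝓘(ℝ, ℂ × ℂ × R)
      (fun w : ℂ × ℂ × R => (w.1, w.1 * w.2.1, w.2.2)) (chart (U ∘ β) m (t.up β) y)
      (mfderiv ((𝓡 4).prod JZ) 𝓘(ℝ, ℂ × ℂ × R) (chart (U ∘ β) m (t.up β)) y ξ) = 0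
    rw [hξ, map_zero]
  have hb0 : mfderiv ((𝓡 4).prod JZ) ((𝓡 4).prod JZ) (bt (Z := Z) β) y ξ = 0 := by
    rw [mfderiv_comp y hfd hbd] at h1
    apply hi
    rw [map_zero]
    exact h1
  -- components
  have hu : mfderiv (𝓡 4) 𝓘(ℝ, ℂ) (U ∘ β) y.1 ξ.1 = 0 := by
    rw [← injB_fst (JZ := JZ) (y := y) (hC.smooth_u.mdifferentiableAt (by simp)) ξ]
    have h0 : MDifferentiableAt ((𝓡 4).prod JZ) 𝓘(ℝ, ℂ) (fun x : N × Z => U x.1) (bt β y) := by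
      have k : ContDiffAt ℝ ∞ (fun w : (ℂ × ℂ × R) × ℂ => w.1.1 * (w.2)⁻¹)
          (chart U V t (bt β y), t.φ (bt β y)) :=
        (contDiff_fst.comp contDiff_fst).contDiffAt.mul (contDiff_snd.contDiffAt.inv hφ0)
      have h2 : ContMDiffAt ((𝓡 4).prod JZ) 𝓘(ℝ, ℂ) ∞
          (fun x : N × Z => (chart U V t x).1 * (t.φ x)⁻¹) (bt β y) :=
        ContMDiffAt.comp (bt β y) k.contMDiffAt (hf.prodMk_space hφ)
      refine (h2.mdifferentiableAt (by simp)).congr_of_eventuallyEq ?_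
      filter_upwards [hφn] with x hx
      show U x.1 = U x.1 * t.φ x * (t.φ x)⁻¹
      field_simp
    exact injB_zero hbd h0 (Filter.EventuallyEq.refl _ _) ξ hb0
  have hv : mfderiv (𝓡 4) 𝓘(ℝ, ℂ) m y.1 ξ.1 = 0 := by
    have hmd : MDifferentiableAt (𝓡 4) 𝓘(ℝ, ℂ) m y.1 := hC.smooth_v.mdifferentiableAt (by simp)
    have hmd' : MDifferentiableAt ((𝓡 4).prod JZ) 𝓘(ℝ, ℂ) (fun y : M × Z => m y.1) y :=
      hmd.comp y mdifferentiableAt_fst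
    rw [← injB_fst (JZ := JZ) (y := y) hmd ξ]
    have k : ContDiffAt ℝ ∞ (fun w : ℂ × ℂ => w.1 * (w.2)⁻¹) (t.ψ (bt β y), t.φ (bt β y)) :=
      contDiff_fst.contDiffAt.mul (contDiff_snd.contDiffAt.inv hφ0)
    have h2 : ContMDiffAt ((𝓡 4).prod JZ) 𝓘(ℝ, ℂ) ∞
        (fun x : N × Z => t.ψ x * (t.φ x)⁻¹) (bt β y) :=
      ContMDiffAt.comp (bt β y) k.contMDiffAt (hψ.prodMk_space hφ)
    have h2d := h2.mdifferentiableAt (by simp)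
    have h3 : mfderiv ((𝓡 4).prod JZ) 𝓘(ℝ, ℂ)
        ((fun x : N × Z => t.ψ x * (t.φ x)⁻¹) ∘ bt β) y ξ = 0 :=
      injB_zero hbd h2d (Filter.EventuallyEq.refl _ _) ξ hb0
    have h4 : mfderiv ((𝓡 4).prod JZ) 𝓘(ℝ, ℂ)
        ((fun w : ℂ × ℂ × R => w.2.1) ∘ chart (U ∘ β) m (t.up β)) y ξ = 0 := by
      have hl : ContDiff ℝ ∞ (fun w : ℂ × ℂ × R => w.2.1) := contDiff_fst.comp contDiff_snd
      rw [mfderiv_comp (I' := 𝓘(ℝ, ℂ × ℂ × R)) y (hl.contMDiff.mdifferentiable (by simp) _) hgd]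
      show mfderiv 𝓘(ℝ, ℂ × ℂ × R) 𝓘(ℝ, ℂ) (fun w : ℂ × ℂ × R => w.2.1)
        (chart (U ∘ β) m (t.up β) y)
        (mfderiv ((𝓡 4).prod JZ) 𝓘(ℝ, ℂ × ℂ × R) (chart (U ∘ β) m (t.up β)) y ξ) = 0
      rw [hξ, map_zero]
    have h5 : ((fun w : ℂ × ℂ × R => w.2.1) ∘ chart (U ∘ β) m (t.up β)) =
        (fun y : M × Z => m y.1) * ((fun x : N × Z => t.ψ x * (t.φ x)⁻¹) ∘ bt β) := by
      funext y'
      show m y'.1 * (t.ψ (bt β y') / t.φ (bt β y')) = m y'.1 * (t.ψ (bt β y') * (t.φ (bt β y'))⁻¹)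
      rw [div_eq_mul_inv]
    have h6 := hmd'.hasMFDerivAt.mul
      (MDifferentiableAt.comp (I' := (𝓡 4).prod JZ) y h2d hbd).hasMFDerivAt
    rw [h5, h6.mfderiv] at h4
    obtain ⟨A, hA⟩ : ∃ A : ℂ, A = mfderiv ((𝓡 4).prod JZ) 𝓘(ℝ, ℂ)
      ((fun x : N × Z => t.ψ x * (t.φ x)⁻¹) ∘ bt β) y ξ := ⟨_, rfl⟩
    obtain ⟨B, hB⟩ : ∃ B : ℂ, B = mfderiv ((𝓡 4).prod JZ) 𝓘(ℝ, ℂ)
      (fun y : M × Z => m y.1) y ξ := ⟨_, rfl⟩
    have h7 : m y.1 * A + (t.ψ (bt β y) * (t.φ (bt β y))⁻¹) * B = 0 := by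
      rw [hA, hB]
      exact h4
    have hA0 : A = 0 := hA.trans h3
    rw [hA0, mul_zero, zero_add] at h7
    exact hB.symm.trans ((mul_eq_zero.1 h7).resolve_left (mul_ne_zero hψ0 (inv_ne_zero hφ0)))
  have hz : ξ.2 = 0 := by
    have h1 : mfderiv ((𝓡 4).prod JZ) JZ
        ((Prod.snd : N × Z → Z) ∘ bt β) y ξ = 0 := by
      rw [mfderiv_comp (I' := (𝓡 4).prod JZ) y mdifferentiableAt_snd hbd]
      show mfderiv ((𝓡 4).prod JZ) JZ (Prod.snd : N × Z → Z) (bt β y)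
        (mfderiv ((𝓡 4).prod JZ) ((𝓡 4).prod JZ) (bt (Z := Z) β) y ξ) = 0
      rw [hb0, map_zero]
    have h2 : ((Prod.snd : N × Z → Z) ∘ bt β) = (Prod.snd : M × Z → Z) := rfl
    rw [h2, mfderiv_snd] at h1
    exact h1
  have hx : ξ.1 = 0 := hC.inj ξ.1 hu hv
  exact Prod.ext hx hz

end

end Pool.Agent.BlowC
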