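import Pool.Agent.Lib.MP_1d980c_gt.Blow.StepDefs

/-! Relations between the charts of a blow-up, second part. -/

set_option autoImplicit false
open Topology Pool.Agent.S4T2
open scoped Manifold ContDiff

namespace Pool.Agent.BlowC

section

variable {M N Z R : Type} [TopologicalSpace M] [TopologicalSpace N] [TopologicalSpace Z]
  [NormedAddCommGroup R] [NormedSpace ℂ R] {β : M → N} {U V : N → ℂ} {m : M → ℂ} {y : M × Z}
  {t t' : Trip (N × Z) R}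

/-- the blow-down in coordinates -/
private def rbk (p : ℂ × ℂ × R) : ℂ × ℂ × R := (p.1, p.1 * p.2.1, p.2.2)

omit [TopologicalSpace M] [TopologicalSpace N] [TopologicalSpace Z] in
private theorem rbk_smooth : ContDiff ℂ ∞ (rbk : ℂ × ℂ × R → ℂ × ℂ × R) :=
  contDiff_fst.prodMk
    ((contDiff_fst.mul (contDiff_fst.comp contDiff_snd)).prodMk (contDiff_snd.comp contDiff_snd))

omit [NormedAddCommGroup R] [NormedSpace ℂ R] in
private theorem rb_bt_cont (hβ : ContinuousAt β y.1) : ContinuousAt (bt β) y := by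
  have h1 : ContinuousAt (fun y' : M × Z => β y'.1) y :=
    ContinuousAt.comp (f := fun y' : M × Z => y'.1) hβ continuousAt_fst
  exact h1.prodMk continuousAt_snd

omit [NormedAddCommGroup R] [NormedSpace ℂ R] in
private theorem rb_key (hβ : ContinuousAt β y.1)
    (hm : ∀ᶠ y' in 𝓝 y.1, V (β y') = m y' * U (β y'))
    (hφ : ∀ᶠ x in 𝓝 (bt β y), t.φ x ≠ 0) :
    ∀ᶠ y' in 𝓝 y, chart U V t (bt β y') = rbk (chart (U ∘ β) m (t.up β) y') := by
  have h1 : ∀ᶠ y' in 𝓝 y, t.φ (bt β y') ≠ 0 := (rb_bt_cont hβ).eventually hφ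
  have h2 : ∀ᶠ y' in 𝓝 y, V (β y'.1) = m y'.1 * U (β y'.1) :=
    (continuousAt_fst (p := y)).eventually hm
  filter_upwards [h1, h2] with y' h1 h2
  simp only [chart, rbk, bt, Trip.up, Function.comp] at h1 ⊢
  rw [h2]
  refine Prod.ext rfl (Prod.ext ?_ rfl)
  simp only
  field_simp

/-- from finite slopes to nonzero slopes. -/
theorem rel12 (hβ : ContinuousAt β y.1) (hm : ∀ᶠ y' in 𝓝 y.1, V (β y') = m y' * U (β y'))
    (hc : ContinuousAt m y.1) (h0 : m y.1 ≠ 0)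
    (hφ : ∀ᶠ x in 𝓝 (bt β y), t.φ x ≠ 0) (hψ : ∀ᶠ x in 𝓝 (bt β y), t.ψ x ≠ 0)
    (h : MRel U V (bt β y) t t') :
    HolRel y (chart (U ∘ β) m (t.up β)) (chart (V ∘ β) (fun y => (m y)⁻¹) (t'.swap.up β)) := by
  obtain ⟨h1, h2, H, c1, c2, c3, n1, n2, he⟩ := h
  have hk := rb_key (t := t) hβ hm hφ
  have hky := hk.self_of_nhds
  have hφy := hφ.self_of_nhds
  have hψy := hψ.self_of_nhds
  rw [hky] at c1 c2 c3 n1 n2
  have hB : (chart (U ∘ β) m (t.up β) y).2.1 ≠ 0 := by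
    simp only [chart, Trip.up]
    exact mul_ne_zero h0 (div_ne_zero hψy hφy)
  refine ⟨fun p => (p.1 * p.2.1 * h2 (rbk p), (p.2.1)⁻¹ * (h1 (rbk p) / h2 (rbk p)),
    H (rbk p)), ?_, ?_⟩
  · have e1 : ContDiffAt ℂ ∞ (fun p : ℂ × ℂ × R => h1 (rbk p)) (chart (U ∘ β) m (t.up β) y) :=
      ContDiffAt.comp (g := h1) (f := rbk) _ c1 rbk_smooth.contDiffAt
    have e2 : ContDiffAt ℂ ∞ (fun p : ℂ × ℂ × R => h2 (rbk p)) (chart (U ∘ β) m (t.up β) y) :=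
      ContDiffAt.comp (g := h2) (f := rbk) _ c2 rbk_smooth.contDiffAt
    have e3 : ContDiffAt ℂ ∞ (fun p : ℂ × ℂ × R => H (rbk p)) (chart (U ∘ β) m (t.up β) y) :=
      ContDiffAt.comp (g := H) (f := rbk) _ c3 rbk_smooth.contDiffAt
    have p1 : ContDiff ℂ ∞ (fun p : ℂ × ℂ × R => p.1) := contDiff_fst
    have p2 : ContDiff ℂ ∞ (fun p : ℂ × ℂ × R => p.2.1) := contDiff_fst.comp contDiff_snd
    exact ((p1.contDiffAt.mul p2.contDiffAt).mul e2).prodMk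
      (((p2.contDiffAt.inv hB).mul (e1.div e2 n2)).prodMk e3)
  · have he' : ∀ᶠ y' in 𝓝 y, t'.φ (bt β y') = t.φ (bt β y') * h1 (chart U V t (bt β y')) ∧
        t'.ψ (bt β y') = t.ψ (bt β y') * h2 (chart U V t (bt β y')) ∧
        t'.ρ (bt β y') = H (chart U V t (bt β y')) := (rb_bt_cont hβ).eventually he
    have hφ' : ∀ᶠ y' in 𝓝 y, t.φ (bt β y') ≠ 0 := (rb_bt_cont hβ).eventually hφ
    have hm' : ∀ᶠ y' in 𝓝 y, V (β y'.1) = m y'.1 * U (β y'.1) :=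
      (continuousAt_fst (p := y)).eventually hm
    filter_upwards [he', hk, hφ', hm'] with y' he' hk hφ' hm'
    obtain ⟨a1, a2, a3⟩ := he'
    rw [hk] at a1 a2 a3
    refine Prod.ext ?_ (Prod.ext ?_ ?_)
    · show V (β y'.1) * t'.ψ (bt β y') = _
      rw [a2, hm']
      show _ = (U (β y'.1) * t.φ (bt β y')) * (m y'.1 * (t.ψ (bt β y') / t.φ (bt β y'))) *
        h2 (rbk (chart (U ∘ β) m (t.up β) y'))
      field_simp
    · show (m y'.1)⁻¹ * (t'.φ (bt β y') / t'.ψ (bt β y')) = _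
      rw [a1, a2]
      show _ = (m y'.1 * (t.ψ (bt β y') / t.φ (bt β y')))⁻¹ *
        (h1 (rbk (chart (U ∘ β) m (t.up β) y')) / h2 (rbk (chart (U ∘ β) m (t.up β) y')))
      simp only [div_eq_mul_inv, mul_inv, inv_inv]
      ring
    · show t'.ρ (bt β y') = _
      rw [a3]

theorem relF (hβ : ContinuousAt β y.1) (hm : ∀ᶠ y' in 𝓝 y.1, V (β y') = m y' * U (β y'))
    (hφ : ∀ᶠ x in 𝓝 (bt β y), t.φ x ≠ 0) :
    HolRel y (chart (U ∘ β) m (t.up β)) (chart U V t ∘ bt β) :=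
  ⟨rbk, rbk_smooth.contDiffAt, rb_key (t := t) hβ hm hφ⟩

theorem relG (hβ : ContinuousAt β y.1) (hm : ∀ᶠ y' in 𝓝 y.1, V (β y') = m y' * U (β y'))
    (hφ : ∀ᶠ x in 𝓝 (bt β y), t.φ x ≠ 0) (hUc : ContinuousAt (U ∘ β) y.1) (hU : U (β y.1) ≠ 0) :
    HolRel y (chart U V t ∘ bt β) (chart (U ∘ β) m (t.up β)) := by
  have hφy := hφ.self_of_nhds
  refine ⟨fun p => (p.1, p.2.1 / p.1, p.2.2), ?_, ?_⟩
  · have p1 : ContDiff ℂ ∞ (fun p : ℂ × ℂ × R => p.1) := contDiff_fst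
    have p2 : ContDiff ℂ ∞ (fun p : ℂ × ℂ × R => p.2.1) := contDiff_fst.comp contDiff_snd
    have p3 : ContDiff ℂ ∞ (fun p : ℂ × ℂ × R => p.2.2) := contDiff_snd.comp contDiff_snd
    exact p1.contDiffAt.prodMk ((p2.contDiffAt.div p1.contDiffAt (mul_ne_zero hU hφy)).prodMk
      p3.contDiffAt)
  · have hφ' : ∀ᶠ y' in 𝓝 y, t.φ (bt β y') ≠ 0 := (rb_bt_cont hβ).eventually hφ
    have hm' : ∀ᶠ y' in 𝓝 y, V (β y'.1) = m y'.1 * U (β y'.1) :=
      (continuousAt_fst (p := y)).eventually hm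
    have hU0 : ∀ᶠ x in 𝓝 y.1, (U ∘ β) x ≠ 0 := hUc.eventually_ne hU
    have hU' : ∀ᶠ y' in 𝓝 y, U (β y'.1) ≠ 0 := (continuousAt_fst (p := y)).eventually hU0
    filter_upwards [hφ', hm', hU'] with y' hφ' hm' hU'
    refine Prod.ext rfl (Prod.ext ?_ rfl)
    show m y'.1 * (t.ψ (bt β y') / t.φ (bt β y')) =
      (V (β y'.1) * t.ψ (bt β y')) / (U (β y'.1) * t.φ (bt β y'))
    rw [hm']
    field_simp

end

end Pool.Agent.BlowC
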