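import Pool.Agent.Lib.MP_1d980c_gt.Blow.StepTop
import Pool.Agent.Lib.MP_1d980c_gt.Blow.StepRel
import Pool.Agent.Lib.MP_1d980c_gt.Blow.StepInj

/-! The domain property of a marked family. -/

set_option autoImplicit false
open Topology Pool.Agent.S4T2
open scoped Manifold ContDiff

namespace Pool.Agent.BlowC

section

variable {M N Z EZ HZ R : Type} [TopologicalSpace M] [ChartedSpace E4 M] [TopologicalSpace N]
  [ChartedSpace E4 N] [IsManifold (𝓡 4) ∞ M] [IsManifold (𝓡 4) ∞ N] [T2Space M] [T2Space N]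
  [NormedAddCommGroup EZ] [NormedSpace ℝ EZ] [TopologicalSpace HZ] {JZ : ModelWithCorners ℝ EZ HZ}
  [TopologicalSpace Z] [ChartedSpace HZ Z] [NormedAddCommGroup R] [NormedSpace ℂ R]
  {β : M → N} {c : Mark N} {c' : Mark M} {s : OnePoint ℂ → M}
  {Gm : N × Z → Set (N × Z → ℂ × ℂ × R)} {Mc : N × Z → Set (Trip (N × Z) R)}

theorem MarkFam.hdom [Nonempty Z] (h : MarkFam JZ c Gm Mc) :
    ∀ᶠ x in 𝓝 c.pt, c.u x = 0 → c.v x = 0 → x = c.pt := by
  obtain ⟨z⟩ := ‹Nonempty Z›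
  obtain ⟨t, ht, hev⟩ := h.ex z
  have h1 : Filter.Tendsto (fun x : N => (x, z)) (𝓝 c.pt) (𝓝 (c.pt, z)) :=
    (Continuous.prodMk_left z).tendsto c.pt
  filter_upwards [h1.eventually hev] with x hx
  exact (h.dom _ _ hx).2

end

end Pool.Agent.BlowC
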