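import Pool.Agent.Lib.MP_1d980c_gt.Blow.StepDefs

/-! Topology of the domains of the charts of a blow-up. -/

set_option autoImplicit false
open Topology Pool.Agent.S4T2
open scoped Manifold ContDiff

namespace Pool.Agent.BlowC

section

variable {M N : Type} [TopologicalSpace M] [ChartedSpace E4 M] [TopologicalSpace N]
  [ChartedSpace E4 N] [IsManifold (𝓡 4) ∞ M] [T2Space M]
  {β : M → N} {c : Mark N} {c' : Mark M} {s : OnePoint ℂ → M}

theorem BU.s_over (B : BU β c c' s) (a : OnePoint ℂ) : β (s a) = c.pt := by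
  have h : s a ∈ β ⁻¹' {c.pt} := by
    rw [← B.range]
    exact Set.mem_range_self a
  exact h

theorem BU.exists_s (B : BU β c c' s) {y : M} (hy : β y = c.pt) : ∃ a, y = s a := by
  have h : y ∈ Set.range s := by
    rw [B.range]
    exact hy
  obtain ⟨a, ha⟩ := h
  exact ⟨a, ha.symm⟩

/-- a point of the exceptional curve in `A1` is a point of finite slope. -/
theorem BU.A1_E (B : BU β c c' s) (hc0 : c.u c.pt = 0) {y : M} (h : y ∈ A1 β c c' s)
    (hy : β y = c.pt) : ∃ a : ℂ, y = s a := by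
  obtain ⟨_, _, h3⟩ := h
  rcases h3 with h3 | h3
  · exact absurd (by rw [hy]; exact hc0) h3
  · exact h3

/-- a point of the exceptional curve in `A2` is a point of nonzero slope. -/
theorem BU.A2_E (B : BU β c c' s) (hc0 : c.v c.pt = 0) {y : M} (h : y ∈ A2 β c c' s)
    (hy : β y = c.pt) : ∃ a : OnePoint ℂ, a ≠ (0 : ℂ) ∧ y = s a := by
  obtain ⟨_, _, h3⟩ := h
  rcases h3 with h3 | h3
  · exact absurd (by rw [hy]; exact hc0) h3
  · exact h3

/-- off the exceptional curve, in `A1`, `u` does not vanish. -/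
theorem BU.A1_off (B : BU β c c' s) {y : M} (h : y ∈ A1 β c c' s) (hy : β y ≠ c.pt) :
    c.u (β y) ≠ 0 := by
  obtain ⟨_, _, h3⟩ := h
  rcases h3 with h3 | ⟨a, ha⟩
  · exact h3
  · exact absurd (by rw [ha]; exact B.s_over _) hy

theorem BU.A2_off (B : BU β c c' s) {y : M} (h : y ∈ A2 β c c' s) (hy : β y ≠ c.pt) :
    c.v (β y) ≠ 0 := by
  obtain ⟨_, _, h3⟩ := h
  rcases h3 with h3 | ⟨a, _, ha⟩
  · exact h3
  · exact absurd (by rw [ha]; exact B.s_over _) hy

/-- at common points of the two charts on the exceptional curve. -/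
theorem BU.A12_E (B : BU β c c' s) (hu0 : c.u c.pt = 0) (hv0 : c.v c.pt = 0) {y : M}
    (h1 : y ∈ A1 β c c' s) (h2 : y ∈ A2 β c c' s) (hy : β y = c.pt) : c'.v y ≠ 0 := by
  obtain ⟨a, ha⟩ := B.A1_E hu0 h1 hy
  obtain ⟨b, hb0, hb⟩ := B.A2_E hv0 h2 hy
  have hab : (a : OnePoint ℂ) = b := B.inj (by rw [← ha, ← hb])
  have ha0 : a ≠ 0 := by
    rintro rfl
    exact hb0 hab.symm
  rw [ha, B.fin1 a]
  exact ha0

/-- the domain property of the new mark. -/
theorem BU.dom_new (B : BU β c c' s) (hc0 : c.u c.pt = 0) {y : M} (h : y ∈ A1 β c c' s)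
    (hu : c'.u y = 0) (hv : c'.v y = 0) : y = c'.pt := by
  obtain ⟨_, _, h3⟩ := h
  rw [B.hu] at hu
  rcases h3 with h3 | ⟨a, ha⟩
  · exact absurd hu h3
  · have h0 : a = 0 := by
      rw [ha, B.fin1 a] at hv
      exact hv
    rw [ha, h0, B.zero]

end

end Pool.Agent.BlowC
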