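import Pool.Agent.Lib.MP_1d980c_gt.Blow.StepTopA

/-! The domains of the charts are neighbourhoods. -/

set_option autoImplicit false
open Topology Pool.Agent.S4T2
open scoped Manifold ContDiff

namespace Pool.Agent.BlowC

section

variable {M N : Type} [TopologicalSpace M] [ChartedSpace E4 M] [TopologicalSpace N]
  [ChartedSpace E4 N] [IsManifold (𝓡 4) ∞ M] [T2Space M]
  {β : M → N} {c : Mark N} {c' : Mark M} {s : OnePoint ℂ → M}

theorem BU.A1_nhds (B : BU β c c' s)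
    (hdom : ∀ᶠ x in 𝓝 c.pt, c.u x = 0 → c.v x = 0 → x = c.pt) (a : ℂ) :
    ∀ᶠ y in 𝓝 (s a), y ∈ A1 β c c' s := by
  have hβ : Filter.Tendsto β (𝓝 (s a)) (𝓝 c.pt) := by
    have h := B.smooth.continuous.tendsto (s a)
    rwa [B.s_over a] at h
  have hne : ∀ᶠ y in 𝓝 (s a), y ≠ s OnePoint.infty := by
    refine isOpen_ne.mem_nhds ?_
    intro h
    exact OnePoint.coe_ne_infty a (B.inj h)
  filter_upwards [(B.fin3 a).eventually_nhds, (B.fin2 a).eventually, hne, hβ.eventually hdom]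
    with y h1 h2 h3 h4
  refine ⟨h1, h2, ?_⟩
  by_cases hu : c.u (β y) = 0
  · right
    have hv : c.v (β y) = 0 := by rw [h1.self_of_nhds, hu, mul_zero]
    obtain ⟨b, hb⟩ := B.exists_s (h4 hu hv)
    have hb' : b ≠ OnePoint.infty := by
      rintro rfl
      exact h3 hb
    obtain ⟨b', rfl⟩ := OnePoint.ne_infty_iff_exists.1 hb'
    exact ⟨b', hb⟩
  · exact Or.inl hu

theorem BU.A2_nhds (B : BU β c c' s)
    (hdom : ∀ᶠ x in 𝓝 c.pt, c.u x = 0 → c.v x = 0 → x = c.pt) :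
    ∀ᶠ y in 𝓝 (s OnePoint.infty), y ∈ A2 β c c' s := by
  have hβ : Filter.Tendsto β (𝓝 (s OnePoint.infty)) (𝓝 c.pt) := by
    have h := B.smooth.continuous.tendsto (s OnePoint.infty)
    rwa [B.s_over OnePoint.infty] at h
  have hne : ∀ᶠ y in 𝓝 (s OnePoint.infty), y ≠ s (0 : ℂ) := by
    refine isOpen_ne.mem_nhds ?_
    intro h
    exact OnePoint.coe_ne_infty (0 : ℂ) (B.inj h).symm
  filter_upwards [B.inf3.eventually_nhds, B.inf2.eventually, hne, hβ.eventually hdom]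
    with y h1 h2 h3 h4
  refine ⟨h1, h2, ?_⟩
  by_cases hv : c.v (β y) = 0
  · right
    have hu : c.u (β y) = 0 := by rw [h1.self_of_nhds, hv, mul_zero]
    obtain ⟨b, hb⟩ := B.exists_s (h4 hu hv)
    refine ⟨b, ?_, hb⟩
    rintro rfl
    exact h3 hb
  · exact Or.inl hv

end

end Pool.Agent.BlowC
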